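import Pool.Agent.Work.MP_44611a_h50.Inf

set_option autoImplicit false
set_option linter.unusedSectionVars false
set_option linter.unusedVariables false

namespace Pool.Agent.MP44611a

open MeasureTheory Filter Topology FirstOrder FirstOrder.Language

section

variable {L : FirstOrder.Language.{0, 0}} (lt : L.Relations 2) (col : L.Relations 1)
    (hF : ∀ n, IsEmpty (L.Functions n)) (hlt : ∀ r : L.Relations 2, r = lt)
    (hcol : ∀ r : L.Relations 1, r = col) (hR : ∀ n, n ≠ 1 → n ≠ 2 → IsEmpty (L.Relations n))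

include hF hlt hcol hR

/-- Isomorphic coloured orders have the same counts. -/
theorem card_realize_eq {A B : Type} [LinearOrder A] [LinearOrder B] [L.Structure A]
    [L.Structure B] {cA : A → Prop} {cB : B → Prop} (hA : Compat lt col A cA)
    (hB : Compat lt col B cB) (e : A ≃o B) (hc : ∀ a, cA a ↔ cB (e a)) {p : ℕ}
    (φ : L.Formula (Fin p)) :
    Nat.card {v : Fin p → A // φ.Realize v} = Nat.card {v : Fin p → B // φ.Realize v} := by
  let g : A ≃[L] B :=
    { toEquiv := e.toEquiv
      map_fun' := fun {n} f _ => ((hF n).false f).elim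
      map_rel' := by
        intro n r x
        by_cases h1 : n = 1
        · subst h1
          have e1 : x = ![x 0] := by funext i; rw [Subsingleton.elim i 0]; rfl
          have e2 : (e.toEquiv.toFun ∘ x) = ![e (x 0)] := by
            funext i; rw [Subsingleton.elim i 0]; rfl
          rw [e2, hcol r, hB.2, ← hc, ← hA.2]
          conv_rhs => rw [e1]
        · by_cases h2 : n = 2
          · subst h2
            have e1 : x = ![x 0, x 1] := by funext i; fin_cases i <;> rfl
            have e2 : (e.toEquiv.toFun ∘ x) = ![e (x 0), e (x 1)] := by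
              funext i; fin_cases i <;> rfl
            rw [e2, hlt r, hB.1, e.lt_iff_lt, ← hA.1]
            conv_rhs => rw [e1]
          · exact ((hR n h1 h2).false r).elim }
  refine Nat.card_congr
    { toFun := fun v => ⟨g ∘ v.1, (StrongHomClass.realize_formula g φ).2 v.2⟩
      invFun := fun v => ⟨g.symm ∘ v.1, (StrongHomClass.realize_formula g.symm φ).2 v.2⟩
      left_inv := fun v => Subtype.ext (funext fun i => g.symm_apply_apply _)
      right_inv := fun v => Subtype.ext (funext fun i => g.apply_symm_apply _) }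

theorem finite_case (U : Ultrafilter ℕ) (A : ℕ → Type) [∀ n, LinearOrder (A n)]
    [∀ n, BoundedOrder (A n)] [∀ n, Finite (A n)] (cA : ∀ n, A n → Prop)
    (B : ℕ) (hB : ∀ᶠ n in (U : Filter ℕ), Nat.card (A n) < B)
    [∀ n, L.Structure (A n)] (hA : ∀ n, Compat lt col (A n) (cA n)) :
    ∃ (M : Type) (_ : MeasurableSpace M) (_ : StandardBorelSpace M) (_ : L.Structure M)
      (μ : Measure M) (_ : IsProbabilityMeasure μ),
      (∀ (p : ℕ) (φ : L.Formula (Fin p)), MeasurableSet {v : Fin p → M | φ.Realize v}) ∧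
      ∀ (p : ℕ) (φ : L.Formula (Fin p)) (ℓ : ℝ),
      Tendsto (fun n => (Nat.card {v : Fin p → A n // φ.Realize v} : ℝ) /
        (Nat.card (A n) : ℝ) ^ p) U (𝓝 ℓ) →
      ℓ = (Measure.pi (fun _ : Fin p => μ)).real {v : Fin p → M | φ.Realize v} := by
  classical
  -- codes
  let code : ℕ → Fin (B + 1) × (Fin (B + 1) → Prop) := fun n =>
    (⟨min (Nat.card (A n)) B, by omega⟩, fun v => cA n (atr (A n) v.1))
  have hex : ∀ᶠ n in (U : Filter ℕ), ∃ κ, code n = κ := Eventually.of_forall fun n => ⟨_, rfl⟩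
  rw [Ultrafilter.eventually_exists_iff] at hex
  obtain ⟨κ, hκ⟩ := hex
  obtain ⟨n0, hn0, hn0'⟩ := (hκ.and hB).exists
  have hcount : ∀ᶠ n in (U : Filter ℕ), Nat.card (A n) = Nat.card (A n0) ∧
      ∀ (p : ℕ) (φ : L.Formula (Fin p)),
      Nat.card {v : Fin p → A n // φ.Realize v} = Nat.card {v : Fin p → A n0 // φ.Realize v} := by
    filter_upwards [hκ, hB] with n h1 h2
    have hcode : code n = code n0 := h1.trans hn0.symm
    have hc1 : Nat.card (A n) = Nat.card (A n0) := by
      have := congrArg (fun z => z.1.val) hcode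
      simp only [code] at this
      omega
    have hc2 : ∀ v : Fin (B + 1), cA n (atr (A n) v.1) = cA n0 (atr (A n0) v.1) := fun v =>
      congrFun (congrArg (fun z => z.2) hcode) v
    refine ⟨hc1, fun p φ => ?_⟩
    let e : A n ≃o A n0 := ((eIso (A n)).symm.trans (Fin.castOrderIso hc1)).trans (eIso (A n0))
    refine card_realize_eq lt col hF hlt hcol hR (hA n) (hA n0) e ?_ φ
    intro a
    have ha := rnk_lt a
    have e1 : atr (A n) (rnk a) = a := by
      unfold atr
      rw [dif_pos ha]
      exact (eIso (A n)).apply_symm_apply a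
    have e2 : atr (A n0) (rnk a) = e a := by
      unfold atr
      rw [dif_pos (hc1 ▸ ha)]
      rfl
    have := hc2 ⟨rnk a, by omega⟩
    simp only at this
    rw [e1, e2] at this
    exact iff_of_eq this
  let _ : MeasurableSpace (A n0) := ⊤
  have : DiscreteMeasurableSpace (A n0) := ⟨fun _ => trivial⟩
  have hN0 : (Nat.card (A n0) : ENNReal) ≠ 0 := by
    have : 0 < Nat.card (A n0) := Nat.card_pos
    exact_mod_cast this.ne'
  let μ : Measure (A n0) := (Nat.card (A n0) : ENNReal)⁻¹ • Measure.count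
  have hμs : ∀ a : A n0, μ {a} = (Nat.card (A n0) : ENNReal)⁻¹ := by
    intro a
    simp [μ]
  have hμ : IsProbabilityMeasure μ := by
    refine ⟨?_⟩
    have : Fintype (A n0) := Fintype.ofFinite _
    simp only [μ, Measure.smul_apply, smul_eq_mul]
    rw [Measure.count_univ]
    have : ENat.card (A n0) = (Nat.card (A n0) : ℕ∞) := by
      rw [ENat.card_eq_coe_natCard]
    rw [this]
    exact ENNReal.inv_mul_cancel hN0 (ENNReal.natCast_ne_top _)
  refine ⟨A n0, inferInstance, inferInstance, inferInstance, μ, hμ,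
    fun p φ => (Set.toFinite _).measurableSet, fun p φ ℓ hℓ => ?_⟩
  have h1 : Tendsto (fun n => (Nat.card {v : Fin p → A n // φ.Realize v} : ℝ) /
        (Nat.card (A n) : ℝ) ^ p) U (𝓝 ((Nat.card {v : Fin p → A n0 // φ.Realize v} : ℝ) /
        (Nat.card (A n0) : ℝ) ^ p)) := by
    refine tendsto_const_nhds.congr' ?_
    filter_upwards [hcount] with n hn
    rw [hn.1, hn.2]
  rw [tendsto_nhds_unique hℓ h1]
  have h2 := pi_real_comp μ (measurable_id) (p := p) {v : Fin p → A n0 | φ.Realize v}
  have h3 : {q : Fin p → A n0 | (fun i => id (q i)) ∈ {v : Fin p → A n0 | φ.Realize v}} =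
      {v : Fin p → A n0 | φ.Realize v} := rfl
  rw [h3] at h2
  rw [h2]
  have h4 : ∀ a : A n0, μ.real {q | id q = a} = (Nat.card (A n0) : ℝ)⁻¹ := by
    intro a
    have : {q : A n0 | id q = a} = {a} := rfl
    rw [this, measureReal_def, hμs, ENNReal.toReal_inv]
    simp
  simp_rw [h4]
  rw [Finset.prod_const, Finset.card_univ, Fintype.card_fin, Finset.sum_const, nsmul_eq_mul,
    div_eq_mul_inv, inv_pow]
  congr 2
  rw [← Set.ncard_eq_toFinset_card]
  rfl

end

/-- Bounds in finite linear orders. -/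
@[reducible] noncomputable def finBounded (A : Type) [LinearOrder A] [Finite A] [Nonempty A] :
    BoundedOrder A where
  top := (Finite.exists_max (id : A → A)).choose
  le_top := (Finite.exists_max (id : A → A)).choose_spec
  bot := (Finite.exists_min (id : A → A)).choose
  bot_le := (Finite.exists_min (id : A → A)).choose_spec

theorem main_theorem (L : FirstOrder.Language.{0, 0}) (lt : L.Relations 2) (col : L.Relations 1)
    (hF : ∀ n, IsEmpty (L.Functions n)) (hlt : ∀ r : L.Relations 2, r = lt)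
    (hcol : ∀ r : L.Relations 1, r = col) (hR : ∀ n, n ≠ 1 → n ≠ 2 → IsEmpty (L.Relations n))
    (A : ℕ → Type) [∀ n, Finite (A n)] [∀ n, Nonempty (A n)] [∀ n, L.Structure (A n)]
    (hirr : ∀ n (x : A n), ¬ Structure.RelMap lt ![x, x])
    (htr : ∀ n (x y z : A n), Structure.RelMap lt ![x, y] → Structure.RelMap lt ![y, z] →
      Structure.RelMap lt ![x, z])
    (htot : ∀ n (x y : A n), x ≠ y → Structure.RelMap lt ![x, y] ∨ Structure.RelMap lt ![y, x])
    (hconv : ∀ (p : ℕ) (φ : L.Formula (Fin p)), ∃ ℓ : ℝ,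
          Tendsto (fun n : ℕ => (Nat.card {v : Fin p → A n // φ.Realize v} : ℝ) /
            (Nat.card (A n) : ℝ) ^ p) atTop (𝓝 ℓ)) :
    ∃ (M : Type) (_ : MeasurableSpace M) (_ : StandardBorelSpace M) (_ : L.Structure M)
        (μ : MeasureTheory.Measure M) (_ : MeasureTheory.IsProbabilityMeasure μ),
        (∀ (p : ℕ) (φ : L.Formula (Fin p)), MeasurableSet {v : Fin p → M | φ.Realize v}) ∧
        ∀ (p : ℕ) (φ : L.Formula (Fin p)),
          Tendsto (fun n : ℕ => (Nat.card {v : Fin p → A n // φ.Realize v} : ℝ) /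
            (Nat.card (A n) : ℝ) ^ p) atTop
            (𝓝 ((MeasureTheory.Measure.pi (fun _ : Fin p => μ))
              {v : Fin p → M | φ.Realize v}).toReal) := by
  classical
  have hsto : ∀ n, IsStrictTotalOrder (A n) (fun x y => Structure.RelMap lt ![x, y]) := fun n =>
    { trichotomous := fun a b h1 h2 => by
        by_contra hne
        rcases htot n a b hne with h | h
        · exact h1 h
        · exact h2 h
      irrefl := fun a => hirr n a
      trans := fun a b e => htr n a b e }
  let _ : ∀ n, LinearOrder (A n) := fun n =>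
    haveI := hsto n
    linearOrderOfSTO (fun x y : A n => Structure.RelMap lt ![x, y])
  let _ : ∀ n, BoundedOrder (A n) := fun n => finBounded (A n)
  let cA : ∀ n, A n → Prop := fun n a => Structure.RelMap col ![a]
  have hA : ∀ n, Compat lt col (A n) (cA n) := fun n => ⟨fun x y => Iff.rfl, fun x => Iff.rfl⟩
  let U : Ultrafilter ℕ := hyperfilter ℕ
  have hUle : (U : Filter ℕ) ≤ atTop := Nat.hyperfilter_le_atTop
  have hU : ∀ i : ℕ, ∀ᶠ n in (U : Filter ℕ), i ≤ n := fun i => hUle (eventually_ge_atTop i)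
  have main : ∃ (M : Type) (_ : MeasurableSpace M) (_ : StandardBorelSpace M) (_ : L.Structure M)
      (μ : Measure M) (_ : IsProbabilityMeasure μ),
      (∀ (p : ℕ) (φ : L.Formula (Fin p)), MeasurableSet {v : Fin p → M | φ.Realize v}) ∧
      ∀ (p : ℕ) (φ : L.Formula (Fin p)) (ℓ : ℝ),
      Tendsto (fun n => (Nat.card {v : Fin p → A n // φ.Realize v} : ℝ) /
        (Nat.card (A n) : ℝ) ^ p) U (𝓝 ℓ) →
      ℓ = (Measure.pi (fun _ : Fin p => μ)).real {v : Fin p → M | φ.Realize v} := by
    by_cases hN : ∀ B : ℕ, ∀ᶠ n in (U : Filter ℕ), B ≤ Nat.card (A n)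
    · exact infinite_case U A cA lt col hF hlt hcol hR hU hN hA
    · push Not at hN
      obtain ⟨B, hB⟩ := hN
      exact finite_case lt col hF hlt hcol hR U A cA B hB hA
  obtain ⟨M, i1, i2, i3, μ, i4, h1, h2⟩ := main
  refine ⟨M, i1, i2, i3, μ, i4, h1, fun p φ => ?_⟩
  obtain ⟨ℓ, hℓ⟩ := hconv p φ
  have := h2 p φ ℓ (hℓ.mono_left hUle)
  rw [this] at hℓ
  exact hℓ

end Pool.Agent.MP44611a
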