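import Pool.Agent.Work.MP_44611a_h50.Types

set_option autoImplicit false

namespace Pool.Agent.MP44611a

section Q

variable {A B : Type} [LinearOrder A] [LinearOrder B] (cA : A → Prop) (cB : B → Prop)

/-- The finite partial correspondence `Γ` between two coloured linear orders is an equivalence of
rank `k`. -/
def Q (k : ℕ) (Γ : Set (A × B)) : Prop :=
  ∀ u ∈ Γ, ∀ v ∈ Γ, (u.1 < v.1 ↔ u.2 < v.2) ∧ tp cA k u.1 v.1 = tp cB k u.2 v.2 ∧
    cA u.1 = cB u.2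

variable {cA cB}

theorem Q.mono {k : ℕ} {Γ Δ : Set (A × B)} (h : Q cA cB k Γ) (hd : Δ ⊆ Γ) : Q cA cB k Δ :=
  fun u hu v hv => h u (hd hu) v (hd hv)

theorem Q.mono_rank {k l : ℕ} {Γ : Set (A × B)} (h : Q cA cB l Γ) (hd : k ≤ l) : Q cA cB k Γ :=
  fun u hu v hv => ⟨(h u hu v hv).1, tp_mono cA cB hd (h u hu v hv).2.1, (h u hu v hv).2.2⟩

theorem Q.eq_iff {k : ℕ} {Γ : Set (A × B)} (h : Q cA cB k Γ) {u v : A × B} (hu : u ∈ Γ)
    (hv : v ∈ Γ) : u.1 = v.1 ↔ u.2 = v.2 := by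
  have h1 := (h u hu v hv).1
  have h2 := (h v hv u hu).1
  constructor
  · intro e
    rw [e] at h1 h2
    refine le_antisymm (not_lt.1 (fun h' => lt_irrefl _ (h2.2 h')))
      (not_lt.1 (fun h' => lt_irrefl _ (h1.2 h')))
  · intro e
    rw [e] at h1 h2
    refine le_antisymm (not_lt.1 (fun h' => lt_irrefl _ (h2.1 h')))
      (not_lt.1 (fun h' => lt_irrefl _ (h1.1 h')))

theorem Q.swap {k : ℕ} {Γ : Set (A × B)} (h : Q cA cB k Γ) :
    Q cB cA k (Prod.swap ⁻¹' Γ) := by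
  intro u hu v hv
  obtain ⟨h1, h2, h3⟩ := h _ hu _ hv
  exact ⟨h1.symm, h2.symm, h3.symm⟩

/-- Inserting a pair. -/
theorem Q.ins {k : ℕ} {Γ : Set (A × B)} (h : Q cA cB k Γ) {x : A} {y : B}
    (hc : cA x = cB y)
    (h1 : ∀ r ∈ Γ, (r.1 < x ↔ r.2 < y) ∧ (x < r.1 ↔ y < r.2) ∧
      tp cA k r.1 x = tp cB k r.2 y ∧ tp cA k x r.1 = tp cB k y r.2) :
    Q cA cB k (insert (x, y) Γ) := by
  intro u hu v hv
  rcases hu with rfl | hu
  · rcases hv with rfl | hv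
    · refine ⟨by simp, ?_, hc⟩
      rw [tp_of_le _ _ le_rfl, tp_of_le _ _ le_rfl]
    · exact ⟨(h1 v hv).2.1, (h1 v hv).2.2.2, hc⟩
  · rcases hv with rfl | hv
    · exact ⟨(h1 u hu).1, (h1 u hu).2.2.1, (h u hu u hu).2.2⟩
    · exact h u hu v hv

theorem Q.forth {k : ℕ} {Γ : Set (A × B)} (h : Q cA cB (k+1) Γ) (hf : Γ.Finite) (x : A)
    (h0 : ∃ p ∈ Γ, p.1 ≤ x) (h1 : ∃ p ∈ Γ, x ≤ p.1) : ∃ y, Q cA cB k (insert (x, y) Γ) := by
  by_cases hx : ∃ p ∈ Γ, p.1 = x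
  · obtain ⟨p, hp, rfl⟩ := hx
    refine ⟨p.2, ?_⟩
    have : insert (p.1, p.2) Γ = Γ := Set.insert_eq_of_mem hp
    rw [this]
    exact h.mono_rank (Nat.le_succ k)
  push Not at hx
  obtain ⟨p, ⟨hp, hpx⟩, hpm⟩ := Set.exists_max_image {p ∈ Γ | p.1 < x} (fun p => p.1)
    (hf.subset (Set.sep_subset _ _)) (by
      obtain ⟨p, hp, hpx⟩ := h0
      exact ⟨p, hp, lt_of_le_of_ne hpx (hx p hp)⟩)
  obtain ⟨q, ⟨hq, hqx⟩, hqm⟩ := Set.exists_min_image {p ∈ Γ | x < p.1} (fun p => p.1)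
    (hf.subset (Set.sep_subset _ _)) (by
      obtain ⟨p, hp, hpx⟩ := h1
      exact ⟨p, hp, lt_of_le_of_ne hpx (Ne.symm (hx p hp))⟩)
  obtain ⟨e1, e2, e3⟩ := h p hp q hq
  have m : (tp cA k p.1 x, cA x, tp cA k x q.1) ∈
      (show Set (T k × Prop × T k) from tp cA (k+1) p.1 q.1) :=
    (mem_tp_succ cA k _ _ _).2 ⟨x, hpx, hqx, rfl⟩
  rw [e2] at m
  obtain ⟨y, hpy, hyq, hy⟩ := (mem_tp_succ cB k _ _ _).1 m
  simp only [Prod.mk.injEq] at hy
  obtain ⟨hy1, hy2, hy3⟩ := hy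
  have hk := h.mono_rank (Nat.le_succ k)
  refine ⟨y, hk.ins hy2 ?_⟩
  intro r hr
  rcases lt_trichotomy r.1 x with hrx | hrx | hrx
  · have hrp : r.1 ≤ p.1 := hpm r ⟨hr, hrx⟩
    have hcl : r.2 < y ∧ tp cA k r.1 x = tp cB k r.2 y := by
      rcases hrp.eq_or_lt with hrp | hrp
      · have := (hk.eq_iff hr hp).1 hrp
        rw [this, hrp]
        exact ⟨hpy, hy1⟩
      · have h2 := ((hk r hr p hp).1.1 hrp)
        refine ⟨h2.trans hpy, ?_⟩
        rw [tp_comp cA k hrp hpx, tp_comp cB k h2 hpy, (hk r hr p hp).2.1, (hk p hp p hp).2.2, hy1]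
    refine ⟨⟨fun _ => hcl.1, fun _ => hrx⟩, ⟨fun h' => absurd h' (not_lt.2 hrx.le),
      fun h' => absurd h' (not_lt.2 hcl.1.le)⟩, hcl.2, ?_⟩
    rw [tp_of_le _ _ hrx.le, tp_of_le _ _ hcl.1.le]
  · exact absurd hrx (hx r hr)
  · have hrq : q.1 ≤ r.1 := hqm r ⟨hr, hrx⟩
    have hcl : y < r.2 ∧ tp cA k x r.1 = tp cB k y r.2 := by
      rcases hrq.eq_or_lt with hrq | hrq
      · have := (hk.eq_iff hq hr).1 hrq
        rw [← this, ← hrq]
        exact ⟨hyq, hy3⟩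
      · have h2 := ((hk q hq r hr).1.1 hrq)
        refine ⟨hyq.trans h2, ?_⟩
        rw [tp_comp cA k hqx hrq, tp_comp cB k hyq h2, (hk q hq r hr).2.1, (hk q hq q hq).2.2, hy3]
    refine ⟨⟨fun h' => absurd h' (not_lt.2 hrx.le),
      fun h' => absurd h' (not_lt.2 hcl.1.le)⟩, ⟨fun _ => hcl.1, fun _ => hrx⟩, ?_, hcl.2⟩
    rw [tp_of_le _ _ hrx.le, tp_of_le _ _ hcl.1.le]

theorem Q.back {k : ℕ} {Γ : Set (A × B)} (h : Q cA cB (k+1) Γ) (hf : Γ.Finite) (y : B)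
    (h0 : ∃ p ∈ Γ, p.2 ≤ y) (h1 : ∃ p ∈ Γ, y ≤ p.2) : ∃ x, Q cA cB k (insert (x, y) Γ) := by
  obtain ⟨x, hx⟩ := h.swap.forth (hf.preimage Prod.swap_injective.injOn) y
    (by obtain ⟨p, hp, h⟩ := h0; exact ⟨p.swap, by simpa using hp, h⟩)
    (by obtain ⟨p, hp, h⟩ := h1; exact ⟨p.swap, by simpa using hp, h⟩)
  refine ⟨x, ?_⟩
  have := hx.swap
  refine this.mono ?_
  rintro ⟨a, b⟩ hab
  rcases hab with hab | hab
  · left
    simp only [Prod.mk.injEq] at hab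
    simp [hab.1, hab.2]
  · right
    simpa using hab

end Q

section FO

open FirstOrder FirstOrder.Language

variable {L : FirstOrder.Language.{0, 0}} (lt : L.Relations 2) (col : L.Relations 1)

/-- The structure on `A` is given by the order of `A` and the colour `c`. -/
def Compat (A : Type) [LinearOrder A] [L.Structure A] (c : A → Prop) : Prop :=
  (∀ x y : A, Structure.RelMap lt ![x, y] ↔ x < y) ∧ (∀ x : A, Structure.RelMap col ![x] ↔ c x)

theorem term_realize_mem {A B : Type} [L.Structure A] [L.Structure B]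
    (hF : ∀ n, IsEmpty (L.Functions n)) {ι : Type} (t : L.Term ι) (v : ι → A) (v' : ι → B)
    (Γ : Set (A × B)) (h : ∀ i, (v i, v' i) ∈ Γ) : (t.realize v, t.realize v') ∈ Γ := by
  cases t with
  | var i => exact h i
  | func f ts => exact (hF _).elim f

theorem fo_invariance (hF : ∀ n, IsEmpty (L.Functions n)) (hlt : ∀ r : L.Relations 2, r = lt)
    (hcol : ∀ r : L.Relations 1, r = col) (hR : ∀ n, n ≠ 1 → n ≠ 2 → IsEmpty (L.Relations n))
    {α : Type} {n : ℕ} (φ : L.BoundedFormula α n) :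
    ∃ k : ℕ, ∀ (A B : Type) [LinearOrder A] [LinearOrder B] [L.Structure A] [L.Structure B]
      (cA : A → Prop) (cB : B → Prop), Compat lt col A cA → Compat lt col B cB →
      ∀ Γ : Set (A × B), Γ.Finite → (∃ p ∈ Γ, (∀ x, p.1 ≤ x) ∧ ∀ y, p.2 ≤ y) →
      (∃ p ∈ Γ, (∀ x, x ≤ p.1) ∧ ∀ y, y ≤ p.2) → Q cA cB k Γ →
      ∀ (v : α → A) (xs : Fin n → A) (v' : α → B) (xs' : Fin n → B),
        (∀ a, (v a, v' a) ∈ Γ) → (∀ j, (xs j, xs' j) ∈ Γ) →
        (φ.Realize v xs ↔ φ.Realize v' xs') := by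
  induction φ with
  | falsum => exact ⟨0, fun _ _ _ _ _ _ _ _ _ _ _ _ _ _ _ _ _ _ _ _ _ => Iff.rfl⟩
  | equal t₁ t₂ =>
    refine ⟨0, fun A B _ _ _ _ cA cB hA hB Γ hf h0 h1 hQ v xs v' xs' hv hxs => ?_⟩
    have hs : ∀ i, (Sum.elim v xs i, Sum.elim v' xs' i) ∈ Γ := by
      rintro (i | i)
      · exact hv i
      · exact hxs i
    exact hQ.eq_iff (term_realize_mem hF t₁ _ _ Γ hs) (term_realize_mem hF t₂ _ _ Γ hs)
  | @rel n l R ts =>
    refine ⟨0, fun A B _ _ _ _ cA cB hA hB Γ hf h0 h1 hQ v xs v' xs' hv hxs => ?_⟩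
    have hs : ∀ i, (Sum.elim v xs i, Sum.elim v' xs' i) ∈ Γ := by
      rintro (i | i)
      · exact hv i
      · exact hxs i
    by_cases hl1 : l = 1
    · subst hl1
      have hm := term_realize_mem hF (ts 0) _ _ Γ hs
      have e1 : (fun i => (ts i).realize (Sum.elim v xs)) = ![(ts 0).realize (Sum.elim v xs)] := by
        funext i; rw [Subsingleton.elim i 0]; rfl
      have e2 : (fun i => (ts i).realize (Sum.elim v' xs')) =
          ![(ts 0).realize (Sum.elim v' xs')] := by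
        funext i; rw [Subsingleton.elim i 0]; rfl
      change Structure.RelMap R (fun i => (ts i).realize (Sum.elim v xs)) ↔
        Structure.RelMap R (fun i => (ts i).realize (Sum.elim v' xs'))
      rw [e1, e2, hcol R, hA.2, hB.2]
      exact iff_of_eq (hQ _ hm _ hm).2.2
    by_cases hl2 : l = 2
    · subst hl2
      have hm0 := term_realize_mem hF (ts 0) _ _ Γ hs
      have hm1 := term_realize_mem hF (ts 1) _ _ Γ hs
      have e1 : (fun i => (ts i).realize (Sum.elim v xs)) =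
          ![(ts 0).realize (Sum.elim v xs), (ts 1).realize (Sum.elim v xs)] := by
        funext i; fin_cases i <;> rfl
      have e2 : (fun i => (ts i).realize (Sum.elim v' xs')) =
          ![(ts 0).realize (Sum.elim v' xs'), (ts 1).realize (Sum.elim v' xs')] := by
        funext i; fin_cases i <;> rfl
      change Structure.RelMap R (fun i => (ts i).realize (Sum.elim v xs)) ↔
        Structure.RelMap R (fun i => (ts i).realize (Sum.elim v' xs'))
      rw [e1, e2, hlt R, hA.1, hB.1]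
      exact (hQ _ hm0 _ hm1).1
    · exact (hR l hl1 hl2).elim R
  | imp φ ψ ihφ ihψ =>
    obtain ⟨k1, h1⟩ := ihφ
    obtain ⟨k2, h2⟩ := ihψ
    refine ⟨max k1 k2, fun A B _ _ _ _ cA cB hA hB Γ hf hb hb' hQ v xs v' xs' hv hxs => ?_⟩
    rw [BoundedFormula.realize_imp, BoundedFormula.realize_imp]
    exact imp_congr
      (h1 A B cA cB hA hB Γ hf hb hb' (hQ.mono_rank (le_max_left _ _)) v xs v' xs' hv hxs)
      (h2 A B cA cB hA hB Γ hf hb hb' (hQ.mono_rank (le_max_right _ _)) v xs v' xs' hv hxs)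
  | all φ ih =>
    obtain ⟨k, h⟩ := ih
    refine ⟨k + 1, fun A B _ _ _ _ cA cB hA hB Γ hf hb hb' hQ v xs v' xs' hv hxs => ?_⟩
    rw [BoundedFormula.realize_all, BoundedFormula.realize_all]
    have key : ∀ x y, Q cA cB k (insert (x, y) Γ) →
        (φ.Realize v (Fin.snoc xs x) ↔ φ.Realize v' (Fin.snoc xs' y)) := by
      intro x y hxy
      refine h A B cA cB hA hB (insert (x, y) Γ) (hf.insert _) ?_ ?_ hxy v _ v' _ ?_ ?_
      · obtain ⟨p, hp, hp'⟩ := hb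
        exact ⟨p, Set.mem_insert_of_mem _ hp, hp'⟩
      · obtain ⟨p, hp, hp'⟩ := hb'
        exact ⟨p, Set.mem_insert_of_mem _ hp, hp'⟩
      · exact fun a => Set.mem_insert_of_mem _ (hv a)
      · intro j
        refine Fin.lastCases ?_ (fun j => ?_) j
        · simp only [Fin.snoc_last]
          exact Set.mem_insert _ _
        · simp only [Fin.snoc_castSucc]
          exact Set.mem_insert_of_mem _ (hxs j)
    constructor
    · intro hall y
      obtain ⟨x, hx⟩ := hQ.back hf y (by obtain ⟨p, hp, hp'⟩ := hb; exact ⟨p, hp, hp'.2 y⟩)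
        (by obtain ⟨p, hp, hp'⟩ := hb'; exact ⟨p, hp, hp'.2 y⟩)
      exact (key x y hx).1 (hall x)
    · intro hall x
      obtain ⟨y, hy⟩ := hQ.forth hf x (by obtain ⟨p, hp, hp'⟩ := hb; exact ⟨p, hp, hp'.1 x⟩)
        (by obtain ⟨p, hp, hp'⟩ := hb'; exact ⟨p, hp, hp'.1 x⟩)
      exact (key x y hy).2 (hall y)

end FO

end Pool.Agent.MP44611a
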