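import Pool.Agent.Work.MP_44611a_h50.Closure

set_option autoImplicit false
set_option linter.unusedSectionVars false
set_option linter.unusedVariables false

namespace Pool.Agent.MP44611a

variable {W : Type} [LinearOrder W] [BoundedOrder W] {c : W → Prop}

variable (c) in
/-- The closure of `W0 ∪ {x}`. -/
def MM (W0 : Set W) (x : W) : Set W := dcl c (insert x W0)

/-- No element of `W0` separates `x` and `y`. -/
def SameCut (W0 : Set W) (x y : W) : Prop := ∀ w ∈ W0, (w < x ↔ w < y) ∧ (x < w ↔ y < w)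

theorem SameCut.refl (W0 : Set W) (x : W) : SameCut W0 x x := fun _ _ => ⟨Iff.rfl, Iff.rfl⟩

theorem SameCut.symm {W0 : Set W} {x y : W} (h : SameCut W0 x y) : SameCut W0 y x :=
  fun w hw => ⟨(h w hw).1.symm, (h w hw).2.symm⟩

theorem SameCut.trans {W0 : Set W} {x y z : W} (h : SameCut W0 x y) (h' : SameCut W0 y z) :
    SameCut W0 x z :=
  fun w hw => ⟨(h w hw).1.trans (h' w hw).1, (h w hw).2.trans (h' w hw).2⟩

theorem SameCut.eq_of_mem {W0 : Set W} {x y : W} (h : SameCut W0 x y) (hx : x ∈ W0) : y = x := by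
  refine le_antisymm (not_lt.1 fun h' => ?_) (not_lt.1 fun h' => ?_)
  · exact lt_irrefl _ ((h x hx).1.2 h')
  · exact lt_irrefl _ ((h x hx).2.2 h')

theorem SameCut.notMem {W0 : Set W} {x y : W} (h : SameCut W0 x y) (hx : x ∉ W0) : y ∉ W0 := by
  intro hy
  have := h.symm.eq_of_mem hy
  exact hx (this ▸ hy)

/-- Points which are not separated by `W0`, from the absence of points of `W0` in between. -/
theorem sameCut_of_between {W0 : Set W} {x y : W} (hxy : x ≤ y)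
    (h : ∀ w ∈ W0, ¬ (x ≤ w ∧ w ≤ y)) : SameCut W0 x y := by
  intro w hw
  refine ⟨⟨fun h1 => h1.trans_le hxy, fun h1 => ?_⟩, ⟨fun h1 => ?_, fun h1 => hxy.trans_lt h1⟩⟩
  · by_contra h2
    exact h w hw ⟨not_lt.1 h2, h1.le⟩
  · by_contra h2
    exact h w hw ⟨h1.le, not_lt.1 h2⟩

/-- A point between two points of the same cut is in the same cut. -/
theorem SameCut.conv {W0 : Set W} {x y z : W} (h : SameCut W0 x y) (h1 : x ≤ z) (h2 : z ≤ y) :
    SameCut W0 x z := by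
  intro w hw
  refine ⟨⟨fun h3 => h3.trans_le h1, fun h3 => (h w hw).1.2 (h3.trans_le h2)⟩,
    ⟨fun h3 => h2.trans_lt ((h w hw).2.1 h3), fun h3 => h1.trans_lt h3⟩⟩

section basic

variable {W0 : Set W} (h0 : Cl c W0)

include h0

theorem cl_MM (x : W) : Cl c (MM c W0 x) :=
  cl_dcl (Set.mem_insert_of_mem _ h0.bot) (Set.mem_insert_of_mem _ h0.top)

theorem self_mem_MM (x : W) : x ∈ MM c W0 x := subset_dcl _ (Set.mem_insert _ _)

theorem W0_subset_MM (x : W) : W0 ⊆ MM c W0 x :=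
  (Set.subset_insert _ _).trans (subset_dcl _)

theorem MM_of_mem {x : W} (hx : x ∈ W0) : MM c W0 x = W0 := by
  unfold MM
  rw [Set.insert_eq_of_mem hx]
  exact le_antisymm h0.dcl (subset_dcl _)

theorem MM_subset {M : Set W} (hM : Cl c M) (hs : W0 ⊆ M) {x : W} (hx : x ∈ M) :
    MM c W0 x ⊆ M :=
  (dcl_mono (Set.insert_subset hx hs)).trans hM.dcl

/-- Elements of `MM x` outside `W0` are in the cut of `x`. -/
theorem sameCut_of_mem_MM {x m : W} (hm : m ∈ MM c W0 x) (hm0 : m ∉ W0) : SameCut W0 m x := by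
  have hx : x ∉ W0 := fun h => hm0 (by rwa [MM_of_mem h0 h] at hm)
  obtain ⟨P, hP, hPf, k, hk⟩ := hm
  have hP' : P \ {x} ⊆ W0 := by
    rintro p ⟨hp, hpx⟩
    rcases hP hp with h | h
    · exact absurd h hpx
    · exact h
  by_contra hcon
  -- there is a separating point
  have hsep : ∃ w ∈ W0, (m < w ∧ w < x) ∨ (x < w ∧ w < m) := by
    by_contra hno
    push Not at hno
    apply hcon
    intro w hw
    have hwm : w ≠ m := fun e => hm0 (e ▸ hw)
    have hwx : w ≠ x := fun e => hx (e ▸ hw)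
    obtain ⟨n1, n2⟩ := hno w hw
    rcases lt_or_gt_of_ne hwm with h1 | h1
    · have h2 : w < x := by
        by_contra h
        have h3 : x < w := lt_of_le_of_ne (not_lt.1 h) (Ne.symm hwx)
        exact absurd h1 (not_lt.2 (n2 h3))
      exact ⟨⟨fun _ => h2, fun _ => h1⟩, ⟨fun h => absurd h (not_lt.2 h1.le),
        fun h => absurd h (not_lt.2 h2.le)⟩⟩
    · have h2 : x < w := lt_of_le_of_ne (n1 h1) (Ne.symm hwx)
      exact ⟨⟨fun h => absurd h (not_lt.2 h1.le),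
        fun h => absurd h (not_lt.2 h2.le)⟩, ⟨fun _ => h2, fun _ => h1⟩⟩
  obtain ⟨w, hw, hs⟩ := hsep
  apply hm0
  apply h0.dcl
  refine ⟨insert w (P \ {x}), Set.insert_subset hw hP', (hPf.subset Set.sdiff_subset).insert _, k, ?_⟩
  intro z hz
  apply hk
  rw [QP_iff] at hz ⊢
  refine ⟨hz.1, fun p hp => ?_⟩
  by_cases hpx : p = x
  · subst hpx
    have hr := hz.2 w (Set.mem_insert _ _)
    rcases hs with ⟨h1, h2⟩ | ⟨h1, h2⟩
    · exact hr.up h1 h2
    · exact hr.down h2 h1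
  · exact hz.2 p (Set.mem_insert_of_mem _ ⟨hp, hpx⟩)

end basic

theorem pin_up {k : ℕ} {P : Set W} {z z1 f : W} (h : Pin c k (insert z P) f) (h1 : z < z1)
    (h2 : z1 < f) : Pin c k (insert z1 P) f := by
  intro z' hz'
  apply h
  rw [QP_iff] at hz' ⊢
  refine ⟨hz'.1, ?_⟩
  rintro p (rfl | hp)
  · exact (hz'.2 z1 (Set.mem_insert _ _)).down h2 h1
  · exact hz'.2 p (Set.mem_insert_of_mem _ hp)

section main

variable (hW : PF c) {W0 : Set W} (h0 : Cl c W0)

include hW h0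

/-- The key lemma: if `x` is below the block of `y`, then the block of `x` is below the block
of `y`. -/
theorem blockN {x y : W} (hx : x ∉ W0) (hy : y ∉ W0) (hc : SameCut W0 x y)
    (hlt : ∀ b ∈ MM c W0 y, b ∉ W0 → x < b) :
    ∀ f ∈ MM c W0 x, f ∉ W0 → ∀ g ∈ MM c W0 y, g ∉ W0 → f < g := by
  intro f hf hf0 g hg hg0
  by_contra hgf
  rw [not_lt] at hgf
  have hxg := hlt g hg hg0
  have hxf : x < f := hxg.trans_le hgf
  have hCy := cl_MM h0 y
  obtain ⟨P, hP, hPf, k, hk⟩ := id hf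
  obtain ⟨P0, hP0, hP0f, hPP, hb, ht⟩ : ∃ P0 : Set W, P0 ⊆ W0 ∧ P0.Finite ∧ P ⊆ insert x P0 ∧
      ⊥ ∈ P0 ∧ ⊤ ∈ P0 := by
    refine ⟨insert ⊥ (insert ⊤ (P \ {x})), ?_, ((hPf.subset Set.sdiff_subset).insert _).insert _,
      ?_, by simp, by simp⟩
    · rintro p (rfl | rfl | ⟨hp, hpx⟩)
      · exact h0.bot
      · exact h0.top
      · rcases hP hp with h | h
        · exact absurd h hpx
        · exact h
    · intro p hp
      by_cases hpx : p = x
      · exact Or.inl hpx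
      · exact Or.inr (Or.inr (Or.inr ⟨hp, hpx⟩))
  have hk' : Pin c k (insert x P0) f := hk.mono le_rfl hPP
  have hW0y := W0_subset_MM (c := c) h0 y
  -- `f` is in the closure of `W0 ∪ {y}`
  have hfy : f ∈ MM c W0 y := by
    rcases hgf.eq_or_lt with h | h
    · exact h ▸ hg
    · apply hCy.dcl
      exact ⟨insert g P0, Set.insert_subset hg (hP0.trans hW0y), hP0f.insert _, k,
        pin_up hk' hxg h⟩
  let D : Set W := {z | z < f ∧ ¬ Pin c k (insert z P0) f}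
  have hD : Inv c (k+1) (insert f P0) D := by
    rintro z z1 hz ⟨hzf, hzp⟩
    have hz' := QP_iff.1 hz
    have hz1f : z1 < f := (hz'.2 f (Set.mem_insert _ _)).2.1.1 hzf
    refine ⟨hz1f, fun hpin => hzp ?_⟩
    intro z' hz'2
    -- transfer `z'`
    obtain ⟨z1', hq⟩ := forthW ((dg_finite (hP0f.insert f)).insert _)
      (Set.mem_insert_of_mem _ (mem_dg (Set.mem_insert_of_mem _ hb)))
      (Set.mem_insert_of_mem _ (mem_dg (Set.mem_insert_of_mem _ ht))) hz z'
    have mz' : (z', z1') ∈ insert (z', z1') (insert (z, z1) (dg (insert f P0))) :=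
      Set.mem_insert _ _
    have mz : (z, z1) ∈ insert (z', z1') (insert (z, z1) (dg (insert f P0))) :=
      Set.mem_insert_of_mem _ (Set.mem_insert _ _)
    have mf : (f, f) ∈ insert (z', z1') (insert (z, z1) (dg (insert f P0))) :=
      Set.mem_insert_of_mem _ (Set.mem_insert_of_mem _ (mem_dg (Set.mem_insert _ _)))
    have mp : ∀ p ∈ P0, (p, p) ∈ insert (z', z1') (insert (z, z1) (dg (insert f P0))) :=
      fun p hp => Set.mem_insert_of_mem _ (Set.mem_insert_of_mem _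
        (mem_dg (Set.mem_insert_of_mem _ hp)))
    have key : QP c k (insert z1 P0) f z1' := by
      rw [QP_iff] at hz'2 ⊢
      refine ⟨hz'2.1.trans (hq _ mz' _ mz').2.2, ?_⟩
      rintro p (rfl | hp)
      · obtain ⟨r1, r2, r3, r4⟩ := hz'2.2 z (Set.mem_insert _ _)
        refine ⟨?_, ?_, ?_, ?_⟩
        · exact (hq _ mz _ mf).1.symm.trans (r1.trans (hq _ mz _ mz').1)
        · exact (hq _ mf _ mz).1.symm.trans (r2.trans (hq _ mz' _ mz).1)
        · exact (hq _ mz _ mf).2.1.symm.trans (r3.trans (hq _ mz _ mz').2.1)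
        · exact (hq _ mf _ mz).2.1.symm.trans (r4.trans (hq _ mz' _ mz).2.1)
      · obtain ⟨r1, r2, r3, r4⟩ := hz'2.2 p (Set.mem_insert_of_mem _ hp)
        refine ⟨?_, ?_, ?_, ?_⟩
        · exact r1.trans (hq _ (mp p hp) _ mz').1
        · exact r2.trans (hq _ mz' _ (mp p hp)).1
        · exact r3.trans (hq _ (mp p hp) _ mz').2.1
        · exact r4.trans (hq _ mz' _ (mp p hp)).2.1
    have e := hpin z1' key
    exact (hq.eq_iff mz' mf).2 e
  have hbD : ⊥ ∈ D := by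
    refine ⟨lt_of_le_of_ne bot_le fun e => hf0 (e ▸ h0.bot), fun hpin => hf0 (h0.dcl ?_)⟩
    exact ⟨_, Set.insert_subset h0.bot hP0, hP0f.insert _, k, hpin⟩
  obtain ⟨z0, hz0⟩ := hW.greatest _ (hP0f.insert f) (k+1) D hD ⟨⊥, hbD⟩
  have hz0M : z0 ∈ MM c W0 y := hCy.mem_greatest (hP0f.insert f)
    (Set.insert_subset hfy (hP0.trans hW0y)) hD hz0
  have hz0x : z0 < x := by
    by_contra h
    rw [not_lt] at h
    rcases h.eq_or_lt with h | h
    · subst h
      exact hz0.1.2 hk'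
    · exact hz0.1.2 (pin_up hk' h hz0.1.1)
  have hz0W : z0 ∈ W0 := by
    by_contra h
    exact absurd (hlt z0 hz0M h) (not_lt.2 hz0x.le)
  obtain ⟨z1, hz1, h01, hz1l⟩ := h0.succ hW hz0W hz0x
  have hz1x : z1 < x := lt_of_le_of_ne (hz1l x hz0x) fun e => hx (e ▸ hz1)
  apply hf0
  apply h0.dcl
  refine ⟨insert z1 P0, Set.insert_subset hz1 hP0, hP0f.insert _, k, ?_⟩
  by_contra hn
  exact absurd (hz0.2 (show z1 ∈ D from ⟨hz1x.trans hxf, hn⟩)) (not_le.2 h01)

theorem uR {x y : W} (hx : x ∉ W0) (hy : y ∉ W0)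
    (hN : ∀ f ∈ MM c W0 x, f ∉ W0 → ∀ g ∈ MM c W0 y, g ∉ W0 → f < g) (k : ℕ) {a b : W}
    (ha : a ∈ MM c W0 x) (ha0 : a ∉ W0) (hb : b ∈ MM c W0 y) (hb0 : b ∉ W0) :
    ∃ v ∈ W0, b < v ∧ LeR k (tp c k a b) (tp c k a v) := by
  by_contra hcon
  push Not at hcon
  have hab := hN a ha ha0 b hb hb0
  let D : Set W := {z | a < z ∧ ¬ LeR k (tp c k a b) (tp c k a z)}
  have hD : Inv c k {a} D := by
    rintro z z' hz ⟨h1, h2⟩
    have hr := (QP_iff.1 hz).2 a (Set.mem_singleton a)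
    refine ⟨hr.1.1 h1, ?_⟩
    rw [← hr.2.2.1]
    exact h2
  have hbt : b < ⊤ := lt_of_le_of_ne le_top fun e => hb0 (e ▸ h0.top)
  obtain ⟨m, hm⟩ := hW.least {a} (Set.finite_singleton a) k D hD
    ⟨⊤, hab.trans hbt, hcon ⊤ h0.top hbt⟩
  have hmM : m ∈ MM c W0 x := (cl_MM h0 x).mem_least (Set.finite_singleton a)
    (by simpa using ha) hD hm
  have hbm : b < m := by
    by_contra h
    exact hm.1.2 (leR_tp c hm.1.1 (not_lt.1 h))
  have hm0 : m ∉ W0 := by
    intro hm0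
    obtain ⟨m', hm', h1, h2⟩ := h0.pred hW hm0 hbm
    have h3 : b < m' := lt_of_le_of_ne (h2 b hbm) fun e => hb0 (e ▸ hm')
    exact absurd (hm.2 (show m' ∈ D from ⟨hab.trans h3, hcon m' hm' h3⟩)) (not_le.2 h1)
  exact absurd (hN m hmM hm0 b hb hb0) (not_lt.2 hbm.le)

theorem uL {x y : W} (hx : x ∉ W0) (hy : y ∉ W0)
    (hN : ∀ f ∈ MM c W0 x, f ∉ W0 → ∀ g ∈ MM c W0 y, g ∉ W0 → f < g) (k : ℕ) {a b : W}
    (ha : a ∈ MM c W0 x) (ha0 : a ∉ W0) (hb : b ∈ MM c W0 y) (hb0 : b ∉ W0) :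
    ∃ w ∈ W0, w < a ∧ LeL k (tp c k a b) (tp c k w b) := by
  by_contra hcon
  push Not at hcon
  have hab := hN a ha ha0 b hb hb0
  let D : Set W := {z | z < b ∧ ¬ LeL k (tp c k a b) (tp c k z b)}
  have hD : Inv c k {b} D := by
    rintro z z' hz ⟨h1, h2⟩
    have hr := (QP_iff.1 hz).2 b (Set.mem_singleton b)
    refine ⟨hr.2.1.1 h1, ?_⟩
    rw [← hr.2.2.2]
    exact h2
  have hbt : ⊥ < a := lt_of_le_of_ne bot_le fun e => ha0 (e ▸ h0.bot)
  obtain ⟨m, hm⟩ := hW.greatest {b} (Set.finite_singleton b) k D hD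
    ⟨⊥, hbt.trans hab, hcon ⊥ h0.bot hbt⟩
  have hmM : m ∈ MM c W0 y := (cl_MM h0 y).mem_greatest (Set.finite_singleton b)
    (by simpa using hb) hD hm
  have hbm : m < a := by
    by_contra h
    exact hm.1.2 (leL_tp c (not_lt.1 h) hm.1.1)
  have hm0 : m ∉ W0 := by
    intro hm0
    obtain ⟨m', hm', h1, h2⟩ := h0.succ hW hm0 hbm
    have h3 : m' < a := lt_of_le_of_ne (h2 a hbm) fun e => ha0 (e ▸ hm')
    exact absurd (hm.2 (show m' ∈ D from ⟨h3.trans hab, hcon m' hm' h3⟩)) (not_le.2 h1)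
  exact absurd (hN a ha ha0 m hmM hm0) (not_lt.2 hbm.le)

end main

end Pool.Agent.MP44611a
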