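import Pool.Agent.Work.MP_44611a_h50.Model

set_option autoImplicit false
set_option linter.unusedSectionVars false
set_option linter.unusedVariables false

namespace Pool.Agent.MP44611a

open MeasureTheory

variable (d : Dat)

/-- Predicates definable over `W0`. -/
def Df (R : d.W → Prop) : Prop :=
  ∃ P0 ⊆ d.W0, P0.Finite ∧ ∃ k, ∀ x x', QP d.c k P0 x x' → R x → R x'

variable {d}

theorem Df.iff' {R : d.W → Prop} (h : Df d R) :
    ∃ P0 ⊆ d.W0, P0.Finite ∧ ∃ k, ∀ x x', QP d.c k P0 x x' → (R x ↔ R x') := by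
  obtain ⟨P0, h1, h2, k, h3⟩ := h
  exact ⟨P0, h1, h2, k, fun x x' hq => ⟨h3 x x' hq, h3 x' x hq.symm⟩⟩

theorem Df.not {R : d.W → Prop} (h : Df d R) : Df d (fun x => ¬ R x) := by
  obtain ⟨P0, h1, h2, k, h3⟩ := h.iff'
  exact ⟨P0, h1, h2, k, fun x x' hq hx hx' => hx ((h3 x x' hq).2 hx')⟩

theorem Df.and {R S : d.W → Prop} (h : Df d R) (h' : Df d S) : Df d (fun x => R x ∧ S x) := by
  obtain ⟨P0, h1, h2, k, h3⟩ := h
  obtain ⟨P0', h1', h2', k', h3'⟩ := h'
  exact ⟨P0 ∪ P0', Set.union_subset h1 h1', h2.union h2', max k k', fun x x' hq hx =>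
    ⟨h3 x x' (hq.mono (le_max_left _ _) Set.subset_union_left) hx.1,
     h3' x x' (hq.mono (le_max_right _ _) Set.subset_union_right) hx.2⟩⟩

theorem Df.iff {R S : d.W → Prop} (h : Df d R) (h' : Df d S) : Df d (fun x => R x ↔ S x) := by
  obtain ⟨P0, h1, h2, k, h3⟩ := h.iff'
  obtain ⟨P0', h1', h2', k', h3'⟩ := h'.iff'
  exact ⟨P0 ∪ P0', Set.union_subset h1 h1', h2.union h2', max k k', fun x x' hq hx =>
    (h3 x x' (hq.mono (le_max_left _ _) Set.subset_union_left)).symm.trans (hx.trans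
     (h3' x x' (hq.mono (le_max_right _ _) Set.subset_union_right)))⟩

/-- A finitary form of `JT.app`. -/
theorem good_two (n m l : ℕ) {P' : Set d.W} (hP' : P' ⊆ d.W0) (hP'f : P'.Finite) :
    ∃ P0 ⊆ d.W0, P0.Finite ∧ P' ⊆ P0 ∧ ∃ K, ∀ x x', QP d.c K P0 x x' →
      Q d.c d.c l (insert (d.f n x, d.f n x') (insert (d.f m x, d.f m x')
        (insert (x, x') (dg P0)))) := by
  obtain ⟨P1, hP1, hP1f, g1⟩ := d.hf.good n
  obtain ⟨P2, hP2, hP2f, g2⟩ := d.hf.good m
  obtain ⟨la, ha⟩ := g1 l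
  obtain ⟨lb, hb⟩ := g2 la
  have hfin : (P' ∪ (P1 ∪ P2)).Finite := hP'f.union (hP1f.union hP2f)
  refine ⟨P' ∪ (P1 ∪ P2), Set.union_subset hP' (Set.union_subset hP1 hP2), hfin,
    Set.subset_union_left, lb, fun x x' hq => ?_⟩
  have hsub : dg (P' ∪ (P1 ∪ P2)) ⊆ insert (x, x') (dg (P' ∪ (P1 ∪ P2))) := Set.subset_insert _ _
  have h2 := hb _ ((dg_finite hfin).insert (x, x'))
    ((dg_mono fun p hp => Or.inr (Or.inr hp)).trans hsub) x x' (Set.mem_insert _ _) hq
  exact ha _ (((dg_finite hfin).insert (x, x')).insert _)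
    (((dg_mono fun p hp => Or.inr (Or.inl hp)).trans hsub).trans (Set.subset_insert _ _)) x x'
    (Set.mem_insert_of_mem _ (Set.mem_insert _ _)) h2

theorem Df_lt (n m : ℕ) : Df d (fun x => d.f n x < d.f m x) := by
  obtain ⟨P0, h1, h2, -, K, h3⟩ := good_two (d := d) n m 0 (Set.empty_subset _) Set.finite_empty
  exact ⟨P0, h1, h2, K, fun x x' hq => (h3 x x' hq _ (Set.mem_insert _ _) _
    (Set.mem_insert_of_mem _ (Set.mem_insert _ _))).1.1⟩

theorem Df_eq (n m : ℕ) : Df d (fun x => d.f n x = d.f m x) := by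
  obtain ⟨P0, h1, h2, -, K, h3⟩ := good_two (d := d) n m 0 (Set.empty_subset _) Set.finite_empty
  exact ⟨P0, h1, h2, K, fun x x' hq => ((h3 x x' hq).eq_iff (Set.mem_insert _ _)
    (Set.mem_insert_of_mem _ (Set.mem_insert _ _))).1⟩

theorem Df_eq_self (n : ℕ) : Df d (fun x => d.f n x = x) := by
  obtain ⟨P0, h1, h2, -, K, h3⟩ := good_two (d := d) n n 0 (Set.empty_subset _) Set.finite_empty
  exact ⟨P0, h1, h2, K, fun x x' hq => ((h3 x x' hq).eq_iff (Set.mem_insert _ _)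
    (Set.mem_insert_of_mem _ (Set.mem_insert_of_mem _ (Set.mem_insert _ _)))).1⟩

theorem Df_col (n : ℕ) : Df d (fun x => d.c (d.f n x)) := by
  obtain ⟨P0, h1, h2, -, K, h3⟩ := good_two (d := d) n n 0 (Set.empty_subset _) Set.finite_empty
  exact ⟨P0, h1, h2, K, fun x x' hq => (iff_of_eq (h3 x x' hq _ (Set.mem_insert _ _) _
    (Set.mem_insert _ _)).2.2).1⟩

theorem Df_w_lt {w : d.W} (hw : w ∈ d.W0) (n : ℕ) : Df d (fun x => w < d.f n x) := by
  obtain ⟨P0, h1, h2, h4, K, h3⟩ := good_two (d := d) n n 0 (P' := {w}) (by simpa using hw)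
    (Set.finite_singleton w)
  exact ⟨P0, h1, h2, K, fun x x' hq => (h3 x x' hq _ (Set.mem_insert_of_mem _
    (Set.mem_insert_of_mem _ (Set.mem_insert_of_mem _ (mem_dg (h4 rfl))))) _
    (Set.mem_insert _ _)).1.1⟩

theorem Df_lt_w {w : d.W} (hw : w ∈ d.W0) (n : ℕ) : Df d (fun x => d.f n x < w) := by
  obtain ⟨P0, h1, h2, h4, K, h3⟩ := good_two (d := d) n n 0 (P' := {w}) (by simpa using hw)
    (Set.finite_singleton w)
  exact ⟨P0, h1, h2, K, fun x x' hq => (h3 x x' hq _ (Set.mem_insert _ _) _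
    (Set.mem_insert_of_mem _ (Set.mem_insert_of_mem _ (Set.mem_insert_of_mem _
    (mem_dg (h4 rfl)))))).1.1⟩

theorem Df_w_lt_self {w : d.W} (hw : w ∈ d.W0) : Df d (fun x => w < x) :=
  ⟨{w}, by simpa using hw, Set.finite_singleton w, 0, fun x x' hq =>
    ((QP_iff.1 hq).2 w (Set.mem_singleton w)).1.1⟩

theorem Df_self_lt_w {w : d.W} (hw : w ∈ d.W0) : Df d (fun x => x < w) :=
  ⟨{w}, by simpa using hw, Set.finite_singleton w, 0, fun x x' hq =>
    ((QP_iff.1 hq).2 w (Set.mem_singleton w)).2.1.1⟩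

theorem measurableSet_finite_coord (F : Finset (ℕ × d.W0)) (H : Set (∀ i : F, X i.1.1)) :
    MeasurableSet {q : Sh d | (fun i : F => q i.1) ∈ H} := by
  have : Measurable (fun q : Sh d => (fun i : F => q i.1 : ∀ i : F, X i.1.1)) :=
    measurable_pi_lambda _ fun i => measurable_pi_apply _
  exact this ((Set.toFinite H).measurableSet)

theorem measurableSet_range_ty : MeasurableSet (Set.range (ty d)) := by
  have : Set.range (ty d) = ⋂ F : Finset (ℕ × d.W0),
      {q : Sh d | (fun i : F => q i.1) ∈ {ρ : ∀ i : F, X i.1.1 | ∃ x, ∀ i : F, ty d x i.1 = ρ i}} := by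
    apply Set.eq_of_subset_of_subset
    · rintro _ ⟨x, rfl⟩
      simp only [Set.mem_iInter]
      exact fun F => ⟨x, fun _ => rfl⟩
    · intro q hq
      simp only [Set.mem_iInter] at hq
      have : Nonempty (ℕ × d.W0) := ⟨(0, ⟨⊥, d.h0.bot⟩)⟩
      obtain ⟨e, he⟩ := exists_surjective_nat (ℕ × d.W0)
      obtain ⟨z, hz⟩ := d.hW.sat (fun n => {z | ty d z (e n) = q (e n)}) (by
        intro n
        refine ⟨{(e n).2.1}, Set.finite_singleton _, (e n).1, ?_⟩
        intro z z' hzz hz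
        change ty d z' (e n) = q (e n)
        rw [← show ty d z (e n) = q (e n) from hz]
        rw [QP_iff] at hzz
        obtain ⟨a1, a2, a3, a4⟩ := hzz.2 _ (Set.mem_singleton _)
        exact (Prod.ext hzz.1 (Prod.ext (propext a2) (Prod.ext (propext a1)
          (Prod.ext a4 a3)))).symm) (by
        classical
        intro n
        obtain ⟨x, hx⟩ := hq ((Finset.range (n+1)).image e)
        refine ⟨x, fun i hi => ?_⟩
        exact hx ⟨e i, Finset.mem_image_of_mem _ (Finset.mem_range.2 (by omega))⟩)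
      refine ⟨z, ?_⟩
      funext i
      obtain ⟨n, rfl⟩ := he i
      exact hz n
  rw [this]
  exact MeasurableSet.iInter fun F => measurableSet_finite_coord F _

theorem Df.measurableSet {R : d.W → Prop} (h : Df d R) :
    MeasurableSet {q : Sh d | q ∈ Set.range (ty d) ∧ R (rz d q)} := by
  classical
  obtain ⟨P0, h1, h2, k, h3⟩ := h
  have hfin : ((fun p : d.W0 => (p : d.W)) ⁻¹' (insert ⊥ P0)).Finite :=
    (h2.insert _).preimage Subtype.val_injective.injOn
  let F : Finset (ℕ × d.W0) := hfin.toFinset.image (fun w => (k, w))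
  have hF : ∀ w (hw : w ∈ d.W0), w ∈ insert ⊥ P0 → (k, (⟨w, hw⟩ : d.W0)) ∈ F := by
    intro w hw hwP
    refine Finset.mem_image.2 ⟨⟨w, hw⟩, ?_, rfl⟩
    rw [Set.Finite.mem_toFinset]
    exact hwP
  have : {q : Sh d | q ∈ Set.range (ty d) ∧ R (rz d q)} = Set.range (ty d) ∩
      {q : Sh d | (fun i : F => q i.1) ∈
        {ρ : ∀ i : F, X i.1.1 | ∃ x, R x ∧ ∀ i : F, ty d x i.1 = ρ i}} := by
    ext q
    constructor
    · rintro ⟨hq, hR⟩
      refine ⟨hq, rz d q, hR, fun i => ?_⟩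
      rw [ty_rz d hq]
    · rintro ⟨hq, x, hR, hx⟩
      refine ⟨hq, h3 x _ ?_ hR⟩
      have key : ∀ w (hw : w ∈ d.W0), w ∈ insert ⊥ P0 → d.c x = d.c (rz d q) ∧
          Rel d.c k w x (rz d q) := by
        intro w hw hwP
        have e := hx ⟨_, hF w hw hwP⟩
        have e2 : ty d x (k, (⟨w, hw⟩ : d.W0)) = ty d (rz d q) (k, (⟨w, hw⟩ : d.W0)) := by
          rw [ty_rz d hq]; exact e
        have e3 : (d.c x, x < w, w < x, tp d.c k x w, tp d.c k w x) =
          (d.c (rz d q), rz d q < w, w < rz d q, tp d.c k (rz d q) w, tp d.c k w (rz d q)) := e2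
        exact ⟨congrArg (fun p => p.1) e3, iff_of_eq (congrArg (fun p => p.2.2.1) e3),
          iff_of_eq (congrArg (fun p => p.2.1) e3), congrArg (fun p => p.2.2.2.2) e3,
          congrArg (fun p => p.2.2.2.1) e3⟩
      rw [QP_iff]
      exact ⟨(key ⊥ d.h0.bot (Set.mem_insert _ _)).1,
        fun p hp => (key p (h1 hp) (Set.mem_insert_of_mem _ hp)).2⟩
  rw [this]
  exact measurableSet_range_ty.inter (measurableSet_finite_coord F _)

theorem measurableSet_valid (n : ℕ) : MeasurableSet {q : Sh d | (q, n) ∈ LSet d} := by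
  have : {q : Sh d | (q, n) ∈ LSet d} =
      (⋂ w : d.W0, {q : Sh d | q ∈ Set.range (ty d) ∧ ((w.1 < d.f n (rz d q) ↔ w.1 < rz d q) ∧
        (d.f n (rz d q) < w.1 ↔ rz d q < w.1))}) ∩
      (⋂ j : Fin n, {q : Sh d | q ∈ Set.range (ty d) ∧ ¬ d.f j.1 (rz d q) = d.f n (rz d q)}) := by
    ext q
    simp only [Set.mem_inter_iff, Set.mem_iInter, Set.mem_ofPred_eq]
    constructor
    · rintro ⟨h1, h2, h3⟩
      exact ⟨fun w => ⟨h1, h2 w.1 w.2⟩, fun j => ⟨h1, h3 j.1 j.2⟩⟩
    · rintro ⟨h1, h2⟩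
      exact ⟨(h1 ⟨⊥, d.h0.bot⟩).1, fun w hw => (h1 ⟨w, hw⟩).2, fun j hj => (h2 ⟨j, hj⟩).2⟩
  rw [this]
  refine MeasurableSet.inter (MeasurableSet.iInter fun w => ?_) (MeasurableSet.iInter fun j => ?_)
  · exact (((Df_w_lt w.2 n).iff (Df_w_lt_self w.2)).and
      ((Df_lt_w w.2 n).iff (Df_self_lt_w w.2))).measurableSet
  · exact (Df_eq j.1 n).not.measurableSet

theorem measurableSet_LSet : MeasurableSet (LSet d) := by
  have : LSet d = ⋃ n : ℕ, {q : Sh d | (q, n) ∈ LSet d} ×ˢ {n} := by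
    ext ⟨q, n⟩
    simp only [Set.mem_iUnion, Set.mem_prod, Set.mem_ofPred_eq, Set.mem_singleton_iff]
    constructor
    · intro h
      exact ⟨n, h, rfl⟩
    · rintro ⟨m, h, rfl⟩
      exact h
  rw [this]
  exact MeasurableSet.iUnion fun n => (measurableSet_valid n).prod (measurableSet_singleton n)

noncomputable instance instMeasurableSpaceLc : MeasurableSpace (Lc d) :=
  inferInstanceAs (MeasurableSpace (LSet d))

instance instStandardBorelLc : StandardBorelSpace (Lc d) :=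
  (measurableSet_LSet (d := d)).standardBorel

theorem measurable_fst' : Measurable (fun a : Lc d => a.1.1) :=
  measurable_fst.comp measurable_subtype_coe

theorem measurable_snd' : Measurable (fun a : Lc d => a.1.2) :=
  measurable_snd.comp measurable_subtype_coe

theorem Df.measurableSet' {R : d.W → Prop} (h : Df d R) :
    MeasurableSet {a : Lc d | R (rz d a.1.1)} := by
  have : {a : Lc d | R (rz d a.1.1)} = (fun a : Lc d => a.1.1) ⁻¹'
      {q : Sh d | q ∈ Set.range (ty d) ∧ R (rz d q)} := by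
    ext a
    exact ⟨fun h => ⟨a.2.1, h⟩, fun h => h.2⟩
  rw [this]
  exact measurable_fst' h.measurableSet

theorem measurableSet_colL : MeasurableSet {a : Lc d | colL d a} := by
  have : {a : Lc d | colL d a} = ⋃ n : ℕ, {a : Lc d | a.1.2 = n} ∩
      {a : Lc d | d.c (d.f n (rz d a.1.1))} := by
    ext a
    simp only [Set.mem_iUnion, Set.mem_inter_iff, Set.mem_ofPred_eq]
    constructor
    · intro h
      exact ⟨a.1.2, rfl, h⟩
    · rintro ⟨n, h, h'⟩
      unfold colL val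
      rw [h]
      exact h'
  rw [this]
  exact MeasurableSet.iUnion fun n => (measurable_snd' (measurableSet_singleton n)).inter
    (Df_col n).measurableSet'

theorem cutlt_iff {x y : d.W} : (x < y ∧ ¬ SameCut d.W0 x y) ↔
    ∃ w ∈ d.W0, (x < w ∧ ¬ y < w) ∨ (¬ w < x ∧ w < y) := by
  constructor
  · rintro ⟨h1, h2⟩
    obtain ⟨w, hw, h3, h4⟩ : ∃ w ∈ d.W0, x ≤ w ∧ w ≤ y := by
      by_contra h
      push Not at h
      exact h2 (sameCut_of_between h1.le fun w hw hh => absurd hh.2 (not_le.2 (h w hw hh.1)))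
    refine ⟨w, hw, ?_⟩
    rcases h3.eq_or_lt with h3 | h3
    · exact Or.inr ⟨not_lt.2 h3.le, h3 ▸ h1⟩
    · exact Or.inl ⟨h3, not_lt.2 h4⟩
  · rintro ⟨w, hw, ⟨h1, h2⟩ | ⟨h1, h2⟩⟩
    · rw [not_lt] at h2
      refine ⟨h1.trans_le h2, fun h => ?_⟩
      exact absurd ((h w hw).2.1 h1) (not_lt.2 h2)
    · rw [not_lt] at h1
      refine ⟨h1.trans_lt h2, fun h => ?_⟩
      exact absurd ((h w hw).1.2 h2) (not_lt.2 h1)

theorem measurableSet_lt' : MeasurableSet {p : Lc d × Lc d | p.1 < p.2} := by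
  have h1 : MeasurableSet {p : Lc d × Lc d | rz d p.1.1.1 < rz d p.2.1.1 ∧
      ¬ SameCut d.W0 (rz d p.1.1.1) (rz d p.2.1.1)} := by
    have : {p : Lc d × Lc d | rz d p.1.1.1 < rz d p.2.1.1 ∧
      ¬ SameCut d.W0 (rz d p.1.1.1) (rz d p.2.1.1)} = ⋃ w : d.W0,
        ((Prod.fst ⁻¹' {a : Lc d | rz d a.1.1 < w.1} ∩ Prod.snd ⁻¹' {a : Lc d | ¬ rz d a.1.1 < w.1}) ∪
        (Prod.fst ⁻¹' {a : Lc d | ¬ w.1 < rz d a.1.1} ∩ Prod.snd ⁻¹' {a : Lc d | w.1 < rz d a.1.1})) := by
      ext p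
      simp only [Set.mem_iUnion, Set.mem_ofPred_eq, Set.mem_union, Set.mem_inter_iff,
        Set.mem_preimage]
      rw [cutlt_iff]
      constructor
      · rintro ⟨w, hw, h⟩
        exact ⟨⟨w, hw⟩, h⟩
      · rintro ⟨w, h⟩
        exact ⟨w.1, w.2, h⟩
    rw [this]
    refine MeasurableSet.iUnion fun w => ?_
    refine ((measurable_fst (Df_self_lt_w w.2).measurableSet').inter
      (measurable_snd (Df_self_lt_w w.2).not.measurableSet')).union
      ((measurable_fst (Df_w_lt_self w.2).not.measurableSet').inter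
      (measurable_snd (Df_w_lt_self w.2).measurableSet'))
  have h2 : MeasurableSet {p : Lc d × Lc d | SameCut d.W0 (rz d p.1.1.1) (rz d p.2.1.1)} := by
    have : {p : Lc d × Lc d | SameCut d.W0 (rz d p.1.1.1) (rz d p.2.1.1)} = ⋂ w : d.W0,
        ({p : Lc d × Lc d | (w.1 < rz d p.1.1.1 ↔ w.1 < rz d p.2.1.1)} ∩
        {p : Lc d × Lc d | (rz d p.1.1.1 < w.1 ↔ rz d p.2.1.1 < w.1)}) := by
      ext p
      simp only [Set.mem_iInter, Set.mem_ofPred_eq, Set.mem_inter_iff]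
      exact ⟨fun h w => h w.1 w.2, fun h w hw => h ⟨w, hw⟩⟩
    rw [this]
    refine MeasurableSet.iInter fun w => MeasurableSet.inter ?_ ?_
    · exact (measurable_fst (Df_w_lt_self w.2).measurableSet').iff
        (measurable_snd (Df_w_lt_self w.2).measurableSet')
    · exact (measurable_fst (Df_self_lt_w w.2).measurableSet').iff
        (measurable_snd (Df_self_lt_w w.2).measurableSet')
  have h3 : MeasurableSet {p : Lc d × Lc d | embeddingReal (Sh d) p.1.1.1 <
      embeddingReal (Sh d) p.2.1.1} :=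
    measurableSet_lt ((measurable_embeddingReal _).comp (measurable_fst'.comp measurable_fst))
      ((measurable_embeddingReal _).comp (measurable_fst'.comp measurable_snd))
  have h4 : MeasurableSet {p : Lc d × Lc d | p.1.1.1 = p.2.1.1} :=
    measurableSet_eq_fun (measurable_fst'.comp measurable_fst) (measurable_fst'.comp measurable_snd)
  have h5 : MeasurableSet {p : Lc d × Lc d | p.1.1.1 = p.2.1.1 ∧ val p.1 < val p.2} := by
    have : {p : Lc d × Lc d | p.1.1.1 = p.2.1.1 ∧ val p.1 < val p.2} =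
        {p : Lc d × Lc d | p.1.1.1 = p.2.1.1} ∩ ⋃ n : ℕ, ⋃ m : ℕ,
        ((Prod.fst ⁻¹' {a : Lc d | a.1.2 = n}) ∩ (Prod.snd ⁻¹' {a : Lc d | a.1.2 = m}) ∩
        (Prod.fst ⁻¹' {a : Lc d | d.f n (rz d a.1.1) < d.f m (rz d a.1.1)})) := by
      ext p
      simp only [Set.mem_iUnion, Set.mem_inter_iff, Set.mem_ofPred_eq, Set.mem_preimage]
      unfold val
      constructor
      · rintro ⟨h1, h2⟩
        refine ⟨h1, p.1.1.2, p.2.1.2, ⟨rfl, rfl⟩, ?_⟩
        rw [← h1] at h2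
        exact h2
      · rintro ⟨h1, n, m, ⟨h2, h3⟩, h4⟩
        refine ⟨h1, ?_⟩
        rw [← h1, h2, h3]
        exact h4
    rw [this]
    refine h4.inter (MeasurableSet.iUnion fun n => MeasurableSet.iUnion fun m => ?_)
    exact ((measurable_fst (measurable_snd' (measurableSet_singleton n))).inter
      (measurable_snd (measurable_snd' (measurableSet_singleton m)))).inter
      (measurable_fst (Df_lt n m).measurableSet')
  have : {p : Lc d × Lc d | p.1 < p.2} =
      ({p : Lc d × Lc d | rz d p.1.1.1 < rz d p.2.1.1 ∧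
      ¬ SameCut d.W0 (rz d p.1.1.1) (rz d p.2.1.1)} ∪
      ({p : Lc d × Lc d | SameCut d.W0 (rz d p.1.1.1) (rz d p.2.1.1)} ∩
      {p : Lc d × Lc d | embeddingReal (Sh d) p.1.1.1 < embeddingReal (Sh d) p.2.1.1})) ∪
      {p : Lc d × Lc d | p.1.1.1 = p.2.1.1 ∧ val p.1 < val p.2} := rfl
  rw [this]
  exact (h1.union (h2.inter h3)).union h5

end Pool.Agent.MP44611a
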