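import Pool.Agent.Work.MP_44611a_h50.Borel

set_option autoImplicit false
set_option linter.unusedSectionVars false
set_option linter.unusedVariables false

namespace Pool.Agent.MP44611a

open MeasureTheory

variable {d : Dat}

open Classical in
/-- Underlying function of `hL`. -/
noncomputable def uL' (n : ℕ) (a : Lc d) : Sh d × ℕ :=
  if (a.1.1, n) ∈ LSet d then (a.1.1, n) else a.1

theorem uL'_mem (n : ℕ) (a : Lc d) : uL' n a ∈ LSet d := by
  unfold uL'
  split_ifs with h
  · exact h
  · exact a.2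

/-- Skolem functions of the modeling. -/
noncomputable def hL (n : ℕ) (a : Lc d) : Lc d := ⟨uL' n a, uL'_mem n a⟩

theorem measurable_hL (n : ℕ) : Measurable (hL (d := d) n) := by
  refine Measurable.subtype_mk ?_
  unfold uL'
  refine Measurable.ite ?_ (measurable_fst'.prodMk measurable_const) measurable_subtype_coe
  exact measurable_fst' (measurableSet_valid n)

theorem eq_hL {a g : Lc d} (h : g.1.1 = a.1.1) : g = hL g.1.2 a := by
  apply Subtype.ext
  change g.1 = uL' g.1.2 a
  unfold uL'
  have : (a.1.1, g.1.2) ∈ LSet d := by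
    rw [← h]
    exact g.2
  rw [if_pos this, ← h]

instance instMeasurableSpaceT (k : ℕ) : MeasurableSpace (T k) := ⊤

instance instDiscreteMeasurableSpaceT (k : ℕ) : DiscreteMeasurableSpace (T k) := ⟨fun _ => trivial⟩

theorem measurableSet_colL_eq (e : Prop) : MeasurableSet {a : Lc d | colL d a = e} := by
  by_cases he : e
  · have : {a : Lc d | colL d a = e} = {a : Lc d | colL d a} := by
      ext a
      simp [he]
    rw [this]
    exact measurableSet_colL
  · have : {a : Lc d | colL d a = e} = {a : Lc d | colL d a}ᶜ := by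
      ext a
      simp [he]
    rw [this]
    exact measurableSet_colL.compl

theorem measurable_tpL : ∀ k : ℕ, Measurable (fun p : Lc d × Lc d => tp (colL d) k p.1 p.2)
  | 0 => measurable_const
  | k + 1 => by
    have ih := measurable_tpL k
    -- membership sets
    have key : ∀ (g : Lc d × Lc d → Lc d), Measurable g → ∀ s e s', MeasurableSet
        {p : Lc d × Lc d | p.1 < g p ∧ g p < p.2 ∧ tp (colL d) k p.1 (g p) = s ∧
          colL d (g p) = e ∧ tp (colL d) k (g p) p.2 = s'} := by
      intro g hg s e s'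
      have m1 : Measurable (fun p : Lc d × Lc d => (p.1, g p)) := measurable_fst.prodMk hg
      have m2 : Measurable (fun p : Lc d × Lc d => (g p, p.2)) := hg.prodMk measurable_snd
      refine MeasurableSet.inter (m1 measurableSet_lt') (MeasurableSet.inter
        (m2 measurableSet_lt') (MeasurableSet.inter ?_ (MeasurableSet.inter ?_ ?_)))
      · exact m1 (ih (measurableSet_singleton s))
      · exact hg (measurableSet_colL_eq e)
      · exact m2 (ih (measurableSet_singleton s'))
    have mem : ∀ σ : T k × Prop × T k, MeasurableSet {p : Lc d × Lc d |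
        σ ∈ (show Set (T k × Prop × T k) from tp (colL d) (k+1) p.1 p.2)} := by
      rintro ⟨s, e, s'⟩
      have : {p : Lc d × Lc d |
        (s, e, s') ∈ (show Set (T k × Prop × T k) from tp (colL d) (k+1) p.1 p.2)} =
        (⋃ n : ℕ, {p : Lc d × Lc d | p.1 < hL n p.1 ∧ hL n p.1 < p.2 ∧
          tp (colL d) k p.1 (hL n p.1) = s ∧ colL d (hL n p.1) = e ∧
          tp (colL d) k (hL n p.1) p.2 = s'}) ∪
        (⋃ n : ℕ, {p : Lc d × Lc d | p.1 < hL n p.2 ∧ hL n p.2 < p.2 ∧
          tp (colL d) k p.1 (hL n p.2) = s ∧ colL d (hL n p.2) = e ∧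
          tp (colL d) k (hL n p.2) p.2 = s'}) ∪
        (⋃ w : d.W0, {p : Lc d × Lc d | p.1 < cst d w.1 ∧ cst d w.1 < p.2 ∧
          tp (colL d) k p.1 (cst d w.1) = s ∧ colL d (cst d w.1) = e ∧
          tp (colL d) k (cst d w.1) p.2 = s'}) := by
        ext p
        constructor
        · intro hp
          obtain ⟨g, h1, h2, h3⟩ := (mem_tp_succ (colL d) k p.1 p.2 _).1 hp
          simp only [Prod.mk.injEq] at h3
          obtain ⟨h3, h4, h5⟩ := h3
          obtain ⟨g', hw, g1, g2, g3, g4, g5⟩ := exists_witL d k h1 h2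
          have hh : p.1 < g' ∧ g' < p.2 ∧ tp (colL d) k p.1 g' = s ∧ colL d g' = e ∧
              tp (colL d) k g' p.2 = s' :=
            ⟨g1, g2, g3.trans h3.symm, g4.trans h4.symm, g5.trans h5.symm⟩
          rcases hw with hw | hw | ⟨w, hw, hw'⟩
          · left; left
            rw [Set.mem_iUnion]
            refine ⟨g'.1.2, ?_⟩
            rw [Set.mem_ofPred_eq, ← eq_hL hw]
            exact hh
          · left; right
            rw [Set.mem_iUnion]
            refine ⟨g'.1.2, ?_⟩
            rw [Set.mem_ofPred_eq, ← eq_hL hw]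
            exact hh
          · right
            rw [Set.mem_iUnion]
            refine ⟨⟨w, hw⟩, ?_⟩
            rw [Set.mem_ofPred_eq, ← hw']
            exact hh
        · have fin : ∀ g : Lc d, (p.1 < g ∧ g < p.2 ∧ tp (colL d) k p.1 g = s ∧ colL d g = e ∧
              tp (colL d) k g p.2 = s') → p ∈ {p : Lc d × Lc d |
              (s, e, s') ∈ (show Set (T k × Prop × T k) from tp (colL d) (k+1) p.1 p.2)} := by
            rintro g ⟨h1, h2, rfl, rfl, rfl⟩
            exact (mem_tp_succ (colL d) k p.1 p.2 _).2 ⟨g, h1, h2, rfl⟩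
          rintro ((hp | hp) | hp)
          · obtain ⟨n, hn⟩ := Set.mem_iUnion.1 hp
            exact fin _ hn
          · obtain ⟨n, hn⟩ := Set.mem_iUnion.1 hp
            exact fin _ hn
          · obtain ⟨n, hn⟩ := Set.mem_iUnion.1 hp
            exact fin _ hn
      rw [this]
      refine ((MeasurableSet.iUnion fun n => ?_).union (MeasurableSet.iUnion fun n => ?_)).union
        (MeasurableSet.iUnion fun w => ?_)
      · exact key _ ((measurable_hL n).comp measurable_fst) s e s'
      · exact key _ ((measurable_hL n).comp measurable_snd) s e s'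
      · exact key _ measurable_const s e s'
    intro S _
    have hS : (fun p : Lc d × Lc d => tp (colL d) (k+1) p.1 p.2) ⁻¹' S =
        ⋃ τ ∈ S, ⋂ σ : T k × Prop × T k, {p : Lc d × Lc d |
        (σ ∈ (show Set (T k × Prop × T k) from tp (colL d) (k+1) p.1 p.2) ↔
          σ ∈ (show Set (T k × Prop × T k) from τ))} := by
      ext p
      simp only [Set.mem_iUnion, Set.mem_iInter, Set.mem_preimage]
      constructor
      · intro h
        exact ⟨_, h, fun σ => Iff.rfl⟩
      · rintro ⟨τ, hτ, h⟩
        have : tp (colL d) (k+1) p.1 p.2 = τ := T_ext (fun a e b => h (a, e, b))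
        rw [this]
        exact hτ
    rw [hS]
    refine MeasurableSet.biUnion (Set.toFinite S).countable fun τ _ =>
      MeasurableSet.iInter fun σ => ?_
    exact (mem σ).iff (MeasurableSet.const _)

/-- The least element of the modeling. -/
noncomputable def botL (d : Dat) : Lc d := cst d ⊥
/-- The greatest element of the modeling. -/
noncomputable def topL (d : Dat) : Lc d := cst d ⊤

theorem cst_val (d : Dat) (w : d.W) : d.f (cst d w).1.2 w = w := mk_val d w w _

theorem botL_le (a : Lc d) : botL d ≤ a := by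
  rw [← not_lt]
  intro h
  obtain ⟨y1, hr⟩ := exists_real (y2 := (⊥ : d.W)) h.le rfl
  have := hr.lt_iff.1 h
  have e : d.f (botL d).1.2 ⊥ = ⊥ := cst_val d ⊥
  rw [e] at this
  exact not_lt_bot this

theorem le_topL (a : Lc d) : a ≤ topL d := by
  rw [← not_lt]
  intro h
  obtain ⟨y1, hr⟩ := exists_real (y2 := rz d a.1.1) h.le (ty_rz d a.2.1)
  have h1 := hr.lt_iff.1 h
  have e1 : ty d y1 = ty d ⊤ := hr.1
  have e2 := ((ty_eq_iff d).1 e1).sameCut.symm.eq_of_mem d.h0.top
  rw [e2] at h1
  have e : d.f (topL d).1.2 ⊤ = ⊤ := cst_val d ⊤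
  rw [e] at h1
  exact not_top_lt h1

open FirstOrder FirstOrder.Language

section FO

variable {L : FirstOrder.Language.{0, 0}}

/-- The first-order structure given by an order and a colour. -/
@[reducible]
def strOf (hF : ∀ n, IsEmpty (L.Functions n)) (A : Type) [LinearOrder A] (c : A → Prop) :
    L.Structure A where
  funMap := fun {n} f _ => ((hF n).false f).elim
  RelMap := fun {n} _ x => (∃ h : 0 < n, n = 1 ∧ c (x ⟨0, h⟩)) ∨
    (∃ h : 1 < n, n = 2 ∧ x ⟨0, by omega⟩ < x ⟨1, h⟩)

theorem compat_strOf (lt : L.Relations 2) (col : L.Relations 1)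
    (hF : ∀ n, IsEmpty (L.Functions n)) (A : Type) [LinearOrder A] (c : A → Prop) :
    @Compat L lt col A _ (strOf hF A c) c := by
  constructor
  · intro x y
    change ((∃ h : 0 < 2, 2 = 1 ∧ c (![x, y] ⟨0, h⟩)) ∨
      (∃ h : 1 < 2, 2 = 2 ∧ ![x, y] ⟨0, by omega⟩ < ![x, y] ⟨1, h⟩)) ↔ x < y
    constructor
    · rintro (⟨_, h, -⟩ | ⟨_, -, h⟩)
      · omega
      · exact h
    · intro h
      exact Or.inr ⟨Nat.one_lt_two, rfl, h⟩
  · intro x
    change ((∃ h : 0 < 1, 1 = 1 ∧ c (![x] ⟨0, h⟩)) ∨
      (∃ h : 1 < 1, 1 = 2 ∧ ![x] ⟨0, by omega⟩ < ![x] ⟨1, h⟩)) ↔ c x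
    constructor
    · rintro (⟨_, -, h⟩ | ⟨_, h, -⟩)
      · exact h
      · omega
    · intro h
      exact Or.inl ⟨Nat.zero_lt_one, rfl, h⟩

/-- The tuple `v` extended by the bounds. -/
def ext' {A : Type} (b t : A) {p : ℕ} (v : Fin p → A) : Fin p ⊕ Bool → A :=
  Sum.elim v (fun i => cond i t b)

/-- The data of rank `k` of a tuple. -/
def datum {A : Type} [LinearOrder A] (c : A → Prop) (b t : A) (k : ℕ) {p : ℕ} (v : Fin p → A) :
    (Fin p ⊕ Bool) × (Fin p ⊕ Bool) → Prop × T k × Prop :=
  fun ij => (ext' b t v ij.1 < ext' b t v ij.2, tp c k (ext' b t v ij.1) (ext' b t v ij.2),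
    c (ext' b t v ij.1))

/-- Tuples with the same data of sufficiently high rank satisfy the same formulas. -/
theorem realize_iff_of_datum (lt : L.Relations 2) (col : L.Relations 1)
    (hF : ∀ n, IsEmpty (L.Functions n)) (hlt : ∀ r : L.Relations 2, r = lt)
    (hcol : ∀ r : L.Relations 1, r = col) (hR : ∀ n, n ≠ 1 → n ≠ 2 → IsEmpty (L.Relations n))
    {p : ℕ} (φ : L.Formula (Fin p)) :
    ∃ k : ℕ, ∀ (A B : Type) [LinearOrder A] [LinearOrder B] [L.Structure A] [L.Structure B]
      (cA : A → Prop) (cB : B → Prop), Compat lt col A cA → Compat lt col B cB →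
      ∀ (bA tA : A) (bB tB : B), (∀ x, bA ≤ x) → (∀ x, x ≤ tA) → (∀ x, bB ≤ x) →
      (∀ x, x ≤ tB) → ∀ (v : Fin p → A) (v' : Fin p → B),
        datum cA bA tA k v = datum cB bB tB k v' → (φ.Realize v ↔ φ.Realize v') := by
  obtain ⟨k, hk⟩ := fo_invariance lt col hF hlt hcol hR φ
  refine ⟨k, fun A B _ _ _ _ cA cB hA hB bA tA bB tB hbA htA hbB htB v v' h => ?_⟩
  let Γ : Set (A × B) := Set.range (fun i : Fin p ⊕ Bool => (ext' bA tA v i, ext' bB tB v' i))
  refine hk A B cA cB hA hB Γ (Set.finite_range _) ⟨_, ⟨Sum.inr false, rfl⟩, hbA, hbB⟩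
    ⟨_, ⟨Sum.inr true, rfl⟩, htA, htB⟩ ?_ v _ v' _ (fun i => ⟨Sum.inl i, rfl⟩)
    (fun i => i.elim0)
  rintro _ ⟨i, rfl⟩ _ ⟨j, rfl⟩
  have := congrFun h (i, j)
  unfold datum at this
  simp only [Prod.mk.injEq] at this
  exact ⟨iff_of_eq this.1, this.2.1, this.2.2⟩

theorem measurable_datum (k : ℕ) {p : ℕ} :
    Measurable (fun v : Fin p → Lc d => datum (colL d) (botL d) (topL d) k v) := by
  have hext : ∀ i : Fin p ⊕ Bool,
      Measurable (fun v : Fin p → Lc d => ext' (botL d) (topL d) v i) := by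
    rintro (i | i)
    · exact measurable_pi_apply i
    · exact measurable_const
  refine measurable_pi_lambda _ fun ij => ?_
  have m2 : Measurable (fun v : Fin p → Lc d => (ext' (botL d) (topL d) v ij.1,
    ext' (botL d) (topL d) v ij.2)) := (hext ij.1).prodMk (hext ij.2)
  refine Measurable.prodMk ?_ (Measurable.prodMk ?_ ?_)
  · exact measurableSet_setOfPred.1 (m2 measurableSet_lt')
  · exact (measurable_tpL k).comp m2
  · exact measurableSet_setOfPred.1 ((hext ij.1) measurableSet_colL)

theorem measurableSet_realize (lt : L.Relations 2) (col : L.Relations 1)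
    (hF : ∀ n, IsEmpty (L.Functions n)) (hlt : ∀ r : L.Relations 2, r = lt)
    (hcol : ∀ r : L.Relations 1, r = col) (hR : ∀ n, n ≠ 1 → n ≠ 2 → IsEmpty (L.Relations n))
    {p : ℕ} (φ : L.Formula (Fin p)) :
    MeasurableSet {v : Fin p → Lc d | @Formula.Realize L (Lc d) (strOf hF (Lc d) (colL d)) _ φ v} := by
  let _ := strOf hF (Lc d) (colL d)
  obtain ⟨k, hk⟩ := realize_iff_of_datum lt col hF hlt hcol hR φ
  have hc := compat_strOf lt col hF (Lc d) (colL d)
  let D := fun v : Fin p → Lc d => datum (colL d) (botL d) (topL d) k v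
  have : {v : Fin p → Lc d | φ.Realize v} = D ⁻¹' (D '' {v | φ.Realize v}) := by
    apply Set.eq_of_subset_of_subset
    · exact Set.subset_preimage_image _ _
    · rintro v ⟨v', hv', h⟩
      exact (hk (Lc d) (Lc d) (colL d) (colL d) hc hc (botL d) (topL d) (botL d) (topL d)
        botL_le le_topL botL_le le_topL v' v h).1 hv'
  rw [this]
  exact measurable_datum k ((Set.toFinite _).measurableSet)

end FO

end Pool.Agent.MP44611a
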