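import Pool.Agent.Work.MP_44611a_h50.BF

set_option autoImplicit false
set_option linter.unusedSectionVars false
set_option linter.unusedVariables false

namespace Pool.Agent.MP44611a

variable {W : Type} [LinearOrder W] [BoundedOrder W] (c : W → Prop)

/-- The diagonal of a set. -/
def dg (P : Set W) : Set (W × W) := (fun p => (p, p)) '' P

theorem mem_dg {P : Set W} {p : W} (h : p ∈ P) : (p, p) ∈ dg P := ⟨p, h, rfl⟩

theorem dg_finite {P : Set W} (h : P.Finite) : (dg P).Finite := h.image _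

theorem dg_mono {P P' : Set W} (h : P ⊆ P') : dg P ⊆ dg P' := Set.image_mono h

/-- Equivalence of rank `k` over the parameters `P`. -/
def QP (k : ℕ) (P : Set W) (z z' : W) : Prop := Q c c k (insert (z, z') (dg P))

/-- Relative position of rank `k` to a parameter. -/
def Rel (k : ℕ) (p z z' : W) : Prop :=
  (p < z ↔ p < z') ∧ (z < p ↔ z' < p) ∧ tp c k p z = tp c k p z' ∧ tp c k z p = tp c k z' p

variable {c}

theorem Rel.refl (k : ℕ) (p z : W) : Rel c k p z z := ⟨Iff.rfl, Iff.rfl, rfl, rfl⟩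

theorem Rel.symm {k : ℕ} {p z z' : W} (h : Rel c k p z z') : Rel c k p z' z :=
  ⟨h.1.symm, h.2.1.symm, h.2.2.1.symm, h.2.2.2.symm⟩

theorem Rel.trans {k : ℕ} {p z z' z'' : W} (h : Rel c k p z z') (h' : Rel c k p z' z'') :
    Rel c k p z z'' :=
  ⟨h.1.trans h'.1, h.2.1.trans h'.2.1, h.2.2.1.trans h'.2.2.1, h.2.2.2.trans h'.2.2.2⟩

theorem Rel.mono {k l : ℕ} (hkl : k ≤ l) {p z z' : W} (h : Rel c l p z z') : Rel c k p z z' :=
  ⟨h.1, h.2.1, tp_mono c c hkl h.2.2.1, tp_mono c c hkl h.2.2.2⟩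

theorem Rel.eq_of_mem {k : ℕ} {z z' : W} (h : Rel c k z z z') : z' = z := by
  refine le_antisymm (not_lt.1 fun h' => ?_) (not_lt.1 fun h' => ?_)
  · exact lt_irrefl _ (h.1.2 h')
  · exact lt_irrefl _ (h.2.1.2 h')

/-- `z, z' < w < x` -/
theorem Rel.up {k : ℕ} {w z z' x : W} (h : Rel c k w z z') (h1 : z < w) (h2 : w < x) :
    Rel c k x z z' := by
  have h3 : z' < w := h.2.1.1 h1
  refine ⟨⟨fun h' => absurd h' (not_lt.2 (h1.trans h2).le),
    fun h' => absurd h' (not_lt.2 (h3.trans h2).le)⟩,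
    ⟨fun _ => h3.trans h2, fun _ => h1.trans h2⟩, ?_, ?_⟩
  · rw [tp_of_le _ _ (h1.trans h2).le, tp_of_le _ _ (h3.trans h2).le]
  · rw [tp_comp c k h1 h2, tp_comp c k h3 h2, h.2.2.2]

/-- `x < w < z, z'` -/
theorem Rel.down {k : ℕ} {w z z' x : W} (h : Rel c k w z z') (h1 : w < z) (h2 : x < w) :
    Rel c k x z z' := by
  have h3 : w < z' := h.1.1 h1
  refine ⟨⟨fun _ => h2.trans h3, fun _ => h2.trans h1⟩,
    ⟨fun h' => absurd h' (not_lt.2 (h2.trans h1).le),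
    fun h' => absurd h' (not_lt.2 (h2.trans h3).le)⟩, ?_, ?_⟩
  · rw [tp_comp c k h2 h1, tp_comp c k h2 h3, h.2.2.1]
  · rw [tp_of_le _ _ (h2.trans h1).le, tp_of_le _ _ (h2.trans h3).le]

theorem QP_iff {k : ℕ} {P : Set W} {z z' : W} :
    QP c k P z z' ↔ c z = c z' ∧ ∀ p ∈ P, Rel c k p z z' := by
  constructor
  · intro h
    refine ⟨(h (z, z') (Set.mem_insert _ _) (z, z') (Set.mem_insert _ _)).2.2, fun p hp => ?_⟩
    have h1 := h (z, z') (Set.mem_insert _ _) (p, p) (Set.mem_insert_of_mem _ (mem_dg hp))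
    have h2 := h (p, p) (Set.mem_insert_of_mem _ (mem_dg hp)) (z, z') (Set.mem_insert _ _)
    exact ⟨h2.1, h1.1, h2.2.1, h1.2.1⟩
  · rintro ⟨h1, h2⟩
    refine Q.ins ?_ h1 ?_
    · rintro u ⟨p, hp, rfl⟩ v ⟨q, hq, rfl⟩
      exact ⟨Iff.rfl, rfl, rfl⟩
    · rintro r ⟨p, hp, rfl⟩
      obtain ⟨a1, a2, a3, a4⟩ := h2 p hp
      exact ⟨a1, a2, a3, a4⟩

theorem QP.refl (k : ℕ) (P : Set W) (z : W) : QP c k P z z :=
  QP_iff.2 ⟨rfl, fun _ _ => Rel.refl _ _ _⟩

theorem QP.symm {k : ℕ} {P : Set W} {z z' : W} (h : QP c k P z z') : QP c k P z' z := by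
  rw [QP_iff] at h ⊢
  exact ⟨h.1.symm, fun p hp => (h.2 p hp).symm⟩

theorem QP.trans {k : ℕ} {P : Set W} {z z' z'' : W} (h : QP c k P z z') (h' : QP c k P z' z'') :
    QP c k P z z'' := by
  rw [QP_iff] at h h' ⊢
  exact ⟨h.1.trans h'.1, fun p hp => (h.2 p hp).trans (h'.2 p hp)⟩

theorem QP.mono {k l : ℕ} {P P' : Set W} {z z' : W} (h : QP c l P' z z') (hkl : k ≤ l)
    (hP : P ⊆ P') : QP c k P z z' :=
  (Q.mono_rank h hkl).mono (Set.insert_subset_insert (dg_mono hP))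

theorem forthW {k : ℕ} {Γ : Set (W × W)} (hf : Γ.Finite) (h0 : ((⊥ : W), (⊥ : W)) ∈ Γ)
    (h1 : ((⊤ : W), (⊤ : W)) ∈ Γ) (h : Q c c (k+1) Γ) (x : W) :
    ∃ y, Q c c k (insert (x, y) Γ) :=
  h.forth hf x ⟨_, h0, bot_le⟩ ⟨_, h1, le_top⟩

theorem backW {k : ℕ} {Γ : Set (W × W)} (hf : Γ.Finite) (h0 : ((⊥ : W), (⊥ : W)) ∈ Γ)
    (h1 : ((⊤ : W), (⊤ : W)) ∈ Γ) (h : Q c c (k+1) Γ) (y : W) :
    ∃ x, Q c c k (insert (x, y) Γ) :=
  h.back hf y ⟨_, h0, bot_le⟩ ⟨_, h1, le_top⟩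

variable (c)

/-- `D` is invariant under equivalence of rank `k` over `P`. -/
def Inv (k : ℕ) (P : Set W) (D : Set W) : Prop := ∀ z z', QP c k P z z' → z ∈ D → z' ∈ D

/-- `m` is the only element of its class of rank `k` over `P`. -/
def Pin (k : ℕ) (P : Set W) (m : W) : Prop := ∀ z, QP c k P m z → z = m

/-- Definable closure. -/
def dcl (X : Set W) : Set W := {m | ∃ P ⊆ X, P.Finite ∧ ∃ k, Pin c k P m}

/-- The properties of ultraproducts of finite coloured orders that we use. -/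
structure PF : Prop where
  least : ∀ (P : Set W), P.Finite → ∀ (k : ℕ) (D : Set W), Inv c k P D → D.Nonempty →
    ∃ m, IsLeast D m
  greatest : ∀ (P : Set W), P.Finite → ∀ (k : ℕ) (D : Set W), Inv c k P D → D.Nonempty →
    ∃ m, IsGreatest D m
  sat : ∀ D : ℕ → Set W, (∀ n, ∃ P : Set W, P.Finite ∧ ∃ k, Inv c k P (D n)) →
    (∀ n, ∃ z, ∀ i ≤ n, z ∈ D i) → ∃ z, ∀ i, z ∈ D i

/-- Closed sets. -/
structure Cl (M : Set W) : Prop where
  bot : ⊥ ∈ M
  top : ⊤ ∈ M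
  dcl : dcl c M ⊆ M

variable {c}

theorem Inv.mono {k l : ℕ} {P P' : Set W} {D : Set W} (h : Inv c k P D) (hkl : k ≤ l)
    (hP : P ⊆ P') : Inv c l P' D := fun z z' hz => h z z' (hz.mono hkl hP)

theorem Pin.mono {k l : ℕ} {P P' : Set W} {m : W} (h : Pin c k P m) (hkl : k ≤ l)
    (hP : P ⊆ P') : Pin c l P' m := fun z hz => h z (hz.mono hkl hP)

theorem pin_self {k : ℕ} {P : Set W} {m : W} (h : m ∈ P) : Pin c k P m :=
  fun z hz => ((QP_iff.1 hz).2 m h).eq_of_mem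

theorem subset_dcl (X : Set W) : X ⊆ dcl c X :=
  fun x hx => ⟨{x}, by simpa using hx, Set.finite_singleton x, 0, pin_self (Set.mem_singleton x)⟩

theorem dcl_mono {X Y : Set W} (h : X ⊆ Y) : dcl c X ⊆ dcl c Y :=
  fun _ ⟨P, hP, h2⟩ => ⟨P, hP.trans h, h2⟩

theorem pin_least {k : ℕ} {P D : Set W} {m : W} (hP : P.Finite) (h0 : ⊥ ∈ P) (h1 : ⊤ ∈ P)
    (hD : Inv c k P D) (hm : IsLeast D m) : Pin c (k+1) P m := by
  intro m' h
  have hm' : m' ∈ D := hD m m' (h.mono (Nat.le_succ k) subset_rfl) hm.1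
  by_contra hne
  have hlt : m < m' := lt_of_le_of_ne (hm.2 hm') (Ne.symm hne)
  obtain ⟨u, hu⟩ := backW ((dg_finite hP).insert _) (Set.mem_insert_of_mem _ (mem_dg h0))
    (Set.mem_insert_of_mem _ (mem_dg h1)) h m
  have e1 := (hu (u, m) (Set.mem_insert _ _) (m, m')
    (Set.mem_insert_of_mem _ (Set.mem_insert _ _))).1
  have e2 : u < m := e1.2 hlt
  have e3 : QP c k P u m := Q.mono hu (Set.insert_subset_insert (Set.subset_insert _ _))
  exact absurd e2 (not_lt.2 (hm.2 (hD m u e3.symm hm.1)))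

theorem pin_greatest {k : ℕ} {P D : Set W} {m : W} (hP : P.Finite) (h0 : ⊥ ∈ P) (h1 : ⊤ ∈ P)
    (hD : Inv c k P D) (hm : IsGreatest D m) : Pin c (k+1) P m := by
  intro m' h
  have hm' : m' ∈ D := hD m m' (h.mono (Nat.le_succ k) subset_rfl) hm.1
  by_contra hne
  have hlt : m' < m := lt_of_le_of_ne (hm.2 hm') hne
  obtain ⟨u, hu⟩ := backW ((dg_finite hP).insert _) (Set.mem_insert_of_mem _ (mem_dg h0))
    (Set.mem_insert_of_mem _ (mem_dg h1)) h m
  have e1 := (hu (m, m') (Set.mem_insert_of_mem _ (Set.mem_insert _ _)) (u, m)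
    (Set.mem_insert _ _)).1
  have e2 : m < u := e1.2 hlt
  have e3 : QP c k P u m := Q.mono hu (Set.insert_subset_insert (Set.subset_insert _ _))
  exact absurd e2 (not_lt.2 (hm.2 (hD m u e3.symm hm.1)))

theorem pin_trans {k k' : ℕ} {P : Set W} {y z : W} (hP : P.Finite) (h0 : ⊥ ∈ P) (h1 : ⊤ ∈ P)
    (hy : Pin c k P y) (hz : Pin c k' (insert y P) z) : Pin c (max k k' + 1) P z := by
  intro z' h
  obtain ⟨y', hy'⟩ := forthW ((dg_finite hP).insert _) (Set.mem_insert_of_mem _ (mem_dg h0))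
    (Set.mem_insert_of_mem _ (mem_dg h1)) h y
  have e1 : QP c (max k k') P y y' := Q.mono hy' (Set.insert_subset_insert (Set.subset_insert _ _))
  obtain rfl := hy y' (e1.mono (le_max_left _ _) subset_rfl)
  apply hz
  have e2 : Q c c k' (insert (y', y') (insert (z, z') (dg P))) := hy'.mono_rank (le_max_right _ _)
  refine Q.mono e2 ?_
  rintro u (rfl | ⟨p, hp, rfl⟩)
  · exact Set.mem_insert_of_mem _ (Set.mem_insert _ _)
  · rcases hp with rfl | hp
    · exact Set.mem_insert _ _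
    · exact Set.mem_insert_of_mem _ (Set.mem_insert_of_mem _ (mem_dg hp))

theorem dcl_dcl {X : Set W} (h0 : ⊥ ∈ X) (h1 : ⊤ ∈ X) : dcl c (dcl c X) ⊆ dcl c X := by
  have key : ∀ F : Set W, F.Finite → F ⊆ dcl c X → ∀ (P' : Set W), P'.Finite → P' ⊆ X → ⊥ ∈ P' →
      ⊤ ∈ P' → ∀ k m, Pin c k (P' ∪ F) m → m ∈ dcl c X := by
    intro F hF
    induction F, hF using Set.Finite.induction_on with
    | empty =>
      intro _ P' hP' hX _ _ k m hm
      exact ⟨P', hX, hP', k, by simpa using hm⟩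
    | @insert y F hy hF ih =>
      intro hFX P' hP' hX h0' h1' k m hm
      obtain ⟨Py, hPy, hPyf, ky, hky⟩ := hFX (Set.mem_insert _ _)
      refine ih ((Set.subset_insert _ _).trans hFX) (P' ∪ Py) (hP'.union hPyf)
        (Set.union_subset hX hPy) (Or.inl h0') (Or.inl h1') (max ky k + 1) m ?_
      refine pin_trans ((hP'.union hPyf).union hF) (Or.inl (Or.inl h0')) (Or.inl (Or.inl h1'))
        (y := y) (hky.mono le_rfl fun x hx => Or.inl (Or.inr hx)) (hm.mono le_rfl ?_)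
      rintro x (hx | rfl | hx)
      · exact Or.inr (Or.inl (Or.inl hx))
      · exact Or.inl rfl
      · exact Or.inr (Or.inr hx)
  rintro m ⟨P, hP, hPf, k, hk⟩
  refine key P hPf hP {⊥, ⊤} (by simp) ?_ (by simp) (by simp) k m
    (hk.mono le_rfl Set.subset_union_right)
  rintro x (rfl | rfl)
  · exact h0
  · exact h1

theorem cl_dcl {X : Set W} (h0 : ⊥ ∈ X) (h1 : ⊤ ∈ X) : Cl c (dcl c X) :=
  ⟨subset_dcl X h0, subset_dcl X h1, dcl_dcl h0 h1⟩

theorem Cl.mem_least {M : Set W} (hM : Cl c M) {k : ℕ} {P D : Set W} (hP : P.Finite)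
    (hPM : P ⊆ M) (hD : Inv c k P D) {m : W} (hm : IsLeast D m) : m ∈ M := by
  apply hM.dcl
  refine ⟨insert ⊥ (insert ⊤ P), ?_, (hP.insert _).insert _, k + 1,
    pin_least ((hP.insert _).insert _) (by simp) (by simp) (hD.mono le_rfl ?_) hm⟩
  · rintro x (rfl | rfl | hx)
    · exact hM.bot
    · exact hM.top
    · exact hPM hx
  · exact (Set.subset_insert _ _).trans (Set.subset_insert _ _)

theorem Cl.mem_greatest {M : Set W} (hM : Cl c M) {k : ℕ} {P D : Set W} (hP : P.Finite)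
    (hPM : P ⊆ M) (hD : Inv c k P D) {m : W} (hm : IsGreatest D m) : m ∈ M := by
  apply hM.dcl
  refine ⟨insert ⊥ (insert ⊤ P), ?_, (hP.insert _).insert _, k + 1,
    pin_greatest ((hP.insert _).insert _) (by simp) (by simp) (hD.mono le_rfl ?_) hm⟩
  · rintro x (rfl | rfl | hx)
    · exact hM.bot
    · exact hM.top
    · exact hPM hx
  · exact (Set.subset_insert _ _).trans (Set.subset_insert _ _)

theorem inv_QP (k : ℕ) (P : Set W) (z : W) : Inv c k P {z' | QP c k P z z'} :=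
  fun _ _ h h' => QP.trans h' h

/-- Closed sets are elementary. -/
theorem Cl.between (hW : PF c) {M : Set W} (hM : Cl c M) (k : ℕ) {a b z : W} (ha : a ∈ M)
    (hb : b ∈ M) (h1 : a < z) (h2 : z < b) : ∃ z' ∈ M, a < z' ∧ z' < b ∧ z' ≤ z ∧
      QP c k {a, b} z z' := by
  obtain ⟨m, hm⟩ := hW.least {a, b} (by simp) k {z' | QP c k {a, b} z z'} (inv_QP k _ z)
    ⟨z, QP.refl _ _ _⟩
  have hm' := QP_iff.1 hm.1
  refine ⟨m, hM.mem_least (by simp) ?_ (inv_QP k _ z) hm, ?_, ?_, hm.2 (QP.refl _ _ _), hm.1⟩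
  · rintro x (rfl | rfl)
    · exact ha
    · exact hb
  · exact (hm'.2 a (by simp)).1.1 h1
  · exact (hm'.2 b (by simp)).2.1.1 h2

/-- Successors in closed sets. -/
theorem Cl.succ (hW : PF c) {M : Set W} (hM : Cl c M) {a x : W} (ha : a ∈ M) (h : a < x) :
    ∃ b ∈ M, a < b ∧ ∀ z, a < z → b ≤ z := by
  have hI : Inv c 0 {a} {z | a < z} := fun z z' hz hz' =>
    ((QP_iff.1 hz).2 a (Set.mem_singleton a)).1.1 hz'
  obtain ⟨m, hm⟩ := hW.least {a} (Set.finite_singleton a) 0 {z | a < z} hI ⟨x, h⟩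
  exact ⟨m, hM.mem_least (Set.finite_singleton a) (by simpa using ha) hI hm, hm.1,
    fun z hz => hm.2 hz⟩

/-- Predecessors in closed sets. -/
theorem Cl.pred (hW : PF c) {M : Set W} (hM : Cl c M) {a x : W} (ha : a ∈ M) (h : x < a) :
    ∃ b ∈ M, b < a ∧ ∀ z, z < a → z ≤ b := by
  have hI : Inv c 0 {a} {z | z < a} := fun z z' hz hz' =>
    ((QP_iff.1 hz).2 a (Set.mem_singleton a)).2.1.1 hz'
  obtain ⟨m, hm⟩ := hW.greatest {a} (Set.finite_singleton a) 0 {z | z < a} hI ⟨x, h⟩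
  exact ⟨m, hM.mem_greatest (Set.finite_singleton a) (by simpa using ha) hI hm, hm.1,
    fun z hz => hm.2 hz⟩

section countable

theorem finite_pin {k : ℕ} {P : Set W} (hP : P.Finite) : {m | Pin c k P m}.Finite := by
  have : Finite P := hP
  let g : W → Prop × (P → Prop × Prop × T k × T k) := fun m =>
    (c m, fun p => (p.1 < m, m < p.1, tp c k p.1 m, tp c k m p.1))
  refine Set.Finite.of_finite_image (f := g) (Set.toFinite _) ?_
  intro m hm m' hm' h
  symm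
  apply hm
  rw [QP_iff]
  simp only [g, Prod.mk.injEq] at h
  refine ⟨h.1, fun p hp => ?_⟩
  have := congrFun h.2 ⟨p, hp⟩
  simp only [Prod.mk.injEq] at this
  obtain ⟨h1, h2, h3, h4⟩ := this
  exact ⟨iff_of_eq h1, iff_of_eq h2, h3, h4⟩

theorem countable_dcl {X : Set W} (hX : X.Countable) : (dcl c X).Countable := by
  have : dcl c X ⊆ ⋃ P ∈ {P : Set W | P.Finite ∧ P ⊆ X}, ⋃ k : ℕ, {m | Pin c k P m} := by
    rintro m ⟨P, hP, hPf, k, hk⟩
    simp only [Set.mem_iUnion]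
    exact ⟨P, ⟨hPf, hP⟩, k, hk⟩
  refine Set.Countable.mono this ?_
  refine Set.Countable.biUnion (Set.countable_ofPred_finite_subset hX) ?_
  intro P hP
  exact Set.countable_iUnion fun k => (finite_pin hP.1).countable

end countable

end Pool.Agent.MP44611a
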