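import Pool.Agent.Work.MP_44611a_h50.Lim

set_option autoImplicit false
set_option linter.unusedSectionVars false
set_option linter.unusedVariables false

namespace Pool.Agent.MP44611a

open MeasureTheory Filter Topology FirstOrder FirstOrder.Language

theorem bound_arith (p N m : ℕ) (hm : 1 ≤ m) (hN : m ≤ N) :
    ((p * p * (N ^ (p - 1) * (2 * (N / m + 1) + 1)) : ℕ) : ℝ) / (N : ℝ) ^ p ≤
      5 * (p : ℝ) ^ 2 / m := by
  have hN0 : (0 : ℝ) < N := by exact_mod_cast (by omega : 0 < N)
  have hm0 : (0 : ℝ) < m := by exact_mod_cast (by omega : 0 < m)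
  rcases p with _ | p
  · simp
  · have h1 : m * (2 * (N / m + 1) + 1) ≤ 5 * N := by
      have := Nat.mul_div_le N m
      nlinarith
    have h2 : (m : ℝ) * (((2 * (N / m + 1) + 1 : ℕ)) : ℝ) ≤ 5 * N := by exact_mod_cast h1
    rw [Nat.add_sub_cancel, div_le_div_iff₀ (by positivity) hm0]
    have e : (((p + 1) * (p + 1) * (N ^ p * (2 * (N / m + 1) + 1)) : ℕ) : ℝ) =
        ((p + 1 : ℕ) : ℝ) ^ 2 * (N : ℝ) ^ p * ((2 * (N / m + 1) + 1 : ℕ) : ℝ) := by
      push_cast
      ring
    rw [e]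
    have h3 : (0 : ℝ) ≤ ((p + 1 : ℕ) : ℝ) ^ 2 * (N : ℝ) ^ p := by positivity
    calc ((p + 1 : ℕ) : ℝ) ^ 2 * (N : ℝ) ^ p * ((2 * (N / m + 1) + 1 : ℕ) : ℝ) * m
        = (((p + 1 : ℕ) : ℝ) ^ 2 * (N : ℝ) ^ p) * (m * ((2 * (N / m + 1) + 1 : ℕ) : ℝ)) := by ring
      _ ≤ (((p + 1 : ℕ) : ℝ) ^ 2 * (N : ℝ) ^ p) * (5 * N) := mul_le_mul_of_nonneg_left h2 h3
      _ = 5 * ((p + 1 : ℕ) : ℝ) ^ 2 * (N : ℝ) ^ (p + 1) := by ring

variable {d : Dat}

/-- Convergence of tuple counts. -/
theorem tendsto_tuple {U : Ultrafilter ℕ} {A : ℕ → Type} [∀ n, Finite (A n)]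
    {g : ∀ n, A n → Sh d} {μ : Measure (Sh d)} [IsProbabilityMeasure μ]
    (hμ : ∀ (F : Finset (ℕ × d.W0)) (S : Set (∀ i : F, X i.1.1)),
        Tendsto (fun n => (Nat.card {a : A n // rF F (g n a) ∈ S} : ℝ) / Nat.card (A n)) U
          (𝓝 (μ.real {q | rF F q ∈ S}))) (F : Finset (ℕ × d.W0)) {p : ℕ}
    (Γ : Set (Fin p → ∀ i : F, X i.1.1)) :
    Tendsto (fun n => (Nat.card {x : Fin p → A n // (fun i => rF F (g n (x i))) ∈ Γ} : ℝ) /
      (Nat.card (A n) : ℝ) ^ p) U
      (𝓝 ((Measure.pi (fun _ : Fin p => μ)).real {q | (fun i => rF F (q i)) ∈ Γ})) := by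
  rw [pi_real_comp μ (measurable_rF F) Γ]
  have e : ∀ n, (Nat.card {x : Fin p → A n // (fun i => rF F (g n (x i))) ∈ Γ} : ℝ) /
      (Nat.card (A n) : ℝ) ^ p = ∑ ρ ∈ (Set.toFinite Γ).toFinset, ∏ i,
        ((Nat.card {a : A n // rF F (g n a) ∈ ({ρ i} : Set (∀ i : F, X i.1.1))} : ℝ) /
          Nat.card (A n)) := by
    intro n
    rw [card_comp (fun a => rF F (g n a)) Γ]
    push_cast
    rw [Finset.sum_div]
    refine Finset.sum_congr rfl fun ρ _ => ?_
    rw [Finset.prod_div_distrib, Finset.prod_const, Finset.card_univ, Fintype.card_fin]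
    rfl
  simp_rw [e]
  refine tendsto_finsetSum _ fun ρ _ => tendsto_finsetProd _ fun i _ => ?_
  exact hμ F {ρ i}

section

variable {U : Ultrafilter ℕ} {A : ℕ → Type} [∀ n, LinearOrder (A n)]
    [∀ n, BoundedOrder (A n)] [∀ n, Finite (A n)] {cA : ∀ n, A n → Prop}
    {rp : d.W → ∀ n, A n} {cls : (∀ n, A n) → d.W}
variable {L : FirstOrder.Language.{0, 0}} (lt : L.Relations 2) (col : L.Relations 1)
    (hF : ∀ n, IsEmpty (L.Functions n)) (hlt : ∀ r : L.Relations 2, r = lt)
    (hcol : ∀ r : L.Relations 1, r = col) (hR : ∀ n, n ≠ 1 → n ≠ 2 → IsEmpty (L.Relations n))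

include hF hlt hcol hR in
theorem main_conv (H : LimDat d U A cA rp cls) (hN : ∀ B : ℕ, ∀ᶠ n in (U : Filter ℕ), B ≤ Nat.card (A n))
    (rk : ∀ n, A n → ℕ) (hrk : ∀ n, Function.Injective (rk n))
    (hq : ∀ m, 1 ≤ m → ∃ P : Finset d.W0, ∀ᶠ n in (U : Filter ℕ), ∀ a b : A n,
      rk n a + (Nat.card (A n) / m + 1) < rk n b → ∃ w ∈ P, a < rp w.1 n ∧ rp w.1 n < b)
    [∀ n, L.Structure (A n)] (hA : ∀ n, Compat lt col (A n) (cA n)) :
    ∃ ν : Measure (Lc d), IsProbabilityMeasure ν ∧ ∀ (p : ℕ) (φ : L.Formula (Fin p)) (ℓ : ℝ),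
      Tendsto (fun n => (Nat.card {v : Fin p → A n // φ.Realize v} : ℝ) /
        (Nat.card (A n) : ℝ) ^ p) U (𝓝 ℓ) →
      ℓ = (Measure.pi (fun _ : Fin p => ν)).real
        {v : Fin p → Lc d | @Formula.Realize L (Lc d) (strOf hF (Lc d) (colL d)) _ φ v} := by
  classical
  obtain ⟨μ, hμp, hμ⟩ := exists_mu (d := d) U A (pin' cA rp)
  have hrange := mu_range H hμ
  refine ⟨μ.map (psi d), Measure.isProbabilityMeasure_map (measurable_psi d).aemeasurable,
    fun p φ ℓ hℓ => ?_⟩
  let strL : L.Structure (Lc d) := strOf hF (Lc d) (colL d)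
  have hcL := compat_strOf lt col hF (Lc d) (colL d)
  obtain ⟨k, hk⟩ := realize_iff_of_datum lt col hF hlt hcol hR φ
  have hmeas := measurableSet_realize (d := d) lt col hF hlt hcol hR φ
  -- the set of tuples of types satisfying `φ`
  let Eφ : Set (Fin p → Sh d) := {q | φ.Realize (fun i => psi d (q i))}
  have hpsi : Measurable (fun q : Fin p → Sh d => (fun i => psi d (q i))) :=
    measurable_pi_lambda _ fun i => (measurable_psi d).comp (measurable_pi_apply i)
  have hEm : MeasurableSet Eφ := hpsi hmeas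
  have hν : (Measure.pi (fun _ : Fin p => μ.map (psi d))).real {v : Fin p → Lc d | φ.Realize v} =
      (Measure.pi (fun _ : Fin p => μ)).real Eφ := by
    have h1 := Measure.pi_map_pi (μ := fun _ : Fin p => μ) (f := fun _ => psi d)
      (fun _ => (measurable_psi d).aemeasurable)
    rw [← h1]
    unfold Measure.real
    rw [Measure.map_apply hpsi hmeas]
    rfl
  rw [hν]
  have hnull : (Measure.pi (fun _ : Fin p => μ)) {q | ∃ i, q i ∉ Set.range (ty d)} = 0 := by
    have : {q : Fin p → Sh d | ∃ i, q i ∉ Set.range (ty d)} =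
        ⋃ i, Function.eval i ⁻¹' (Set.range (ty d))ᶜ := by
      ext q
      simp only [Set.mem_iUnion]
      rfl
    rw [this, measure_iUnion_null_iff]
    intro i
    exact Measure.pi_eval_preimage_null _ hrange
  -- the main estimate
  have key : ∀ m : ℕ, 1 ≤ m → |ℓ - (Measure.pi (fun _ : Fin p => μ)).real Eφ| ≤
      5 * (p : ℝ) ^ 2 / m := by
    intro m hm
    obtain ⟨P', hP'⟩ := hq m hm
    let P : Finset d.W0 := insert ⟨⊥, d.h0.bot⟩ (insert ⟨⊤, d.h0.top⟩ P')
    have hbP : (⟨⊥, d.h0.bot⟩ : d.W0) ∈ P := Finset.mem_insert_self _ _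
    have htP : (⟨⊤, d.h0.top⟩ : d.W0) ∈ P :=
      Finset.mem_insert_of_mem (Finset.mem_insert_self _ _)
    have hPP : ∀ w ∈ P', w ∈ P := fun w hw =>
      Finset.mem_insert_of_mem (Finset.mem_insert_of_mem hw)
    let F := Fk k P
    let Γφ : Set (Fin p → ∀ i : F, X i.1.1) := {ρ | SepR ρ ∧ ∃ q : Fin p → Sh d,
      (∀ i, q i ∈ Set.range (ty d)) ∧ (∀ i, rF F (q i) = ρ i) ∧ q ∈ Eφ}
    let Γs : Set (Fin p → ∀ i : F, X i.1.1) := {ρ | ¬ SepR ρ}
    have hsepW : ∀ q : Fin p → Sh d, (∀ i, q i ∈ Set.range (ty d)) →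
        SepR (fun i => rF F (q i)) → ∀ i j, i ≠ j → ∃ w ∈ d.W0,
          (rz d (q i) < w ∧ w < rz d (q j)) ∨ (rz d (q j) < w ∧ w < rz d (q i)) := by
      intro q hq hs i j hij
      obtain ⟨f, h⟩ := hs i j hij
      have e : ∀ i, (rF F (q i) f) = ty d (rz d (q i)) f.1 := by
        intro i
        rw [ty_rz d (hq i)]
        rfl
      beta_reduce at h
      rw [e i, e j] at h
      exact ⟨f.1.2.1, f.1.2.2, h⟩
    have hcst : ∀ q : Fin p → Sh d, (∀ i, q i ∈ Set.range (ty d)) →
        SepR (fun i => rF F (q i)) →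
        datum d.c ⊥ ⊤ k (fun i => rz d (q i)) =
          datum (colL d) (botL d) (topL d) k (fun i => psi d (q i)) :=
      fun q hq hs => datum_cst k (fun i => rz d (q i)) (hsepW q hq hs)
    have C1 : ∀ᶠ n in (U : Filter ℕ), ∀ (x : Fin p → A n) (q : Fin p → Sh d),
        (∀ i, q i ∈ Set.range (ty d)) → (∀ i, rF F (pin' cA rp n (x i)) = rF F (q i)) →
        SepR (fun i => rF F (q i)) → (φ.Realize x ↔ q ∈ Eφ) := by
      filter_upwards [datum_eq_ev H (k := k) (P := P) p hbP htP] with n hn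
      intro x q hq hxq hs
      have e : ∀ i, ty d (rz d (q i)) = q i := fun i => ty_rz d (hq i)
      have h1 := hn x (fun i => rz d (q i)) (fun i => by rw [e i]; exact hxq i)
        (by simp only [e]; exact hs)
      rw [hcst q hq hs] at h1
      exact hk (A n) (Lc d) (cA n) (colL d) (hA n) hcL ⊥ ⊤ (botL d) (topL d)
        (fun _ => bot_le) (fun _ => le_top) botL_le le_topL x _ h1
    have C2 : ∀ (q q' : Fin p → Sh d), (∀ i, q i ∈ Set.range (ty d)) →
        (∀ i, q' i ∈ Set.range (ty d)) → (∀ i, rF F (q i) = rF F (q' i)) →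
        SepR (fun i => rF F (q' i)) → (q ∈ Eφ ↔ q' ∈ Eφ) := by
      intro q q' hq hq' hqq hs
      have e : ∀ i, ty d (rz d (q i)) = q i := fun i => ty_rz d (hq i)
      have e' : ∀ i, ty d (rz d (q' i)) = q' i := fun i => ty_rz d (hq' i)
      have h1 := datum_eq_W (k := k) (P := P) (fun i => rz d (q i)) (fun i => rz d (q' i)) hbP htP
        (fun i => by rw [e i, e' i]; exact hqq i) (by simp only [e']; exact hs)
      rw [hcst q hq (by simp only [hqq]; exact hs), hcst q' hq' hs] at h1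
      exact hk (Lc d) (Lc d) (colL d) (colL d) hcL hcL (botL d) (topL d) (botL d) (topL d)
        botL_le le_topL botL_le le_topL _ _ h1
    -- limits
    have lima := tendsto_tuple hμ F Γφ
    have limb := tendsto_tuple hμ F Γs
    set a := (Measure.pi (fun _ : Fin p => μ)).real {q | (fun i => rF F (q i)) ∈ Γφ} with ha
    set b := (Measure.pi (fun _ : Fin p => μ)).real {q | (fun i => rF F (q i)) ∈ Γs} with hb
    have hpos : ∀ n, (0 : ℝ) < (Nat.card (A n) : ℝ) ^ p := by
      intro n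
      have : 0 < Nat.card (A n) := Nat.card_pos
      positivity
    -- lower bound for `ℓ`
    have hl1 : a ≤ ℓ := by
      refine le_of_tendsto_of_tendsto lima hℓ ?_
      filter_upwards [C1] with n hn
      refine div_le_div_of_nonneg_right ?_ (hpos n).le
      norm_cast
      refine Nat.card_le_card_of_injective (fun x => ⟨x.1, ?_⟩) ?_
      · obtain ⟨hs, q, hq, hqx, hφ⟩ := x.2
        refine (hn x.1 q hq (fun i => (hqx i).symm) ?_).2 hφ
        have : (fun i => rF F (q i)) = fun i => rF F (pin' cA rp n (x.1 i)) := funext hqx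
        rw [this]
        exact hs
      · intro x y hxy
        exact Subtype.ext (congrArg (fun z => z.1) hxy)
    -- upper bound for `ℓ`
    have hl2 : ℓ ≤ a + b := by
      refine le_of_tendsto_of_tendsto hℓ (lima.add limb) ?_
      filter_upwards [C1, real_ev H F] with n hn hre
      change (Nat.card {v : Fin p → A n // φ.Realize v} : ℝ) / (Nat.card (A n) : ℝ) ^ p ≤
        (Nat.card {x : Fin p → A n // (fun i => rF F (pin' cA rp n (x i))) ∈ Γφ} : ℝ) /
          (Nat.card (A n) : ℝ) ^ p +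
        (Nat.card {x : Fin p → A n // (fun i => rF F (pin' cA rp n (x i))) ∈ Γs} : ℝ) /
          (Nat.card (A n) : ℝ) ^ p
      rw [← add_div]
      refine div_le_div_of_nonneg_right ?_ (hpos n).le
      norm_cast
      rw [← Nat.card_sum]
      have hcase : ∀ v : {v : Fin p → A n // φ.Realize v},
          (fun i => rF F (pin' cA rp n (v.1 i))) ∉ Γs →
          (fun i => rF F (pin' cA rp n (v.1 i))) ∈ Γφ := by
        intro v hv
        have hs : SepR (fun i => rF F (pin' cA rp n (v.1 i))) := not_not.1 hv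
        choose x hx using fun i => hre (v.1 i)
        have hxx : (fun i => rF F (ty d (x i))) = fun i => rF F (pin' cA rp n (v.1 i)) := funext hx
        refine ⟨hs, fun i => ty d (x i), fun i => ⟨_, rfl⟩, hx, ?_⟩
        refine (hn v.1 (fun i => ty d (x i)) (fun i => ⟨_, rfl⟩) (fun i => (hx i).symm) ?_).1 v.2
        rw [hxx]
        exact hs
      refine Nat.card_le_card_of_injective (fun v =>
        if h : (fun i => rF F (pin' cA rp n (v.1 i))) ∈ Γs then Sum.inr ⟨v.1, h⟩
        else Sum.inl ⟨v.1, hcase v h⟩) ?_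
      intro v w hvw
      simp only at hvw
      apply Subtype.ext
      split_ifs at hvw
      · simpa using hvw
      · simpa using hvw
    -- bounds for the measure
    have hsub1 : {q : Fin p → Sh d | (fun i => rF F (q i)) ∈ Γφ} ⊆
        Eφ ∪ {q | ∃ i, q i ∉ Set.range (ty d)} := by
      intro q hq
      by_cases hr : ∃ i, q i ∉ Set.range (ty d)
      · exact Or.inr hr
      · left
        push Not at hr
        obtain ⟨hs, q', hq', hqq, hφ⟩ := hq
        refine (C2 q' q hq' hr hqq hs).1 hφ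
    have hsub2 : Eφ ⊆ ({q : Fin p → Sh d | (fun i => rF F (q i)) ∈ Γφ} ∪
        {q : Fin p → Sh d | (fun i => rF F (q i)) ∈ Γs}) ∪ {q | ∃ i, q i ∉ Set.range (ty d)} := by
      intro q hq
      by_cases hr : ∃ i, q i ∉ Set.range (ty d)
      · exact Or.inr hr
      · left
        push Not at hr
        by_cases hs : SepR (fun i => rF F (q i))
        · exact Or.inl ⟨hs, q, hr, fun i => rfl, hq⟩
        · exact Or.inr hs
    have hm0 : (Measure.pi (fun _ : Fin p => μ)).real {q | ∃ i, q i ∉ Set.range (ty d)} = 0 := by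
      rw [measureReal_def, hnull]
      rfl
    have hm1 : a ≤ (Measure.pi (fun _ : Fin p => μ)).real Eφ := by
      calc a ≤ (Measure.pi (fun _ : Fin p => μ)).real
            (Eφ ∪ {q | ∃ i, q i ∉ Set.range (ty d)}) := measureReal_mono hsub1
        _ ≤ (Measure.pi (fun _ : Fin p => μ)).real Eφ +
            (Measure.pi (fun _ : Fin p => μ)).real {q | ∃ i, q i ∉ Set.range (ty d)} :=
          measureReal_union_le _ _
        _ = _ := by rw [hm0, add_zero]
    have hm2 : (Measure.pi (fun _ : Fin p => μ)).real Eφ ≤ a + b := by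
      calc (Measure.pi (fun _ : Fin p => μ)).real Eφ ≤ (Measure.pi (fun _ : Fin p => μ)).real
            (({q : Fin p → Sh d | (fun i => rF F (q i)) ∈ Γφ} ∪
            {q : Fin p → Sh d | (fun i => rF F (q i)) ∈ Γs}) ∪
            {q | ∃ i, q i ∉ Set.range (ty d)}) := measureReal_mono hsub2
        _ ≤ (Measure.pi (fun _ : Fin p => μ)).real
            ({q : Fin p → Sh d | (fun i => rF F (q i)) ∈ Γφ} ∪
            {q : Fin p → Sh d | (fun i => rF F (q i)) ∈ Γs}) +
            (Measure.pi (fun _ : Fin p => μ)).real {q | ∃ i, q i ∉ Set.range (ty d)} :=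
          measureReal_union_le _ _
        _ ≤ a + b + 0 := by
          rw [hm0]
          exact add_le_add (measureReal_union_le _ _) le_rfl
        _ = a + b := add_zero _
    -- bound for `b`
    have hbb : b ≤ 5 * (p : ℝ) ^ 2 / m := by
      refine le_of_tendsto limb ?_
      filter_upwards [hP', hN m] with n hn hNm
      refine le_trans ?_ (bound_arith p (Nat.card (A n)) m hm hNm)
      refine div_le_div_of_nonneg_right ?_ (hpos n).le
      norm_cast
      refine le_trans ?_ (card_near (rk n) (hrk n) (p := p) (Nat.card (A n) / m + 1))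
      refine Nat.card_le_card_of_injective (fun x => ⟨x.1, ?_⟩) ?_
      · have hx : ¬ SepR (fun i => rF F (pin' cA rp n (x.1 i))) := x.2
        unfold SepR at hx
        push Not at hx
        obtain ⟨i, j, hij, hf⟩ := hx
        refine ⟨i, j, hij, ?_, ?_⟩
        · by_contra hlt'
          rw [not_le] at hlt'
          obtain ⟨w, hw, h1, h2⟩ := hn _ _ hlt'
          exact (hf ⟨(k, w), mem_Fk (hPP w hw)⟩).2 h1 h2
        · by_contra hlt'
          rw [not_le] at hlt'
          obtain ⟨w, hw, h1, h2⟩ := hn _ _ hlt'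
          exact (hf ⟨(k, w), mem_Fk (hPP w hw)⟩).1 h1 h2
      · intro x y hxy
        exact Subtype.ext (congrArg (fun z => z.1) hxy)
    rw [abs_le]
    constructor <;> linarith
  -- conclusion
  have hz : |ℓ - (Measure.pi (fun _ : Fin p => μ)).real Eφ| ≤ 0 := by
    refine le_of_tendsto_of_tendsto (f := fun _ : ℕ => |ℓ - (Measure.pi (fun _ : Fin p => μ)).real Eφ|)
      (g := fun m : ℕ => 5 * (p : ℝ) ^ 2 / m) (b := atTop) tendsto_const_nhds
      (tendsto_const_div_atTop_nhds_zero_nat _) ?_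
    filter_upwards [eventually_ge_atTop 1] with m hm
    exact key m hm
  have := abs_nonpos_iff.1 hz
  linarith

end

end Pool.Agent.MP44611a
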