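import Mathlib

set_option autoImplicit false

namespace Pool.Agent.MP44611a

open MeasureTheory

open Classical in
theorem card_comp {A R : Type} [Finite A] [Finite R] {p : ℕ} (h : A → R) (Γ : Set (Fin p → R)) :
    Nat.card {x : Fin p → A // (fun i => h (x i)) ∈ Γ} =
      ∑ ρ ∈ (Set.toFinite Γ).toFinset, ∏ i, Nat.card {a // h a = ρ i} := by
  have : Fintype R := Fintype.ofFinite R
  have : Fintype Γ := Fintype.ofFinite Γ
  have e : {x : Fin p → A // (fun i => h (x i)) ∈ Γ} ≃
      Σ ρ : Γ, {x : Fin p → A // (fun i => h (x i)) = ρ.1} :=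
    { toFun := fun x => ⟨⟨_, x.2⟩, ⟨x.1, rfl⟩⟩
      invFun := fun y => ⟨y.2.1, by
        rw [y.2.2]
        exact y.1.2⟩
      left_inv := fun x => rfl
      right_inv := fun y => Sigma.subtype_ext (Subtype.ext y.2.2) rfl }
  have e2 : ∀ ρ : Fin p → R, Nat.card {x : Fin p → A // (fun i => h (x i)) = ρ} =
      ∏ i, Nat.card {a // h a = ρ i} := by
    intro ρ
    rw [← Nat.card_pi]
    refine Nat.card_congr
      { toFun := fun x i => ⟨x.1 i, congrFun x.2 i⟩
        invFun := fun y => ⟨fun i => (y i).1, funext fun i => (y i).2⟩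
        left_inv := fun x => rfl
        right_inv := fun y => rfl }
  rw [Nat.card_congr e, Nat.card_sigma]
  simp_rw [e2]
  exact (Finset.sum_subtype (Set.toFinite Γ).toFinset (fun x => Set.Finite.mem_toFinset _)
    (fun ρ => ∏ i, Nat.card {a // h a = ρ i})).symm

open Classical in
theorem pi_real_comp {S R : Type} [MeasurableSpace S] (μ : Measure S) [IsProbabilityMeasure μ]
    [Finite R] [MeasurableSpace R] [MeasurableSingletonClass R] {p : ℕ} {r : S → R}
    (hr : Measurable r) (Γ : Set (Fin p → R)) :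
    (Measure.pi (fun _ : Fin p => μ)).real {q | (fun i => r (q i)) ∈ Γ} =
      ∑ ρ ∈ (Set.toFinite Γ).toFinset, ∏ i, μ.real {q | r q = ρ i} := by
  have e : {q : Fin p → S | (fun i => r (q i)) ∈ Γ} =
      ⋃ ρ ∈ (Set.toFinite Γ).toFinset, Set.univ.pi (fun i => {q | r q = ρ i}) := by
    ext q
    simp only [Set.mem_iUnion, Set.mem_pi, Set.mem_univ, true_implies, Set.Finite.mem_toFinset]
    constructor
    · intro h
      exact ⟨_, h, fun i => rfl⟩
    · rintro ⟨ρ, h1, h2⟩
      have : (fun i => r (q i)) = ρ := funext h2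
      change (fun i => r (q i)) ∈ Γ
      rw [this]
      exact h1
  rw [e, measureReal_biUnion_finset]
  · refine Finset.sum_congr rfl fun ρ _ => ?_
    unfold Measure.real
    rw [Measure.pi_pi, ENNReal.toReal_prod]
  · intro ρ _ ρ' _ hne
    refine Set.disjoint_left.2 fun q h1 h2 => hne ?_
    funext i
    exact (h1 i trivial).symm.trans (h2 i trivial)
  · intro ρ _
    exact MeasurableSet.univ_pi fun i => hr (measurableSet_singleton (ρ i))

theorem card_near_pair {B : Type} [Finite B] (r : B → ℕ) (hr : Function.Injective r) {p : ℕ}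
    (t : ℕ) {i j : Fin p} (hij : i ≠ j) :
    Nat.card {x : Fin p → B // r (x i) ≤ r (x j) + t ∧ r (x j) ≤ r (x i) + t} ≤
      Nat.card B ^ (p - 1) * (2 * t + 1) := by
  classical
  let Φ : {x : Fin p → B // r (x i) ≤ r (x j) + t ∧ r (x j) ≤ r (x i) + t} →
      ({l : Fin p // l ≠ j} → B) × Fin (2 * t + 1) := fun x =>
    (fun l => x.1 l.1, ⟨r (x.1 j) + t - r (x.1 i), by have := x.2.1; have := x.2.2; omega⟩)
  have hΦ : Function.Injective Φ := by
    intro x y hxy
    simp only [Φ, Prod.mk.injEq, Fin.mk.injEq] at hxy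
    obtain ⟨h1, h2⟩ := hxy
    have h3 : ∀ l, l ≠ j → x.1 l = y.1 l := fun l hl => congrFun h1 ⟨l, hl⟩
    have h4 := h3 i hij
    have h5 : x.1 j = y.1 j := by
      apply hr
      have a1 := x.2.1
      have a2 := y.2.1
      rw [h4] at h2 a1
      omega
    apply Subtype.ext
    funext l
    by_cases hl : l = j
    · rw [hl, h5]
    · exact h3 l hl
  have h := Nat.card_le_card_of_injective Φ hΦ
  refine h.trans (le_of_eq ?_)
  rw [Nat.card_prod, Nat.card_fun, Nat.card_eq_fintype_card (α := Fin (2 * t + 1)),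
    Fintype.card_fin]
  congr 2
  rw [Nat.card_eq_fintype_card, Fintype.card_subtype_compl, Fintype.card_fin]
  simp

theorem card_near {B : Type} [Finite B] (r : B → ℕ) (hr : Function.Injective r) {p : ℕ}
    (t : ℕ) :
    Nat.card {x : Fin p → B // ∃ i j, i ≠ j ∧ r (x i) ≤ r (x j) + t ∧ r (x j) ≤ r (x i) + t} ≤
      p * p * (Nat.card B ^ (p - 1) * (2 * t + 1)) := by
  classical
  let Φ : {x : Fin p → B // ∃ i j, i ≠ j ∧ r (x i) ≤ r (x j) + t ∧ r (x j) ≤ r (x i) + t} →
      Σ ij : {ij : Fin p × Fin p // ij.1 ≠ ij.2},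
        {x : Fin p → B // r (x ij.1.1) ≤ r (x ij.1.2) + t ∧ r (x ij.1.2) ≤ r (x ij.1.1) + t} :=
    fun x => ⟨⟨(x.2.choose, x.2.choose_spec.choose), x.2.choose_spec.choose_spec.1⟩,
      ⟨x.1, x.2.choose_spec.choose_spec.2⟩⟩
  have hΦ : Function.Injective Φ := by
    intro x y hxy
    apply Subtype.ext
    have : (Φ x).2.1 = (Φ y).2.1 := by rw [hxy]
    exact this
  refine (Nat.card_le_card_of_injective Φ hΦ).trans ?_
  rw [Nat.card_sigma]
  refine (Finset.sum_le_card_nsmul _ _ (Nat.card B ^ (p - 1) * (2 * t + 1))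
    (fun ij _ => card_near_pair r hr t ij.2)).trans ?_
  rw [smul_eq_mul]
  refine Nat.mul_le_mul_right _ ?_
  rw [Finset.card_univ]
  refine (Fintype.card_subtype_le _).trans ?_
  simp

end Pool.Agent.MP44611a
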