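import Pool.Agent.Work.MP_44611a_h50.Types2

set_option autoImplicit false
set_option linter.unusedSectionVars false
set_option linter.unusedVariables false

namespace Pool.Agent.MP44611a

variable {W : Type} [LinearOrder W] [BoundedOrder W] (c : W → Prop)

/-- Data describing the position of `m` with respect to `P` and `x`. -/
def dt {W0 : Set W} (k : ℕ) (P : Finset W0) (x m : W) :
    Prop × (P → Prop × Prop × T k × T k) × (Prop × Prop × T k × T k) :=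
  (c m, fun p => (p.1.1 < m, m < p.1.1, tp c k p.1.1 m, tp c k m p.1.1),
    (x < m, m < x, tp c k x m, tp c k m x))

/-- Indices of definable functions. -/
def Idx (W0 : Set W) : Type :=
  Σ k : ℕ, Σ P : Finset W0, Prop × (P → Prop × Prop × T k × T k) × (Prop × Prop × T k × T k)

instance instCountableIdx (W0 : Set W) [Countable W0] : Countable (Idx W0) := by
  unfold Idx
  infer_instance

instance instNonemptyIdx (W0 : Set W) : Nonempty (Idx W0) :=
  ⟨⟨0, ∅, True, fun p => (True, True, emp 0, emp 0), (True, True, emp 0, emp 0)⟩⟩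

open Classical in
/-- The definable function with a given index. -/
noncomputable def fn {W0 : Set W} (i : Idx W0) (x : W) : W :=
  if h : ∃ m, dt c i.1 i.2.1 x m = i.2.2 ∧ ∀ m', dt c i.1 i.2.1 x m' = i.2.2 → m' = m then
    h.choose else x

variable {c}

theorem dt_eq_of_Q {W0 : Set W} {k K : ℕ} (hk : k ≤ K) {P : Finset W0} {Γ : Set (W × W)}
    (hΓ : Q c c K Γ) (hP : ∀ p ∈ P, ((p : W), (p : W)) ∈ Γ) {x x' m m' : W}
    (hx : (x, x') ∈ Γ) (hm : (m, m') ∈ Γ) : dt c k P x m = dt c k P x' m' := by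
  have h := hΓ.mono_rank hk
  unfold dt
  refine Prod.ext (h _ hm _ hm).2.2 (Prod.ext ?_ ?_)
  · funext p
    have h1 := h _ (hP p.1 p.2) _ hm
    have h2 := h _ hm _ (hP p.1 p.2)
    exact Prod.ext (propext h1.1) (Prod.ext (propext h2.1) (Prod.ext h1.2.1 h2.2.1))
  · have h1 := h _ hx _ hm
    have h2 := h _ hm _ hx
    exact Prod.ext (propext h1.1) (Prod.ext (propext h2.1) (Prod.ext h1.2.1 h2.2.1))

theorem QP_of_dt_eq {W0 : Set W} {k : ℕ} {P : Finset W0} {x m m' : W} {P' : Set W}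
    (h : dt c k P x m = dt c k P x m') (hP' : P' ⊆ insert x ((fun p : W0 => (p : W)) '' P)) :
    QP c k P' m m' := by
  rw [QP_iff]
  unfold dt at h
  simp only [Prod.mk.injEq] at h
  obtain ⟨h1, h2, h3, h4, h5, h6⟩ := h
  refine ⟨h1, fun p hp => ?_⟩
  rcases hP' hp with rfl | ⟨q, hq, rfl⟩
  · exact ⟨iff_of_eq h3, iff_of_eq h4, h5, h6⟩
  · have := congrFun h2 ⟨q, hq⟩
    simp only [Prod.mk.injEq] at this
    exact ⟨iff_of_eq this.1, iff_of_eq this.2.1, this.2.2.1, this.2.2.2⟩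

theorem fn_spec {W0 : Set W} (i : Idx W0) (x : W) {m : W}
    (h1 : dt c i.1 i.2.1 x m = i.2.2) (h2 : ∀ m', dt c i.1 i.2.1 x m' = i.2.2 → m' = m) :
    fn c i x = m := by
  unfold fn
  have h : ∃ m, dt c i.1 i.2.1 x m = i.2.2 ∧ ∀ m', dt c i.1 i.2.1 x m' = i.2.2 → m' = m :=
    ⟨m, h1, h2⟩
  rw [dif_pos h]
  exact h2 _ h.choose_spec.1

theorem fn_mem {W0 : Set W} (h0 : Cl c W0) (i : Idx W0) (x : W) : fn c i x ∈ MM c W0 x := by
  by_cases h : ∃ m, dt c i.1 i.2.1 x m = i.2.2 ∧ ∀ m', dt c i.1 i.2.1 x m' = i.2.2 → m' = m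
  · obtain ⟨m, h1, h2⟩ := h
    rw [fn_spec i x h1 h2]
    refine ⟨insert x ((fun p : W0 => (p : W)) '' i.2.1), ?_,
      ((Finset.finite_toSet _).image _).insert _, i.1, ?_⟩
    · rintro p (rfl | ⟨p, hp, rfl⟩)
      · exact Set.mem_insert _ _
      · exact Set.mem_insert_of_mem _ p.2
    · intro m' hm'
      apply h2
      rw [← h1]
      refine (dt_eq_of_Q le_rfl (Γ := insert (m, m')
        (dg (insert x ((fun p : W0 => (p : W)) '' i.2.1)))) hm' ?_ ?_ (Set.mem_insert _ _)).symm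
      · intro p hp
        exact Set.mem_insert_of_mem _ (mem_dg (Set.mem_insert_of_mem _ ⟨p, hp, rfl⟩))
      · exact Set.mem_insert_of_mem _ (mem_dg (Set.mem_insert _ _))
  · unfold fn
    rw [dif_neg h]
    exact self_mem_MM h0 x

theorem fn_surj {W0 : Set W} (x : W) {m : W} (hm : m ∈ MM c W0 x) : ∃ i : Idx W0, fn c i x = m := by
  classical
  obtain ⟨P, hP, hPf, k, hk⟩ := hm
  have hfin : ((fun p : W0 => (p : W)) ⁻¹' (P \ {x})).Finite :=
    (hPf.subset Set.sdiff_subset).preimage Subtype.val_injective.injOn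
  refine ⟨⟨k, hfin.toFinset, dt c k hfin.toFinset x m⟩, fn_spec _ _ rfl ?_⟩
  intro m' hm'
  apply hk
  refine QP_of_dt_eq hm'.symm ?_
  intro p hp
  by_cases hpx : p = x
  · exact Or.inl hpx
  · right
    have hpW : p ∈ W0 := (hP hp).resolve_left hpx
    exact ⟨⟨p, hpW⟩, by simp [hp, hpx], rfl⟩

/-- Transfer of uniqueness. -/
theorem unique_transfer {W0 : Set W} {K k : ℕ} (hk : k ≤ K) {P : Finset W0} {Γ : Set (W × W)}
    (hf : Γ.Finite) (hb : ((⊥ : W), (⊥ : W)) ∈ Γ) (ht : ((⊤ : W), (⊤ : W)) ∈ Γ)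
    (hΓ : Q c c (K + 2) Γ) (hP : ∀ p ∈ P, ((p : W), (p : W)) ∈ Γ) {x x' : W}
    (hx : (x, x') ∈ Γ) {δ : Prop × (P → Prop × Prop × T k × T k) × (Prop × Prop × T k × T k)}
    {m : W} (h1 : dt c k P x m = δ) (h2 : ∀ m', dt c k P x m' = δ → m' = m) :
    ∃ m', Q c c (K + 1) (insert (m, m') Γ) ∧ dt c k P x' m' = δ ∧
      ∀ m'', dt c k P x' m'' = δ → m'' = m' := by
  obtain ⟨m', hm'⟩ := forthW hf hb ht hΓ m
  have hP' : ∀ p ∈ P, ((p : W), (p : W)) ∈ insert (m, m') Γ :=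
    fun p hp => Set.mem_insert_of_mem _ (hP p hp)
  refine ⟨m', hm', ?_, ?_⟩
  · rw [← h1]
    exact (dt_eq_of_Q (by omega) hm' hP' (Set.mem_insert_of_mem _ hx) (Set.mem_insert _ _)).symm
  · intro m'' hm''
    obtain ⟨m3, hm3⟩ := backW (hf.insert _) (Set.mem_insert_of_mem _ hb)
      (Set.mem_insert_of_mem _ ht) hm' m''
    have e : dt c k P x m3 = δ := by
      rw [← hm'']
      exact dt_eq_of_Q hk hm3 (fun p hp => Set.mem_insert_of_mem _ (hP' p hp))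
        (Set.mem_insert_of_mem _ (Set.mem_insert_of_mem _ hx)) (Set.mem_insert _ _)
    have e2 := h2 m3 e
    exact (hm3.eq_iff (Set.mem_insert _ _) (Set.mem_insert_of_mem _ (Set.mem_insert _ _))).1 e2

theorem fn_good {W0 : Set W} (h0 : Cl c W0) (i : Idx W0) :
    ∃ P0 ⊆ W0, P0.Finite ∧ ∀ l, ∃ l', ∀ Γ : Set (W × W), Γ.Finite → dg P0 ⊆ Γ →
      ∀ x x', (x, x') ∈ Γ → Q c c l' Γ → Q c c l (insert (fn c i x, fn c i x') Γ) := by
  refine ⟨insert ⊥ (insert ⊤ ((fun p : W0 => (p : W)) '' i.2.1)), ?_,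
    (((Finset.finite_toSet _).image _).insert _).insert _, fun l => ⟨max l i.1 + 2, ?_⟩⟩
  · rintro p (rfl | rfl | ⟨p, hp, rfl⟩)
    · exact h0.bot
    · exact h0.top
    · exact p.2
  intro Γ hf hdg x x' hx hΓ
  have hb : ((⊥ : W), (⊥ : W)) ∈ Γ := hdg (mem_dg (by simp))
  have ht : ((⊤ : W), (⊤ : W)) ∈ Γ := hdg (mem_dg (by simp))
  have hP : ∀ p ∈ i.2.1, ((p : W), (p : W)) ∈ Γ := fun p hp =>
    hdg (mem_dg (Set.mem_insert_of_mem _ (Set.mem_insert_of_mem _ ⟨p, hp, rfl⟩)))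
  by_cases h : ∃ m, dt c i.1 i.2.1 x m = i.2.2 ∧ ∀ m', dt c i.1 i.2.1 x m' = i.2.2 → m' = m
  · obtain ⟨m, h1, h2⟩ := h
    obtain ⟨m', h3, h4, h5⟩ := unique_transfer (le_max_right l i.1) hf hb ht hΓ hP hx h1 h2
    rw [fn_spec i x h1 h2, fn_spec i x' h4 h5]
    exact h3.mono_rank ((le_max_left _ _).trans (Nat.le_succ _))
  · have h' : ¬ ∃ m, dt c i.1 i.2.1 x' m = i.2.2 ∧ ∀ m', dt c i.1 i.2.1 x' m' = i.2.2 → m' = m := by
      rintro ⟨m, h1, h2⟩
      obtain ⟨m', h3, h4, h5⟩ := unique_transfer (Γ := Prod.swap ⁻¹' Γ) (le_max_right l i.1)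
        (hf.preimage Prod.swap_injective.injOn) hb ht hΓ.swap hP
        (show (x', x) ∈ Prod.swap ⁻¹' Γ from hx) h1 h2
      exact h ⟨m', h4, h5⟩
    unfold fn
    rw [dif_neg h, dif_neg h']
    rw [Set.insert_eq_of_mem hx]
    exact hΓ.mono_rank (show l ≤ max l i.1 + 2 by omega)

/-- An enumeration of definable functions. -/
structure FEnum (c : W → Prop) (W0 : Set W) (f : ℕ → W → W) : Prop where
  mem : ∀ n x, f n x ∈ MM c W0 x
  surj : ∀ x, ∀ m ∈ MM c W0 x, ∃ n, f n x = m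
  good : ∀ n, ∃ P0 ⊆ W0, P0.Finite ∧ ∀ l, ∃ l', ∀ Γ : Set (W × W), Γ.Finite → dg P0 ⊆ Γ →
      ∀ x x', (x, x') ∈ Γ → Q c c l' Γ → Q c c l (insert (f n x, f n x') Γ)

theorem exists_FEnum {W0 : Set W} (h0 : Cl c W0) (hc : W0.Countable) :
    ∃ f : ℕ → W → W, FEnum c W0 f := by
  have : Countable W0 := hc
  obtain ⟨e, he⟩ := exists_surjective_nat (Idx W0)
  refine ⟨fun n => fn c (e n), fun n x => fn_mem h0 _ x, fun x m hm => ?_, fun n => fn_good h0 _⟩
  obtain ⟨i, hi⟩ := fn_surj x hm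
  obtain ⟨n, rfl⟩ := he i
  exact ⟨n, hi⟩

end Pool.Agent.MP44611a
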