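import Pool.Agent.Work.MP_44611a_h50.Conv

set_option autoImplicit false
set_option linter.unusedSectionVars false
set_option linter.unusedVariables false

namespace Pool.Agent.MP44611a

open MeasureTheory Filter Topology FirstOrder FirstOrder.Language

section rank

variable (B : Type) [LinearOrder B] [BoundedOrder B] [Finite B]

/-- The order isomorphism with an initial segment. -/
noncomputable def eIso : Fin (Nat.card B) ≃o B :=
  letI := Fintype.ofFinite B
  Fintype.orderIsoFinOfCardEq B (Nat.card_eq_fintype_card).symm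

variable {B}

/-- The rank of an element. -/
noncomputable def rnk (b : B) : ℕ := ((eIso B).symm b).val

theorem rnk_injective : Function.Injective (rnk (B := B)) := fun a b h =>
  (eIso B).symm.injective (Fin.ext h)

theorem rnk_lt (b : B) : rnk b < Nat.card B := ((eIso B).symm b).isLt

theorem rnk_lt_iff {a b : B} : rnk a < rnk b ↔ a < b := by
  unfold rnk
  rw [← Fin.lt_def, OrderIso.lt_iff_lt]

variable (B)

/-- The element of a given rank. -/
noncomputable def atr (v : ℕ) : B := if h : v < Nat.card B then eIso B ⟨v, h⟩ else ⊥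

variable {B}

theorem rnk_atr {v : ℕ} (h : v < Nat.card B) : rnk (atr B v) = v := by
  unfold rnk atr
  rw [dif_pos h]
  simp

variable (B)

/-- Quantiles. -/
noncomputable def quant (m j : ℕ) : B := atr B (min (j * (Nat.card B / m + 1)) (Nat.card B - 1))

variable {B}

theorem sep_of_far {m : ℕ} (hm : 1 ≤ m) {a b : B} (h : rnk a + (Nat.card B / m + 1) < rnk b) :
    ∃ j ∈ Finset.range (m + 1), a < quant B m j ∧ quant B m j < b := by
  set N := Nat.card B with hN
  set t := N / m + 1 with ht
  have hb := rnk_lt b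
  rw [← hN] at hb
  have ht0 : 0 < t := by rw [ht]; exact Nat.succ_pos _
  set j := rnk a / t + 1 with hj
  have h1 : rnk a < j * t := by
    rw [hj, Nat.add_mul, one_mul]
    have := Nat.div_add_mod (rnk a) t
    have := Nat.mod_lt (rnk a) ht0
    nlinarith
  have h2 : j * t ≤ rnk a + t := by
    rw [hj, Nat.add_mul, one_mul]
    have := Nat.div_mul_le_self (rnk a) t
    omega
  have h3 : j * t ≤ N - 1 := by omega
  have hmin : min (j * t) (N - 1) = j * t := min_eq_left h3
  have hq : rnk (quant B m j) = j * t := by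
    unfold quant
    rw [← hN, ← ht, hmin, rnk_atr]
    omega
  refine ⟨j, ?_, ?_, ?_⟩
  · rw [Finset.mem_range]
    by_contra hjm
    have h4 : (m + 1) * t ≤ j * t := Nat.mul_le_mul_right _ (not_lt.1 hjm)
    have h5 : N < m * t := by
      rw [ht, Nat.mul_add, mul_one]
      have := Nat.div_add_mod N m
      have := Nat.mod_lt N (show 0 < m by omega)
      omega
    nlinarith
  · rw [← rnk_lt_iff, hq]
    exact h1
  · rw [← rnk_lt_iff, hq]
    omega

end rank

section

variable (U : Ultrafilter ℕ) (A : ℕ → Type) [∀ n, LinearOrder (A n)]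
    [∀ n, BoundedOrder (A n)] [∀ n, Finite (A n)] (cA : ∀ n, A n → Prop)

/-- The generators of the countable substructure. -/
def X0 : Set (UP U A) :=
  insert ⊥ (insert ⊤ (Set.range (fun mj : ℕ × ℕ => UP.mk U (fun n => quant (A n) mj.1 mj.2))))

variable {L : FirstOrder.Language.{0, 0}} (lt : L.Relations 2) (col : L.Relations 1)
    (hF : ∀ n, IsEmpty (L.Functions n)) (hlt : ∀ r : L.Relations 2, r = lt)
    (hcol : ∀ r : L.Relations 1, r = col) (hR : ∀ n, n ≠ 1 → n ≠ 2 → IsEmpty (L.Relations n))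

include hF hlt hcol hR in
theorem infinite_case (hU : ∀ i : ℕ, ∀ᶠ n in (U : Filter ℕ), i ≤ n)
    (hN : ∀ B : ℕ, ∀ᶠ n in (U : Filter ℕ), B ≤ Nat.card (A n))
    [∀ n, L.Structure (A n)] (hA : ∀ n, Compat lt col (A n) (cA n)) :
    ∃ (M : Type) (_ : MeasurableSpace M) (_ : StandardBorelSpace M) (_ : L.Structure M)
      (μ : Measure M) (_ : IsProbabilityMeasure μ),
      (∀ (p : ℕ) (φ : L.Formula (Fin p)), MeasurableSet {v : Fin p → M | φ.Realize v}) ∧
      ∀ (p : ℕ) (φ : L.Formula (Fin p)) (ℓ : ℝ),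
      Tendsto (fun n => (Nat.card {v : Fin p → A n // φ.Realize v} : ℝ) /
        (Nat.card (A n) : ℝ) ^ p) U (𝓝 ℓ) →
      ℓ = (Measure.pi (fun _ : Fin p => μ)).real {v : Fin p → M | φ.Realize v} := by
  classical
  have hbX : (⊥ : UP U A) ∈ X0 U A := Set.mem_insert _ _
  have htX : (⊤ : UP U A) ∈ X0 U A := Set.mem_insert_of_mem _ (Set.mem_insert _ _)
  have hcX : (X0 U A).Countable := ((Set.countable_range _).insert _).insert _
  have h0 : Cl (UP.col (U := U) cA) (dcl (UP.col cA) (X0 U A)) := cl_dcl hbX htX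
  have hc : (dcl (UP.col (U := U) cA) (X0 U A)).Countable := countable_dcl hcX
  obtain ⟨f, hf⟩ := exists_FEnum h0 hc
  let d : Dat := ⟨UP U A, UP.col cA, dcl (UP.col cA) (X0 U A), f, UP.PF cA hU, h0, hc, hf⟩
  have H : LimDat d U A cA (fun z : UP U A => z.rep) (UP.mk U) := by
    refine ⟨?_, ?_, ?_, ?_, ?_⟩
    · intro x w k
      exact UP.rel_los cA k w _ x rfl
    · intro x
      exact UP.col_los cA x
    · intro w
      exact UP.mk_rep w
    · exact UP.mk_eq.1 (UP.mk_rep (⊥ : UP U A))
    · exact UP.mk_eq.1 (UP.mk_rep (⊤ : UP U A))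
  have hq : ∀ m, 1 ≤ m → ∃ P : Finset d.W0, ∀ᶠ n in (U : Filter ℕ), ∀ a b : A n,
      rnk a + (Nat.card (A n) / m + 1) < rnk b →
      ∃ w ∈ P, a < (show UP U A from w.1).rep n ∧ (show UP U A from w.1).rep n < b := by
    intro m hm
    have hmem : ∀ j, UP.mk U (fun n => quant (A n) m j) ∈ d.W0 := fun j =>
      subset_dcl _ (Set.mem_insert_of_mem _ (Set.mem_insert_of_mem _ ⟨(m, j), rfl⟩))
    refine ⟨(Finset.range (m+1)).image (fun j => ⟨_, hmem j⟩), ?_⟩
    have h1 : ∀ᶠ n in (U : Filter ℕ), ∀ j ∈ Finset.range (m+1),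
        (UP.mk U (fun n => quant (A n) m j)).rep n = quant (A n) m j := by
      rw [Filter.eventually_all_finset]
      intro j _
      exact UP.mk_eq.1 (UP.mk_rep _)
    filter_upwards [h1] with n hn a b hab
    obtain ⟨j, hj, h2, h3⟩ := sep_of_far hm hab
    refine ⟨⟨_, hmem j⟩, Finset.mem_image_of_mem _ hj, ?_, ?_⟩
    · change a < (UP.mk U (fun n => quant (A n) m j)).rep n
      rw [hn j hj]
      exact h2
    · change (UP.mk U (fun n => quant (A n) m j)).rep n < b
      rw [hn j hj]
      exact h3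
  obtain ⟨ν, hν, hconv⟩ := main_conv (d := d) lt col hF hlt hcol hR H hN (fun n => rnk)
    (fun n => rnk_injective) hq hA
  exact ⟨Lc d, inferInstance, inferInstance, strOf hF (Lc d) (colL d), ν, hν,
    fun p φ => measurableSet_realize lt col hF hlt hcol hR φ, hconv⟩

end

end Pool.Agent.MP44611a
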