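import Pool.Agent.Work.MP_44611a_h50.Sep
import Pool.Agent.Work.MP_44611a_h50.Count

set_option autoImplicit false
set_option linter.unusedSectionVars false
set_option linter.unusedVariables false

namespace Pool.Agent.MP44611a

open MeasureTheory Filter Topology

instance instTopologicalSpaceX (k : ℕ) : TopologicalSpace (X k) := ⊥

instance instDiscreteTopologyX (k : ℕ) : DiscreteTopology (X k) := ⟨rfl⟩

variable {d : Dat}

/-- Finite sets of coordinates. -/
def rF (F : Finset (ℕ × d.W0)) (q : Sh d) : ∀ i : F, X i.1.1 := fun i => q i.1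

theorem continuous_rF (F : Finset (ℕ × d.W0)) : Continuous (rF (d := d) F) :=
  continuous_pi fun i => continuous_apply _

theorem measurable_rF (F : Finset (ℕ × d.W0)) : Measurable (rF (d := d) F) :=
  measurable_pi_lambda _ fun i => measurable_pi_apply _

open Classical in
/-- Limits of empirical measures. -/
theorem exists_mu (U : Ultrafilter ℕ) (A : ℕ → Type) [∀ n, Finite (A n)] [∀ n, Nonempty (A n)]
    (g : ∀ n, A n → Sh d) : ∃ μ : Measure (Sh d), IsProbabilityMeasure μ ∧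
      ∀ (F : Finset (ℕ × d.W0)) (H : Set (∀ i : F, X i.1.1)),
        Tendsto (fun n => (Nat.card {a : A n // rF F (g n a) ∈ H} : ℝ) / Nat.card (A n)) U
          (𝓝 (μ.real {q | rF F q ∈ H})) := by
  have : ∀ n, Fintype (A n) := fun n => Fintype.ofFinite _
  have hN : ∀ n, (Nat.card (A n) : ENNReal) ≠ 0 := fun n => by
    simp
  have hN' : ∀ n, (Nat.card (A n) : ENNReal) ≠ ⊤ := fun n => ENNReal.natCast_ne_top _
  let M : ∀ n, Measure (Sh d) := fun n =>
    (Nat.card (A n) : ENNReal)⁻¹ • ∑ a : A n, Measure.dirac (g n a)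
  have hM : ∀ n (S : Set (Sh d)), MeasurableSet S →
      M n S = (Nat.card (A n) : ENNReal)⁻¹ * Nat.card {a : A n // g n a ∈ S} := by
    intro n S hS
    simp only [M, Measure.smul_apply, Measure.finsetSum_apply, smul_eq_mul]
    congr 1
    simp only [Measure.dirac_apply' _ hS, Set.indicator_apply, Pi.one_apply]
    rw [Finset.sum_boole, Nat.card_eq_fintype_card, Fintype.card_subtype]
  have hprob : ∀ n, IsProbabilityMeasure (M n) := by
    intro n
    refine ⟨?_⟩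
    rw [hM n _ MeasurableSet.univ]
    have : Nat.card {a : A n // g n a ∈ Set.univ} = Nat.card (A n) :=
      Nat.card_congr (Equiv.subtypeUnivEquiv fun _ => trivial)
    rw [this]
    exact ENNReal.inv_mul_cancel (hN n) (hN' n)
  let Mp : ℕ → ProbabilityMeasure (Sh d) := fun n => ⟨M n, hprob n⟩
  have hlim : Tendsto Mp U (𝓝 (U.map Mp).lim) := Ultrafilter.le_nhds_lim (U.map Mp)
  refine ⟨((U.map Mp).lim : ProbabilityMeasure (Sh d)), inferInstance, fun F H => ?_⟩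
  have hclopen : IsClopen {q : Sh d | rF F q ∈ H} :=
    (isClopen_discrete H).preimage (continuous_rF F)
  have h := ProbabilityMeasure.tendsto_measure_of_isClopen_of_tendsto hlim hclopen
  have h2 : Tendsto (fun n => ((Mp n {q : Sh d | rF F q ∈ H} : NNReal) : ℝ)) U
      (𝓝 (((U.map Mp).lim {q : Sh d | rF F q ∈ H} : NNReal) : ℝ)) :=
    (NNReal.tendsto_coe).2 h
  have e1 : ∀ n, ((Mp n {q : Sh d | rF F q ∈ H} : NNReal) : ℝ) =
      (Nat.card {a : A n // rF F (g n a) ∈ H} : ℝ) / Nat.card (A n) := by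
    intro n
    have : ((Mp n {q : Sh d | rF F q ∈ H} : NNReal) : ℝ) = (M n {q : Sh d | rF F q ∈ H}).toReal :=
      rfl
    rw [this, hM n _ hclopen.isOpen.measurableSet, ENNReal.toReal_mul, ENNReal.toReal_inv]
    simp only [ENNReal.toReal_natCast]
    rw [div_eq_inv_mul]
    rfl
  simp only [e1] at h2
  exact h2

section limdat

variable (U : Ultrafilter ℕ) (A : ℕ → Type) [∀ n, LinearOrder (A n)] [∀ n, BoundedOrder (A n)]
  [∀ n, Finite (A n)] (cA : ∀ n, A n → Prop) (d)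

/-- The relation between the finite structures and the data. -/
structure LimDat (rp : d.W → ∀ n, A n) (cls : (∀ n, A n) → d.W) : Prop where
  los : ∀ (x : ∀ n, A n) (w : d.W) (k : ℕ), ∀ᶠ n in (U : Filter ℕ),
    (rp w n < x n) = (w < cls x) ∧ (x n < rp w n) = (cls x < w) ∧
      tp (cA n) k (rp w n) (x n) = tp d.c k w (cls x) ∧
      tp (cA n) k (x n) (rp w n) = tp d.c k (cls x) w
  col : ∀ x : ∀ n, A n, ∀ᶠ n in (U : Filter ℕ), cA n (x n) = d.c (cls x)
  cls_rp : ∀ w, cls (rp w) = w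
  bot : ∀ᶠ n in (U : Filter ℕ), rp ⊥ n = ⊥
  top : ∀ᶠ n in (U : Filter ℕ), rp ⊤ n = ⊤

variable {U A cA d} {rp : d.W → ∀ n, A n} {cls : (∀ n, A n) → d.W}
  (H : LimDat d U A cA rp cls)

variable (cA rp) in
/-- The type of a point of a finite structure. -/
def pin' (n : ℕ) (a : A n) : Sh d := fun i =>
  (cA n a, a < rp i.2.1 n, rp i.2.1 n < a, tp (cA n) i.1 a (rp i.2.1 n),
    tp (cA n) i.1 (rp i.2.1 n) a)

include H

theorem pin_los (x : ∀ n, A n) (i : ℕ × d.W0) :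
    ∀ᶠ n in (U : Filter ℕ), pin' cA rp n (x n) i = ty d (cls x) i := by
  filter_upwards [H.los x i.2.1 i.1, H.col x] with n h1 h2
  obtain ⟨a1, a2, a3, a4⟩ := h1
  exact Prod.ext h2 (Prod.ext a2 (Prod.ext a1 (Prod.ext a4 a3)))

theorem real_ev (F : Finset (ℕ × d.W0)) : ∀ᶠ n in (U : Filter ℕ), ∀ a : A n,
    ∃ x : d.W, rF F (ty d x) = rF F (pin' cA rp n a) := by
  have key : ∀ ρ : (∀ i : F, X i.1.1), ∀ᶠ n in (U : Filter ℕ), ∀ a : A n,
      rF F (pin' cA rp n a) = ρ → ∃ x : d.W, rF F (ty d x) = ρ := by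
    intro ρ
    by_cases hρ : ∃ x : d.W, rF F (ty d x) = ρ
    · exact Eventually.of_forall fun n a _ => hρ
    · by_contra hcon
      rw [← Ultrafilter.eventually_not] at hcon
      have hcon' : ∀ᶠ n in (U : Filter ℕ), ∃ a : A n, rF F (pin' cA rp n a) = ρ := by
        filter_upwards [hcon] with n hn
        push Not at hn
        obtain ⟨a, ha, -⟩ := hn
        exact ⟨a, ha⟩
      classical
      let x : ∀ n, A n := fun n => if h : ∃ a : A n, rF F (pin' cA rp n a) = ρ then h.choose else ⊥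
      have hx : ∀ᶠ n in (U : Filter ℕ), rF F (pin' cA rp n (x n)) = ρ := by
        filter_upwards [hcon'] with n hn
        simp only [x]
        rw [dif_pos hn]
        exact hn.choose_spec
      have h2 : ∀ᶠ n in (U : Filter ℕ), ∀ i : F, pin' cA rp n (x n) i.1 = ty d (cls x) i.1 :=
        eventually_all.2 fun i => pin_los H x i.1
      obtain ⟨n, h3, h4⟩ := (hx.and h2).exists
      exact hρ ⟨cls x, by rw [← h3]; funext i; exact (h4 i).symm⟩
  filter_upwards [(eventually_all).2 key] with n hn a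
  exact hn _ a rfl

theorem mu_range [∀ n, Nonempty (A n)] {μ : Measure (Sh d)} [IsProbabilityMeasure μ]
    (hμ : ∀ (F : Finset (ℕ × d.W0)) (S : Set (∀ i : F, X i.1.1)),
        Tendsto (fun n => (Nat.card {a : A n // rF F (pin' cA rp n a) ∈ S} : ℝ) / Nat.card (A n)) U
          (𝓝 (μ.real {q | rF F q ∈ S}))) : μ (Set.range (ty d))ᶜ = 0 := by
  have : (Set.range (ty d))ᶜ = ⋃ F : Finset (ℕ × d.W0),
      {q : Sh d | rF F q ∈ {ρ : ∀ i : F, X i.1.1 | ¬ ∃ x, rF F (ty d x) = ρ}} := by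
    apply Set.eq_of_subset_of_subset
    · intro q hq
      by_contra hcon
      simp only [Set.mem_iUnion, not_exists] at hcon
      apply hq
      have hq' : ∀ F : Finset (ℕ × d.W0), ∃ x, rF F (ty d x) = rF F q := by
        intro F
        have := hcon F
        by_contra h
        exact this (fun x hx => h ⟨x, hx⟩)
      have : Nonempty (ℕ × d.W0) := ⟨(0, ⟨⊥, d.h0.bot⟩)⟩
      obtain ⟨e, he⟩ := exists_surjective_nat (ℕ × d.W0)
      obtain ⟨z, hz⟩ := d.hW.sat (fun n => {z | ty d z (e n) = q (e n)}) (by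
        intro n
        refine ⟨{(e n).2.1}, Set.finite_singleton _, (e n).1, ?_⟩
        intro z z' hzz hz
        change ty d z' (e n) = q (e n)
        rw [← show ty d z (e n) = q (e n) from hz]
        rw [QP_iff] at hzz
        obtain ⟨a1, a2, a3, a4⟩ := hzz.2 _ (Set.mem_singleton _)
        exact (Prod.ext hzz.1 (Prod.ext (propext a2) (Prod.ext (propext a1)
          (Prod.ext a4 a3)))).symm) (by
        classical
        intro n
        obtain ⟨x, hx⟩ := hq' ((Finset.range (n+1)).image e)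
        refine ⟨x, fun i hi => ?_⟩
        exact congrFun hx ⟨e i, Finset.mem_image_of_mem _ (Finset.mem_range.2 (by omega))⟩)
      refine ⟨z, ?_⟩
      funext i
      obtain ⟨n, rfl⟩ := he i
      exact hz n
    · intro q hq
      simp only [Set.mem_iUnion] at hq
      obtain ⟨F, hF⟩ := hq
      rintro ⟨x, rfl⟩
      exact hF ⟨x, rfl⟩
  rw [this, measure_iUnion_null_iff]
  intro F
  have h1 := hμ F {ρ : ∀ i : F, X i.1.1 | ¬ ∃ x, rF F (ty d x) = ρ}
  have h2 : Tendsto (fun n => (Nat.card {a : A n // rF F (pin' cA rp n a) ∈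
      {ρ : ∀ i : F, X i.1.1 | ¬ ∃ x, rF F (ty d x) = ρ}} : ℝ) / Nat.card (A n)) U (𝓝 0) := by
    refine tendsto_const_nhds.congr' ?_
    filter_upwards [real_ev H F] with n hn
    have h0 : Nat.card {a : A n // ¬ ∃ x, rF F (ty d x) = rF F (pin' cA rp n a)} = 0 :=
      Nat.card_eq_zero.2 (Or.inl ⟨fun a => a.2 (hn a.1)⟩)
    change (0 : ℝ) = (Nat.card {a : A n // ¬ ∃ x, rF F (ty d x) = rF F (pin' cA rp n a)} : ℝ) /
      Nat.card (A n)
    rw [h0]
    simp
  have h3 := tendsto_nhds_unique h1 h2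
  rw [measureReal_def] at h3
  rcases (ENNReal.toReal_eq_zero_iff _).1 h3 with h | h
  · exact h
  · exact absurd h (measure_ne_top _ _)

theorem Q_params (P : Finset d.W0) (k : ℕ) : ∀ᶠ n in (U : Filter ℕ),
    Q (cA n) d.c k ((fun w : d.W0 => (rp w.1 n, w.1)) '' (P : Set d.W0)) := by
  have h1 : ∀ᶠ n in (U : Filter ℕ), ∀ w : P, ∀ w' : P,
      (rp w.1.1 n < rp w'.1.1 n) = (w.1.1 < w'.1.1) ∧
      tp (cA n) k (rp w.1.1 n) (rp w'.1.1 n) = tp d.c k w.1.1 w'.1.1 := by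
    refine eventually_all.2 fun w => eventually_all.2 fun w' => ?_
    have := H.los (rp w'.1.1) w.1.1 k
    rw [H.cls_rp] at this
    exact this.mono fun n hn => ⟨hn.1, hn.2.2.1⟩
  have h2 : ∀ᶠ n in (U : Filter ℕ), ∀ w : P, cA n (rp w.1.1 n) = d.c w.1.1 := by
    refine eventually_all.2 fun w => ?_
    have := H.col (rp w.1.1)
    rw [H.cls_rp] at this
    exact this
  filter_upwards [h1, h2] with n h1 h2
  rintro _ ⟨w, hw, rfl⟩ _ ⟨w', hw', rfl⟩
  obtain ⟨a1, a2⟩ := h1 ⟨w, hw⟩ ⟨w', hw'⟩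
  exact ⟨iff_of_eq a1, a2, h2 ⟨w, hw⟩⟩

end limdat

/-- below the parameter -/
def X.lt {k : ℕ} (x : X k) : Prop := (show Prop × Prop × Prop × T k × T k from x).2.1
/-- above the parameter -/
def X.gt {k : ℕ} (x : X k) : Prop := (show Prop × Prop × Prop × T k × T k from x).2.2.1

/-- Separated tuples of coordinates. -/
def SepR {F : Finset (ℕ × d.W0)} {p : ℕ} (ρ : Fin p → ∀ i : F, X i.1.1) : Prop :=
  ∀ i j, i ≠ j → ∃ f : F, ((ρ i f).lt ∧ (ρ j f).gt) ∨ ((ρ j f).lt ∧ (ρ i f).gt)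

open Classical in
/-- Coordinates of rank `k` for the parameters `P`. -/
noncomputable def Fk (k : ℕ) (P : Finset d.W0) : Finset (ℕ × d.W0) := P.image (fun w => (k, w))

theorem mem_Fk {k : ℕ} {P : Finset d.W0} {w : d.W0} (hw : w ∈ P) : (k, w) ∈ Fk k P :=
  Finset.mem_image_of_mem _ hw

theorem exists_of_mem_Fk {k : ℕ} {P : Finset d.W0} {f : ℕ × d.W0} (hf : f ∈ Fk k P) :
    ∃ w ∈ P, f = (k, w) := by
  obtain ⟨w, hw, rfl⟩ := Finset.mem_image.1 hf
  exact ⟨w, hw, rfl⟩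

/-- General comparison of data of tuples with the same coordinates. -/
theorem datum_eq_of_coord {A : Type} [LinearOrder A] [BoundedOrder A] {cA : A → Prop}
    (rpn : d.W → A) {k : ℕ} {P : Finset d.W0} {p : ℕ} (x : Fin p → A) (y : Fin p → d.W)
    (hb : rpn ⊥ = ⊥) (ht : rpn ⊤ = ⊤) (hbP : (⟨⊥, d.h0.bot⟩ : d.W0) ∈ P)
    (htP : (⟨⊤, d.h0.top⟩ : d.W0) ∈ P)
    (hQ : Q cA d.c k ((fun w : d.W0 => (rpn w.1, w.1)) '' (P : Set d.W0)))
    (hxy : ∀ i, ∀ f ∈ Fk k P, (show X f.1 from (cA (x i), x i < rpn f.2.1, rpn f.2.1 < x i,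
      tp cA f.1 (x i) (rpn f.2.1), tp cA f.1 (rpn f.2.1) (x i))) = ty d (y i) f)
    (hs : SepR (fun i => rF (Fk k P) (ty d (y i)))) :
    datum cA ⊥ ⊤ k x = datum d.c ⊥ ⊤ k y := by
  have key : ∀ i, ∀ w ∈ P, cA (x i) = d.c (y i) ∧ (x i < rpn w.1 ↔ y i < w.1) ∧
      (rpn w.1 < x i ↔ w.1 < y i) ∧ tp cA k (x i) (rpn w.1) = tp d.c k (y i) w.1 ∧
      tp cA k (rpn w.1) (x i) = tp d.c k w.1 (y i) := by
    intro i w hw
    have e : (cA (x i), x i < rpn w.1, rpn w.1 < x i, tp cA k (x i) (rpn w.1),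
        tp cA k (rpn w.1) (x i)) = (d.c (y i), y i < w.1, w.1 < y i, tp d.c k (y i) w.1,
        tp d.c k w.1 (y i)) := hxy i _ (mem_Fk hw)
    exact ⟨congrArg (fun p => p.1) e, iff_of_eq (congrArg (fun p => p.2.1) e),
      iff_of_eq (congrArg (fun p => p.2.2.1) e), congrArg (fun p => p.2.2.2.1) e,
      congrArg (fun p => p.2.2.2.2) e⟩
  have hQ2 := hQ.sep x y (by
      intro i
      refine hQ.ins (key i _ hbP).1 ?_
      rintro _ ⟨w, hw, rfl⟩
      obtain ⟨-, a1, a2, a3, a4⟩ := key i w hw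
      exact ⟨a2, a1, a4, a3⟩) (by
      intro i j hij
      obtain ⟨⟨f, hf⟩, h⟩ := hs i j hij
      obtain ⟨w, hw, rfl⟩ := exists_of_mem_Fk hf
      refine ⟨(rpn w.1, w.1), ⟨w, hw, rfl⟩, ?_⟩
      rcases h with ⟨h1, h2⟩ | ⟨h1, h2⟩
      · exact Or.inl ⟨(key i w hw).2.1.2 h1, (key j w hw).2.2.1.2 h2⟩
      · exact Or.inr ⟨(key j w hw).2.1.2 h1, (key i w hw).2.2.1.2 h2⟩)
  refine datum_eq_of_Q hQ2 (fun i => Or.inr ⟨i, rfl⟩) (Or.inl ⟨_, hbP, Prod.ext hb rfl⟩)
    (Or.inl ⟨_, htP, Prod.ext ht rfl⟩)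

theorem datum_eq_W {k : ℕ} {P : Finset d.W0} {p : ℕ} (x y : Fin p → d.W)
    (hbP : (⟨⊥, d.h0.bot⟩ : d.W0) ∈ P) (htP : (⟨⊤, d.h0.top⟩ : d.W0) ∈ P)
    (hxy : ∀ i, rF (Fk k P) (ty d (x i)) = rF (Fk k P) (ty d (y i)))
    (hs : SepR (fun i => rF (Fk k P) (ty d (y i)))) :
    datum d.c ⊥ ⊤ k x = datum d.c ⊥ ⊤ k y := by
  refine datum_eq_of_coord (fun w => w) x y rfl rfl hbP htP ?_ ?_ hs
  · rintro _ ⟨w, hw, rfl⟩ _ ⟨w', hw', rfl⟩
    exact ⟨Iff.rfl, rfl, rfl⟩
  · intro i f hf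
    exact congrFun (hxy i) ⟨f, hf⟩

theorem datum_eq_ev {U : Ultrafilter ℕ} {A : ℕ → Type} [∀ n, LinearOrder (A n)]
    [∀ n, BoundedOrder (A n)] [∀ n, Finite (A n)] {cA : ∀ n, A n → Prop}
    {rp : d.W → ∀ n, A n} {cls : (∀ n, A n) → d.W} (H : LimDat d U A cA rp cls)
    {k : ℕ} {P : Finset d.W0} (p : ℕ)
    (hbP : (⟨⊥, d.h0.bot⟩ : d.W0) ∈ P) (htP : (⟨⊤, d.h0.top⟩ : d.W0) ∈ P) :
    ∀ᶠ n in (U : Filter ℕ), ∀ (x : Fin p → A n) (y : Fin p → d.W),
      (∀ i, rF (Fk k P) (pin' cA rp n (x i)) = rF (Fk k P) (ty d (y i))) →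
      SepR (fun i => rF (Fk k P) (ty d (y i))) →
      datum (cA n) ⊥ ⊤ k x = datum d.c ⊥ ⊤ k y := by
  filter_upwards [Q_params H P k, H.bot, H.top] with n h1 h2 h3
  intro x y hxy hs
  refine datum_eq_of_coord (fun w => rp w n) x y h2 h3 hbP htP h1 ?_ hs
  intro i f hf
  exact congrFun (hxy i) ⟨f, hf⟩

end Pool.Agent.MP44611a
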