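import Pool.Agent.Work.MP_44611a_h50.Fn

set_option autoImplicit false
set_option linter.unusedSectionVars false
set_option linter.unusedVariables false

namespace Pool.Agent.MP44611a

open MeasureTheory

/-- The data from which the modeling is built. -/
structure Dat where
  W : Type
  [lo : LinearOrder W]
  [bo : BoundedOrder W]
  c : W → Prop
  W0 : Set W
  f : ℕ → W → W
  hW : PF c
  h0 : Cl c W0
  hc : W0.Countable
  hf : FEnum c W0 f

attribute [instance] Dat.lo Dat.bo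

/-- Coordinates of the type space. -/
def X (k : ℕ) : Type := Prop × Prop × Prop × T k × T k

instance instFiniteX (k : ℕ) : Finite (X k) :=
  inferInstanceAs (Finite (Prop × Prop × Prop × T k × T k))

instance instMeasurableSpaceX (k : ℕ) : MeasurableSpace (X k) := ⊤

instance instDiscreteMeasurableSpaceX (k : ℕ) : DiscreteMeasurableSpace (X k) := ⟨fun _ => trivial⟩

/-- The type space. -/
abbrev Sh (d : Dat) : Type := ∀ i : ℕ × d.W0, X i.1

instance instCountableW0 (d : Dat) : Countable d.W0 := d.hc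

/-- The type of a point. -/
def ty (d : Dat) (x : d.W) : Sh d := fun i =>
  (d.c x, x < i.2.1, i.2.1 < x, tp d.c i.1 x i.2.1, tp d.c i.1 i.2.1 x)

theorem ty_eq_iff (d : Dat) {x x' : d.W} : ty d x = ty d x' ↔ SameType d.c d.W0 x x' := by
  constructor
  · intro h
    have key : ∀ (k : ℕ) (w : d.W) (hw : w ∈ d.W0), d.c x = d.c x' ∧ (x < w) = (x' < w) ∧
        (w < x) = (w < x') ∧ tp d.c k x w = tp d.c k x' w ∧ tp d.c k w x = tp d.c k w x' := by
      intro k w hw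
      have this : (d.c x, x < w, w < x, tp d.c k x w, tp d.c k w x) =
          (d.c x', x' < w, w < x', tp d.c k x' w, tp d.c k w x') := congrFun h (k, ⟨w, hw⟩)
      exact ⟨congrArg (fun p => p.1) this, congrArg (fun p => p.2.1) this,
        congrArg (fun p => p.2.2.1) this, congrArg (fun p => p.2.2.2.1) this,
        congrArg (fun p => p.2.2.2.2) this⟩
    refine ⟨(key 0 ⊥ d.h0.bot).1, fun w hw k => ?_⟩
    obtain ⟨-, h1, h2, h3, h4⟩ := key k w hw
    exact ⟨iff_of_eq h2, iff_of_eq h1, h4, h3⟩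
  · rintro ⟨h1, h2⟩
    funext i
    obtain ⟨a1, a2, a3, a4⟩ := h2 i.2.1 i.2.2 i.1
    unfold ty
    exact Prod.ext h1 (Prod.ext (propext a2) (Prod.ext (propext a1) (Prod.ext a4 a3)))

open Classical in
/-- A realization of a type. -/
noncomputable def rz (d : Dat) (q : Sh d) : d.W := if h : ∃ x, ty d x = q then h.choose else ⊥

theorem ty_rz (d : Dat) {q : Sh d} (hq : q ∈ Set.range (ty d)) : ty d (rz d q) = q := by
  unfold rz
  have h : ∃ x, ty d x = q := hq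
  rw [dif_pos h]
  exact h.choose_spec

theorem rz_sameType (d : Dat) (x : d.W) : SameType d.c d.W0 (rz d (ty d x)) x :=
  (ty_eq_iff d).1 (ty_rz d ⟨x, rfl⟩)

/-- The pairs `(x, y)` and `(x', y')` have the same type over `W0`. -/
def JT (d : Dat) (x y x' y' : d.W) : Prop :=
  ∀ l, ∀ P0 ⊆ d.W0, P0.Finite → Q d.c d.c l (insert (x, x') (insert (y, y') (dg P0)))

section JT

variable {d : Dat} {x y x' y' : d.W}

theorem JT.symm (h : JT d x y x' y') : JT d x' y' x y := by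
  intro l P0 hP0 hf
  refine Q.mono ((h l P0 hP0 hf).swap) ?_
  rintro u (rfl | rfl | ⟨p, hp, rfl⟩)
  · exact Set.mem_insert _ _
  · exact Set.mem_insert_of_mem _ (Set.mem_insert _ _)
  · exact Set.mem_insert_of_mem _ (Set.mem_insert_of_mem _ (mem_dg hp))

theorem JT.lt_iff (h : JT d x y x' y') : x < y ↔ x' < y' :=
  (h 0 ∅ (Set.empty_subset _) Set.finite_empty _ (Set.mem_insert _ _) _
    (Set.mem_insert_of_mem _ (Set.mem_insert _ _))).1

theorem JT.lt_iff' (h : JT d x y x' y') : y < x ↔ y' < x' :=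
  (h 0 ∅ (Set.empty_subset _) Set.finite_empty _
    (Set.mem_insert_of_mem _ (Set.mem_insert _ _)) _ (Set.mem_insert _ _)).1

theorem JT.eq_iff (h : JT d x y x' y') : x = y ↔ x' = y' :=
  (h 0 ∅ (Set.empty_subset _) Set.finite_empty).eq_iff (Set.mem_insert _ _)
    (Set.mem_insert_of_mem _ (Set.mem_insert _ _))

theorem JT.tp_eq (h : JT d x y x' y') (k : ℕ) : tp d.c k x y = tp d.c k x' y' :=
  (h k ∅ (Set.empty_subset _) Set.finite_empty _ (Set.mem_insert _ _) _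
    (Set.mem_insert_of_mem _ (Set.mem_insert _ _))).2.1

theorem JT.fst (h : JT d x y x' y') : SameType d.c d.W0 x x' := by
  have key : ∀ w ∈ d.W0, ∀ k, QP d.c k {w} x x' := by
    intro w hw k
    refine (h k {w} (by simpa using hw) (Set.finite_singleton w)).mono ?_
    exact Set.insert_subset_insert (Set.subset_insert _ _)
  exact ⟨(QP_iff.1 (key ⊥ d.h0.bot 0)).1, fun w hw k =>
    (QP_iff.1 (key w hw k)).2 w (Set.mem_singleton w)⟩

theorem JT.flip (h : JT d x y x' y') : JT d y x y' x' := by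
  intro l P0 hP0 hf
  rw [Set.insert_comm]
  exact h l P0 hP0 hf

theorem JT.snd (h : JT d x y x' y') : SameType d.c d.W0 y y' := h.flip.fst

theorem QP_of_sameType (h : SameType d.c d.W0 x x') (l : ℕ) {P0 : Set d.W} (hP0 : P0 ⊆ d.W0) :
    QP d.c l P0 x x' := QP_iff.2 ⟨h.1, fun p hp => h.2 p (hP0 hp) l⟩

theorem JT.diag (h : SameType d.c d.W0 x x') : JT d x x x' x' := by
  intro l P0 hP0 hf
  rw [Set.insert_idem]
  exact QP_of_sameType h l hP0

theorem JT.of_Nlt (hN : Nlt d.c d.W0 x y) (hN' : Nlt d.c d.W0 x' y')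
    (hx : SameType d.c d.W0 x x') (hy : SameType d.c d.W0 y y') : JT d x y x' y' := by
  intro l P0 hP0 hf
  have hxy := hN.lt d.h0
  have hxy' := hN'.lt d.h0
  refine Q.ins (QP_of_sameType hy l hP0) hx.1 ?_
  rintro r (rfl | ⟨p, hp, rfl⟩)
  · refine ⟨⟨fun h => absurd h (not_lt.2 hxy.le), fun h => absurd h (not_lt.2 hxy'.le)⟩,
      ⟨fun _ => hxy', fun _ => hxy⟩, ?_, typeU d.hW d.h0 hN hN' hx hy l⟩
    rw [tp_of_le _ _ hxy.le, tp_of_le _ _ hxy'.le]
  · obtain ⟨a1, a2, a3, a4⟩ := hx.2 p (hP0 hp) l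
    exact ⟨a1, a2, a3, a4⟩

theorem JT.app (h : JT d x y x' y') (n m : ℕ) :
    JT d (d.f n x) (d.f m y) (d.f n x') (d.f m y') := by
  intro l P0 hP0 hf
  obtain ⟨P1, hP1, hP1f, g1⟩ := d.hf.good n
  obtain ⟨P2, hP2, hP2f, g2⟩ := d.hf.good m
  obtain ⟨la, ha⟩ := g1 l
  obtain ⟨lb, hb⟩ := g2 la
  have hfin : (P0 ∪ (P1 ∪ P2)).Finite := hf.union (hP1f.union hP2f)
  have h1 := h lb (P0 ∪ (P1 ∪ P2)) (Set.union_subset hP0 (Set.union_subset hP1 hP2)) hfin
  have hΓf : (insert (x, x') (insert (y, y') (dg (P0 ∪ (P1 ∪ P2))))).Finite :=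
    ((dg_finite hfin).insert _).insert _
  have hsub : dg (P0 ∪ (P1 ∪ P2)) ⊆ insert (x, x') (insert (y, y') (dg (P0 ∪ (P1 ∪ P2)))) :=
    (Set.subset_insert _ _).trans (Set.subset_insert _ _)
  have h2 := hb _ hΓf ((dg_mono fun p hp => Or.inr (Or.inr hp)).trans hsub) y y'
    (Set.mem_insert_of_mem _ (Set.mem_insert _ _)) h1
  have h3 := ha _ (hΓf.insert _) (((dg_mono fun p hp => Or.inr (Or.inl hp)).trans hsub).trans
    (Set.subset_insert _ _)) x x' (Set.mem_insert_of_mem _ (Set.mem_insert _ _)) h2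
  refine h3.mono ?_
  rintro u (rfl | rfl | ⟨p, hp, rfl⟩)
  · exact Set.mem_insert _ _
  · exact Set.mem_insert_of_mem _ (Set.mem_insert _ _)
  · exact Set.mem_insert_of_mem _ (Set.mem_insert_of_mem _ (hsub (mem_dg (Or.inl hp))))

end JT

/-- Comparison of blocks. -/
def blk (d : Dat) (q q' : Sh d) : Prop :=
  (rz d q < rz d q' ∧ ¬ SameCut d.W0 (rz d q) (rz d q')) ∨
    (SameCut d.W0 (rz d q) (rz d q') ∧ embeddingReal (Sh d) q < embeddingReal (Sh d) q')

theorem sc_left {d : Dat} {x y z : d.W} (h : SameCut d.W0 x y) (h1 : y < z)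
    (h2 : ¬ SameCut d.W0 y z) : x < z ∧ ¬ SameCut d.W0 x z := by
  refine ⟨?_, fun h3 => h2 (h.symm.trans h3)⟩
  by_contra h3
  rw [not_lt] at h3
  exact h2 ((h.symm.conv h1.le h3))

theorem sc_right {d : Dat} {x y z : d.W} (h : SameCut d.W0 y z) (h1 : x < y)
    (h2 : ¬ SameCut d.W0 x y) : x < z ∧ ¬ SameCut d.W0 x z := by
  refine ⟨?_, fun h3 => h2 (h3.trans h.symm)⟩
  by_contra h3
  rw [not_lt] at h3
  exact h2 ((h.symm.conv h3 h1.le).symm.trans h.symm)

theorem blk_irrefl (d : Dat) (q : Sh d) : ¬ blk d q q := by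
  rintro (⟨h, -⟩ | ⟨-, h⟩)
  · exact lt_irrefl _ h
  · exact lt_irrefl _ h

theorem blk_trans (d : Dat) {q q' q'' : Sh d} (h : blk d q q') (h' : blk d q' q'') :
    blk d q q'' := by
  rcases h with ⟨h1, h2⟩ | ⟨h1, h2⟩
  · rcases h' with ⟨h3, h4⟩ | ⟨h3, h4⟩
    · left
      exact ⟨h1.trans h3, fun h5 => h2 (h5.conv h1.le h3.le)⟩
    · left
      exact sc_right h3 h1 h2
  · rcases h' with ⟨h3, h4⟩ | ⟨h3, h4⟩
    · left
      exact sc_left h1 h3 h4
    · right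
      exact ⟨h1.trans h3, h2.trans h4⟩

theorem blk_trich (d : Dat) {q q' : Sh d} (h : q ≠ q') : blk d q q' ∨ blk d q' q := by
  by_cases hs : SameCut d.W0 (rz d q) (rz d q')
  · have hne : embeddingReal (Sh d) q ≠ embeddingReal (Sh d) q' :=
      fun e => h ((measurableEmbedding_embeddingReal (Sh d)).injective e)
    rcases lt_or_gt_of_ne hne with h1 | h1
    · exact Or.inl (Or.inr ⟨hs, h1⟩)
    · exact Or.inr (Or.inr ⟨hs.symm, h1⟩)
  · have hne : rz d q ≠ rz d q' := fun e => hs (e ▸ SameCut.refl _ _)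
    rcases lt_or_gt_of_ne hne with h1 | h1
    · exact Or.inl (Or.inl ⟨h1, hs⟩)
    · exact Or.inr (Or.inl ⟨h1, fun h => hs h.symm⟩)

theorem exists_Nlt_of_blk (d : Dat) {q : Sh d} (hq : q ∈ Set.range (ty d)) {y : d.W}
    (h : blk d q (ty d y)) : ∃ x, ty d x = q ∧ Nlt d.c d.W0 x y := by
  have hy := rz_sameType d y
  rcases h with ⟨h1, h2⟩ | ⟨h1, h2⟩
  · obtain ⟨h3, h4⟩ := sc_right hy.sameCut h1 h2
    exact ⟨rz d q, ty_rz d hq, Nlt_of_notSameCut d.h0 h3 h4⟩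
  · have hne : rz d q ≠ rz d (ty d y) := by
      intro e
      have := congrArg (ty d) e
      rw [ty_rz d hq, ty_rz d ⟨y, rfl⟩] at this
      rw [this] at h2
      exact lt_irrefl _ h2
    have hx0 : rz d q ∉ d.W0 := fun h => hne (h1.eq_of_mem h).symm
    have hsc : SameCut d.W0 (rz d q) y := h1.trans hy.sameCut
    obtain ⟨x, hx, hxy⟩ := exists_below d.hW d.h0 d.hc hx0 (hsc.notMem hx0) hsc
    refine ⟨x, ?_, hxy⟩
    rw [← ty_rz d hq]
    exact ((ty_eq_iff d).2 hx).symm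

/-- The domain of the modeling. -/
def LSet (d : Dat) : Set (Sh d × ℕ) :=
  {p | p.1 ∈ Set.range (ty d) ∧ SameCut d.W0 (d.f p.2 (rz d p.1)) (rz d p.1) ∧
    ∀ j < p.2, d.f j (rz d p.1) ≠ d.f p.2 (rz d p.1)}

/-- The domain of the modeling. -/
def Lc (d : Dat) : Type := LSet d

/-- The value of a point of the modeling at its base point. -/
noncomputable def val {d : Dat} (a : Lc d) : d.W := d.f a.1.2 (rz d a.1.1)

/-- The order of the modeling. -/
def ltL (d : Dat) (a b : Lc d) : Prop :=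
  blk d a.1.1 b.1.1 ∨ (a.1.1 = b.1.1 ∧ val a < val b)

theorem Lc_ext {d : Dat} {a b : Lc d} (h1 : a.1.1 = b.1.1) (h2 : val a = val b) : a = b := by
  obtain ⟨⟨q, n⟩, hn⟩ := a
  obtain ⟨⟨q', n'⟩, hn'⟩ := b
  change q = q' at h1
  subst h1
  change d.f n (rz d q) = d.f n' (rz d q) at h2
  have : n = n' := by
    rcases lt_trichotomy n n' with h | h | h
    · exact absurd h2 (hn'.2.2 n h)
    · exact h
    · exact absurd h2.symm (hn.2.2 n' h)
  subst this
  rfl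

instance instSTO (d : Dat) : IsStrictTotalOrder (Lc d) (ltL d) where
  trichotomous a b h1 h2 := by
    by_contra hne
    by_cases hq : a.1.1 = b.1.1
    · rcases lt_trichotomy (val a) (val b) with h | h | h
      · exact h1 (Or.inr ⟨hq, h⟩)
      · exact hne (Lc_ext hq h)
      · exact h2 (Or.inr ⟨hq.symm, h⟩)
    · rcases blk_trich d hq with h | h
      · exact h1 (Or.inl h)
      · exact h2 (Or.inl h)
  irrefl a := by
    rintro (h | ⟨-, h⟩)
    · exact blk_irrefl d _ h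
    · exact lt_irrefl _ h
  trans a b e := by
    rintro (h | ⟨h, h'⟩) (h2 | ⟨h2, h2'⟩)
    · exact Or.inl (blk_trans d h h2)
    · exact Or.inl (h2 ▸ h)
    · exact Or.inl (h ▸ h2)
    · exact Or.inr ⟨h.trans h2, h'.trans h2'⟩

open Classical in
noncomputable instance instLinearOrderLc (d : Dat) : LinearOrder (Lc d) := linearOrderOfSTO (ltL d)

theorem lt_def {d : Dat} {a b : Lc d} :
    a < b ↔ blk d a.1.1 b.1.1 ∨ (a.1.1 = b.1.1 ∧ val a < val b) := Iff.rfl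

/-- The colour of the modeling. -/
def colL (d : Dat) (a : Lc d) : Prop := d.c (val a)

/-- The points `y1`, `y2` realize the blocks of `a`, `b`. -/
def Real (d : Dat) (a b : Lc d) (y1 y2 : d.W) : Prop :=
  ty d y1 = a.1.1 ∧ ty d y2 = b.1.1 ∧ ((a.1.1 = b.1.1 ∧ y1 = y2) ∨
    (blk d a.1.1 b.1.1 ∧ Nlt d.c d.W0 y1 y2))

theorem Real.jt {d : Dat} {a b : Lc d} {y1 y2 y1' y2' : d.W} (h : Real d a b y1 y2)
    (h' : Real d a b y1' y2') : JT d y1 y2 y1' y2' := by
  obtain ⟨h1, h2, h3⟩ := h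
  obtain ⟨h1', h2', h3'⟩ := h'
  have e1 : SameType d.c d.W0 y1 y1' := (ty_eq_iff d).1 (h1.trans h1'.symm)
  have e2 : SameType d.c d.W0 y2 y2' := (ty_eq_iff d).1 (h2.trans h2'.symm)
  rcases h3 with ⟨h4, rfl⟩ | ⟨h4, h5⟩
  · rcases h3' with ⟨h4', rfl⟩ | ⟨h4', h5'⟩
    · exact JT.diag e1
    · exact absurd (h4 ▸ h4') (blk_irrefl d _)
  · rcases h3' with ⟨h4', rfl⟩ | ⟨h4', h5'⟩
    · exact absurd (h4' ▸ h4) (blk_irrefl d _)
    · exact JT.of_Nlt h5 h5' e1 e2

theorem real_self (d : Dat) {a b : Lc d} (h : a.1.1 = b.1.1) {y : d.W} (hy : ty d y = a.1.1) :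
    Real d a b y y := ⟨hy, hy.trans h, Or.inl ⟨h, rfl⟩⟩

/-- Validity of an index is preserved by change of the base point. -/
theorem valid_of {d : Dat} (a : Lc d) {y : d.W} (hy : ty d y = a.1.1) :
    d.f a.1.2 y ∈ NN d.c d.W0 y := by
  refine ⟨d.hf.mem _ _, ?_⟩
  have h1 : SameType d.c d.W0 (rz d a.1.1) y := hy ▸ rz_sameType d y
  have h2 := ((JT.diag h1).app a.1.2 0).fst
  exact h2.sameCut.symm.trans (a.2.2.1.trans h1.sameCut)

theorem Real.lt_iff {d : Dat} {a b : Lc d} {y1 y2 : d.W} (h : Real d a b y1 y2) :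
    a < b ↔ d.f a.1.2 y1 < d.f b.1.2 y2 := by
  have h' := h
  obtain ⟨h1, h2, h3⟩ := h
  rcases h3 with ⟨h4, rfl⟩ | ⟨h4, h5⟩
  · have e1 : SameType d.c d.W0 (rz d a.1.1) y1 := h1 ▸ rz_sameType d y1
    have e2 := ((JT.diag e1).app a.1.2 b.1.2).lt_iff
    rw [← e2, lt_def]
    constructor
    · rintro (h5 | ⟨-, h5⟩)
      · exact absurd (h4 ▸ h5) (blk_irrefl d _)
      · unfold val at h5
        rw [← h4] at h5
        exact h5
    · intro h5
      right
      refine ⟨h4, ?_⟩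
      unfold val
      rw [← h4]
      exact h5
  · exact ⟨fun _ => h5 _ (valid_of a h1) _ (valid_of b h2), fun _ => Or.inl h4⟩

theorem colL_eq {d : Dat} (a : Lc d) {y : d.W} (hy : ty d y = a.1.1) :
    colL d a = d.c (d.f a.1.2 y) := by
  have h1 : SameType d.c d.W0 (rz d a.1.1) y := hy ▸ rz_sameType d y
  exact (((JT.diag h1).app a.1.2 0).fst).1

/-- For points `a < b` of the modeling there are realizations. -/
theorem exists_real {d : Dat} {a b : Lc d} (h : a ≤ b) {y2 : d.W} (hy : ty d y2 = b.1.1) :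
    ∃ y1, Real d a b y1 y2 := by
  by_cases hq : a.1.1 = b.1.1
  · exact ⟨y2, hy.trans hq.symm, hy, Or.inl ⟨hq, rfl⟩⟩
  · have hlt : a < b := lt_of_le_of_ne h (fun e => hq (e ▸ rfl))
    rcases lt_def.1 hlt with h1 | ⟨h1, -⟩
    · obtain ⟨x, hx, hN⟩ := exists_Nlt_of_blk d a.2.1 (hy ▸ h1)
      exact ⟨x, hx, hy, Or.inr ⟨h1, hN⟩⟩
    · exact absurd h1 hq

theorem real_trans {d : Dat} {a b e : Lc d} {y1 y2 y3 : d.W} (h : Real d a b y1 y2)
    (h' : Real d b e y2 y3) : Real d a e y1 y3 := by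
  obtain ⟨h1, h2, h3⟩ := h
  obtain ⟨h1', h2', h3'⟩ := h'
  refine ⟨h1, h2', ?_⟩
  rcases h3 with ⟨h4, rfl⟩ | ⟨h4, h5⟩
  · rcases h3' with ⟨h4', rfl⟩ | ⟨h4', h5'⟩
    · exact Or.inl ⟨h4.trans h4', rfl⟩
    · exact Or.inr ⟨h4 ▸ h4', h5'⟩
  · rcases h3' with ⟨h4', rfl⟩ | ⟨h4', h5'⟩
    · exact Or.inr ⟨h4' ▸ h4, h5⟩
    · exact Or.inr ⟨blk_trans d h4 h4', h5.trans d.h0 h5'⟩

open Classical in
/-- The point of the modeling with block type `ty y` corresponding to `z`. -/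
noncomputable def mk (d : Dat) (y : d.W) (z : d.W) (hz : z ∈ NN d.c d.W0 y) : Lc d :=
  ⟨(ty d y, Nat.find (d.hf.surj y z hz.1)), by
    have h1 : SameType d.c d.W0 (rz d (ty d y)) y := rz_sameType d y
    have hs := Nat.find_spec (d.hf.surj y z hz.1)
    refine ⟨⟨y, rfl⟩, ?_, ?_⟩
    · have h2 := ((JT.diag h1).app (Nat.find (d.hf.surj y z hz.1)) 0).fst
      change SameCut d.W0 (d.f (Nat.find (d.hf.surj y z hz.1)) (rz d (ty d y))) (rz d (ty d y))
      refine h2.sameCut.trans ?_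
      rw [hs]
      exact hz.2.trans h1.sameCut.symm
    · intro j hj
      change d.f j (rz d (ty d y)) ≠ d.f (Nat.find (d.hf.surj y z hz.1)) (rz d (ty d y))
      have h2 := ((JT.diag h1).app j (Nat.find (d.hf.surj y z hz.1))).eq_iff
      rw [Ne, h2, hs]
      exact Nat.find_min (d.hf.surj y z hz.1) hj⟩

theorem mk_fst (d : Dat) (y z : d.W) (hz : z ∈ NN d.c d.W0 y) : (mk d y z hz).1.1 = ty d y := rfl

open Classical in
theorem mk_val (d : Dat) (y z : d.W) (hz : z ∈ NN d.c d.W0 y) :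
    d.f (mk d y z hz).1.2 y = z := Nat.find_spec (d.hf.surj y z hz.1)

/-- The constant of the modeling corresponding to an element of `W0`. -/
noncomputable def cst (d : Dat) (w : d.W) : Lc d := mk d w w (self_mem_NN d.h0 w)

/-- The points used as witnesses. -/
def Wit (d : Dat) (a b g : Lc d) : Prop := g.1.1 = a.1.1 ∨ g.1.1 = b.1.1 ∨ ∃ w ∈ d.W0, g = cst d w

theorem real_cst_right {d : Dat} {a : Lc d} {y1 w : d.W} (hw : w ∈ d.W0) (h1 : ty d y1 = a.1.1)
    (h : d.f a.1.2 y1 < w) : Real d a (cst d w) y1 w := by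
  refine ⟨h1, rfl, Or.inr ?_⟩
  have hv := valid_of a h1
  have hlt : y1 < w := by
    by_contra h2
    rw [not_lt] at h2
    rcases h2.eq_or_lt with h2 | h2
    · subst h2
      have := eq_of_mem_NN d.h0 hw hv
      rw [this] at h
      exact lt_irrefl _ h
    · exact lt_asymm h ((hv.2 w hw).1.2 h2)
  have hns : ¬ SameCut d.W0 y1 w := by
    intro h2
    have := h2.symm.eq_of_mem hw
    rw [this] at hlt
    exact lt_irrefl _ hlt
  refine ⟨?_, Nlt_of_notSameCut d.h0 hlt hns⟩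
  left
  have e1 : SameType d.c d.W0 (rz d a.1.1) y1 := h1 ▸ rz_sameType d y1
  have e2 : SameType d.c d.W0 (rz d (ty d w)) w := rz_sameType d w
  obtain ⟨h3, h4⟩ := sc_left e1.sameCut hlt hns
  exact sc_right e2.sameCut.symm h3 h4

theorem real_cst_left {d : Dat} {b : Lc d} {y2 w : d.W} (hw : w ∈ d.W0) (h1 : ty d y2 = b.1.1)
    (h : w < d.f b.1.2 y2) : Real d (cst d w) b w y2 := by
  refine ⟨rfl, h1, Or.inr ?_⟩
  have hv := valid_of b h1
  have hlt : w < y2 := by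
    by_contra h2
    rw [not_lt] at h2
    rcases h2.eq_or_lt with h2 | h2
    · subst h2
      have := eq_of_mem_NN d.h0 hw hv
      rw [this] at h
      exact lt_irrefl _ h
    · exact lt_asymm h ((hv.2 w hw).2.2 h2)
  have hns : ¬ SameCut d.W0 w y2 := by
    intro h2
    have := h2.eq_of_mem hw
    rw [this] at hlt
    exact lt_irrefl _ hlt
  refine ⟨?_, Nlt_of_notSameCut d.h0 hlt hns⟩
  left
  have e1 : SameType d.c d.W0 (rz d b.1.1) y2 := h1 ▸ rz_sameType d y2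
  have e2 : SameType d.c d.W0 (rz d (ty d w)) w := rz_sameType d w
  obtain ⟨h3, h4⟩ := sc_right e1.sameCut.symm hlt hns
  exact sc_left e2.sameCut h3 h4

/-- Witnesses in the modeling for points in the realization. -/
theorem exists_wit {d : Dat} {a b : Lc d} {y1 y2 : d.W} (h : Real d a b y1 y2) (k : ℕ) {z : d.W}
    (h1 : d.f a.1.2 y1 < z) (h2 : z < d.f b.1.2 y2) :
    ∃ g : Lc d, ∃ y3, Wit d a b g ∧ Real d a g y1 y3 ∧ Real d g b y3 y2 ∧
      d.f a.1.2 y1 < d.f g.1.2 y3 ∧ d.f g.1.2 y3 < d.f b.1.2 y2 ∧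
      tp d.c k (d.f a.1.2 y1) (d.f g.1.2 y3) = tp d.c k (d.f a.1.2 y1) z ∧
      d.c (d.f g.1.2 y3) = d.c z ∧
      tp d.c k (d.f g.1.2 y3) (d.f b.1.2 y2) = tp d.c k z (d.f b.1.2 y2) := by
  have hab : d.f a.1.2 y1 < d.f b.1.2 y2 := h1.trans h2
  obtain ⟨e1, e2, e3⟩ := id h
  -- a witness in `MM y1 ∪ MM y2`
  obtain ⟨z', hz', g1, g2, g3, g4, g5⟩ : ∃ z' ∈ MM d.c d.W0 y1 ∪ MM d.c d.W0 y2,
      d.f a.1.2 y1 < z' ∧ z' < d.f b.1.2 y2 ∧
      tp d.c k (d.f a.1.2 y1) z' = tp d.c k (d.f a.1.2 y1) z ∧ d.c z' = d.c z ∧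
      tp d.c k z' (d.f b.1.2 y2) = tp d.c k z (d.f b.1.2 y2) := by
    rcases e3 with ⟨-, rfl⟩ | ⟨-, hN⟩
    · obtain ⟨z', hz', g1, g2, -, g3⟩ := (cl_MM d.h0 y1).between d.hW k (d.hf.mem a.1.2 y1)
        (d.hf.mem b.1.2 y1) h1 h2
      rw [QP_iff] at g3
      exact ⟨z', Or.inl hz', g1, g2, (g3.2 _ (by simp)).2.2.1.symm, g3.1.symm,
        (g3.2 _ (by simp)).2.2.2.symm⟩
    · exact between d.hW d.h0 hN k (Or.inl (d.hf.mem _ _)) (Or.inr (d.hf.mem _ _)) h1 h2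
  by_cases hz0 : z' ∈ d.W0
  · refine ⟨cst d z', z', Or.inr (Or.inr ⟨z', hz0, rfl⟩), real_cst_right hz0 e1 g1,
      real_cst_left hz0 e2 g2, ?_⟩
    have : d.f (cst d z').1.2 z' = z' := mk_val d z' z' _
    rw [this]
    exact ⟨g1, g2, g3, g4, g5⟩
  rcases hz' with hz' | hz'
  · have hzN := mem_NN_of_mem_MM d.h0 hz' hz0
    have hv := mk_val d y1 z' hzN
    refine ⟨mk d y1 z' hzN, y1, Or.inl e1, real_self d e1.symm e1, ?_, ?_⟩
    · refine real_trans (b := a) (real_self d e1 rfl) h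
    · rw [hv]
      exact ⟨g1, g2, g3, g4, g5⟩
  · have hzN := mem_NN_of_mem_MM d.h0 hz' hz0
    have hv := mk_val d y2 z' hzN
    refine ⟨mk d y2 z' hzN, y2, Or.inr (Or.inl e2), ?_, real_self d e2 rfl, ?_⟩
    · refine real_trans (b := b) h (real_self d e2.symm e2)
    · rw [hv]
      exact ⟨g1, g2, g3, g4, g5⟩

/-- Main theorem on the modeling: types in the modeling are types of realizations. -/
theorem tpL_eq (d : Dat) : ∀ (k : ℕ) (a b : Lc d) (y1 y2 : d.W), Real d a b y1 y2 →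
    tp (colL d) k a b = tp d.c k (d.f a.1.2 y1) (d.f b.1.2 y2)
  | 0, _, _, _, _, _ => rfl
  | k + 1, a, b, y1, y2, h => by
    refine T_ext ?_
    intro s e s'
    refine (mem_tp_succ (colL d) k a b _).trans (Iff.trans ?_ (mem_tp_succ d.c k _ _ _).symm)
    constructor
    · rintro ⟨g, hag, hgb, hg⟩
      obtain ⟨y3, hr2⟩ := exists_real hgb.le (ty_rz d b.2.1)
      obtain ⟨y1', hr1⟩ := exists_real hag.le hr2.1
      have hr := real_trans hr1 hr2
      have hj := (h.jt hr).app a.1.2 b.1.2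
      have m : (s, e, s') ∈ (show Set (T k × Prop × T k) from
          tp d.c (k+1) (d.f a.1.2 y1') (d.f b.1.2 (rz d b.1.1))) := by
        rw [mem_tp_succ]
        refine ⟨d.f g.1.2 y3, hr1.lt_iff.1 hag, hr2.lt_iff.1 hgb, ?_⟩
        rw [hg, tpL_eq d k a g y1' y3 hr1, tpL_eq d k g b y3 _ hr2, colL_eq g hr2.1]
      rw [← hj.tp_eq (k+1)] at m
      exact (mem_tp_succ d.c k _ _ _).1 m
    · rintro ⟨z, h1, h2, h3⟩
      obtain ⟨g, y3, -, hr1, hr2, g1, g2, g3, g4, g5⟩ := exists_wit h k h1 h2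
      refine ⟨g, hr1.lt_iff.2 g1, hr2.lt_iff.2 g2, ?_⟩
      rw [h3, tpL_eq d k a g y1 y3 hr1, tpL_eq d k g b y3 y2 hr2, colL_eq g hr2.1, g3, g4, g5]

/-- Witnesses in the modeling. -/
theorem exists_witL (d : Dat) (k : ℕ) {a b g : Lc d} (h1 : a < g) (h2 : g < b) :
    ∃ g' : Lc d, Wit d a b g' ∧ a < g' ∧ g' < b ∧ tp (colL d) k a g' = tp (colL d) k a g ∧
      colL d g' = colL d g ∧ tp (colL d) k g' b = tp (colL d) k g b := by
  obtain ⟨y3, hr2⟩ := exists_real h2.le (ty_rz d b.2.1)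
  obtain ⟨y1, hr1⟩ := exists_real h1.le hr2.1
  have hr := real_trans hr1 hr2
  obtain ⟨g', y3', hw, hr1', hr2', g1, g2, g3, g4, g5⟩ :=
    exists_wit hr k (hr1.lt_iff.1 h1) (hr2.lt_iff.1 h2)
  refine ⟨g', hw, hr1'.lt_iff.2 g1, hr2'.lt_iff.2 g2, ?_, ?_, ?_⟩
  · rw [tpL_eq d k a g' _ _ hr1', tpL_eq d k a g _ _ hr1, g3]
  · rw [colL_eq g' hr2'.1, colL_eq g hr2.1, g4]
  · rw [tpL_eq d k g' b _ _ hr2', tpL_eq d k g b _ _ hr2, g5]

end Pool.Agent.MP44611a
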