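import Pool.Agent.Work.MP_44611a_h50.Ultra

set_option autoImplicit false
set_option linter.unusedSectionVars false
set_option linter.unusedVariables false

namespace Pool.Agent.MP44611a

open MeasureTheory

section

variable {A B : Type} [LinearOrder A] [LinearOrder B] {cA : A → Prop} {cB : B → Prop}

/-- Adding points separated by the correspondence. -/
theorem Q.sep {k : ℕ} {Γ : Set (A × B)} (hΓ : Q cA cB k Γ) {ι : Type} (x : ι → A) (y : ι → B)
    (hxy : ∀ i, Q cA cB k (insert (x i, y i) Γ))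
    (hs : ∀ i j, i ≠ j → ∃ r ∈ Γ, (x i < r.1 ∧ r.1 < x j) ∨ (x j < r.1 ∧ r.1 < x i)) :
    Q cA cB k (Γ ∪ Set.range (fun i => (x i, y i))) := by
  have key : ∀ i j, ∀ r ∈ Γ, x i < r.1 → r.1 < x j → (x i < x j ∧ y i < y j) ∧
      tp cA k (x i) (x j) = tp cB k (y i) (y j) := by
    intro i j r hr h1 h2
    have e1 := hxy i _ (Set.mem_insert _ _) _ (Set.mem_insert_of_mem _ hr)
    have e2 := hxy j _ (Set.mem_insert_of_mem _ hr) _ (Set.mem_insert _ _)
    refine ⟨⟨h1.trans h2, (e1.1.1 h1).trans (e2.1.1 h2)⟩, ?_⟩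
    rw [tp_comp cA k h1 h2, tp_comp cB k (e1.1.1 h1) (e2.1.1 h2), e1.2.1, e2.2.1, e2.2.2]
  rintro u (hu | ⟨i, rfl⟩) v (hv | ⟨j, rfl⟩)
  · exact hΓ u hu v hv
  · exact hxy j _ (Set.mem_insert_of_mem _ hu) _ (Set.mem_insert _ _)
  · exact hxy i _ (Set.mem_insert _ _) _ (Set.mem_insert_of_mem _ hv)
  · have hc := (hxy i _ (Set.mem_insert _ _) _ (Set.mem_insert _ _)).2.2
    by_cases hij : i = j
    · subst hij
      exact hxy i _ (Set.mem_insert _ _) _ (Set.mem_insert _ _)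
    · obtain ⟨r, hr, ⟨h1, h2⟩ | ⟨h1, h2⟩⟩ := hs i j hij
      · obtain ⟨⟨h3, h4⟩, h5⟩ := key i j r hr h1 h2
        exact ⟨⟨fun _ => h4, fun _ => h3⟩, h5, hc⟩
      · obtain ⟨⟨h3, h4⟩, h5⟩ := key j i r hr h1 h2
        refine ⟨⟨fun h => absurd h (not_lt.2 h3.le), fun h => absurd h (not_lt.2 h4.le)⟩, ?_, hc⟩
        change tp cA k (x i) (x j) = tp cB k (y i) (y j)
        rw [tp_of_le _ _ h3.le, tp_of_le _ _ h4.le]

theorem datum_eq_of_Q {k : ℕ} {Γ : Set (A × B)} (hΓ : Q cA cB k Γ) {p : ℕ} {x : Fin p → A}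
    {y : Fin p → B} {bA tA : A} {bB tB : B} (hxy : ∀ i, (x i, y i) ∈ Γ) (hb : (bA, bB) ∈ Γ)
    (ht : (tA, tB) ∈ Γ) : datum cA bA tA k x = datum cB bB tB k y := by
  have hm : ∀ i : Fin p ⊕ Bool, (ext' bA tA x i, ext' bB tB y i) ∈ Γ := by
    rintro (i | i | i)
    · exact hxy i
    · exact hb
    · exact ht
  funext ij
  obtain ⟨h1, h2, h3⟩ := hΓ _ (hm ij.1) _ (hm ij.2)
  exact Prod.ext (propext h1) (Prod.ext h2 h3)

end

variable {d : Dat}

theorem real_cst {y1 y2 : d.W} (h : y1 < y2) (hs : ¬ SameCut d.W0 y1 y2) :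
    Real d (cst d y1) (cst d y2) y1 y2 := by
  refine ⟨rfl, rfl, Or.inr ⟨?_, Nlt_of_notSameCut d.h0 h hs⟩⟩
  left
  obtain ⟨h3, h4⟩ := sc_left (rz_sameType d y1).sameCut h hs
  exact sc_right (rz_sameType d y2).sameCut.symm h3 h4

/-- Points in different cuts are faithfully represented in the modeling. -/
theorem Q_cst (k : ℕ) {Y : Set d.W} (hY : ∀ y ∈ Y, ∀ y' ∈ Y, y ≠ y' → ¬ SameCut d.W0 y y') :
    Q d.c (colL d) k ((fun y => (y, cst d y)) '' Y) := by
  have key : ∀ y ∈ Y, ∀ y' ∈ Y, y < y' → cst d y < cst d y' ∧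
      tp d.c k y y' = tp (colL d) k (cst d y) (cst d y') := by
    intro y hy y' hy' h
    have hr := real_cst h (hY y hy y' hy' h.ne)
    refine ⟨hr.lt_iff.2 ?_, ?_⟩
    · rw [cst_val, cst_val]
      exact h
    · rw [tpL_eq d k _ _ _ _ hr, cst_val, cst_val]
  rintro _ ⟨y, hy, rfl⟩ _ ⟨y', hy', rfl⟩
  have hc : d.c y = colL d (cst d y) := by
    rw [colL_eq (cst d y) (y := y) rfl, cst_val]
  rcases lt_trichotomy y y' with h | h | h
  · obtain ⟨h1, h2⟩ := key y hy y' hy' h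
    exact ⟨⟨fun _ => h1, fun _ => h⟩, h2, hc⟩
  · subst h
    refine ⟨⟨fun h => absurd h (lt_irrefl _), fun h => absurd h (lt_irrefl _)⟩, ?_, hc⟩
    change tp d.c k y y = tp (colL d) k (cst d y) (cst d y)
    rw [tp_of_le _ _ le_rfl, tp_of_le _ _ le_rfl]
  · obtain ⟨h1, h2⟩ := key y' hy' y hy h
    refine ⟨⟨fun h' => absurd h' (not_lt.2 h.le), fun h' => absurd h' (not_lt.2 h1.le)⟩, ?_, hc⟩
    change tp d.c k y y' = tp (colL d) k (cst d y) (cst d y')
    rw [tp_of_le _ _ h.le, tp_of_le _ _ h1.le]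

theorem datum_cst (k : ℕ) {p : ℕ} (y : Fin p → d.W)
    (hs : ∀ i j, i ≠ j → ∃ w ∈ d.W0, (y i < w ∧ w < y j) ∨ (y j < w ∧ w < y i)) :
    datum d.c ⊥ ⊤ k y = datum (colL d) (botL d) (topL d) k (fun i => cst d (y i)) := by
  let Y : Set d.W := {⊥, ⊤} ∪ Set.range y
  have hY : ∀ z ∈ Y, ∀ z' ∈ Y, z ≠ z' → ¬ SameCut d.W0 z z' := by
    have h1 : ∀ z ∈ d.W0, ∀ z', z ≠ z' → ¬ SameCut d.W0 z z' :=
      fun z hz z' hne h => hne (h.eq_of_mem hz).symm
    have hbt : ∀ z ∈ ({⊥, ⊤} : Set d.W), z ∈ d.W0 := by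
      rintro z (rfl | rfl)
      · exact d.h0.bot
      · exact d.h0.top
    rintro z (hz | ⟨i, rfl⟩) z' (hz' | ⟨j, rfl⟩) hne
    · exact h1 z (hbt z hz) z' hne
    · exact h1 z (hbt z hz) _ hne
    · exact fun h => h1 z' (hbt z' hz') _ hne.symm h.symm
    · intro h
      have hij : i ≠ j := fun e => hne (by rw [e])
      obtain ⟨w, hw, ⟨g1, g2⟩ | ⟨g1, g2⟩⟩ := hs i j hij
      · exact absurd ((h w hw).1.2 g2) (not_lt.2 g1.le)
      · exact absurd ((h w hw).1.1 g2) (not_lt.2 g1.le)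
  exact datum_eq_of_Q (Q_cst k hY) (fun i => ⟨y i, Or.inr ⟨i, rfl⟩, rfl⟩)
    ⟨⊥, Or.inl (by simp), rfl⟩ ⟨⊤, Or.inl (by simp), rfl⟩

/-- The measurable map from types to the modeling. -/
noncomputable def psi (d : Dat) (q : Sh d) : Lc d := cst d (rz d q)

theorem rz_of_notMem {q : Sh d} (h : q ∉ Set.range (ty d)) : rz d q = ⊥ := by
  unfold rz
  rw [dif_neg (show ¬ ∃ x, ty d x = q from h)]

theorem Df.measurableSet_all {R : d.W → Prop} (h : Df d R) :
    MeasurableSet {q : Sh d | R (rz d q)} := by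
  have : {q : Sh d | R (rz d q)} = {q : Sh d | q ∈ Set.range (ty d) ∧ R (rz d q)} ∪
      ((Set.range (ty d))ᶜ ∩ {q : Sh d | R ⊥}) := by
    ext q
    constructor
    · intro hq
      by_cases h : q ∈ Set.range (ty d)
      · exact Or.inl ⟨h, hq⟩
      · refine Or.inr ⟨h, ?_⟩
        have h2 : R (rz d q) := hq
        rw [rz_of_notMem h] at h2
        exact h2
    · rintro (h | ⟨h1, h2⟩)
      · exact h.2
      · change R (rz d q)
        rw [rz_of_notMem h1]
        exact h2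
  rw [this]
  exact h.measurableSet.union (measurableSet_range_ty.compl.inter (MeasurableSet.const _))

theorem cst_snd_eq_iff (y : d.W) (n : ℕ) :
    (cst d y).1.2 = n ↔ d.f n y = y ∧ ∀ j : Fin n, ¬ d.f j.1 y = y := by
  classical
  have : (cst d y).1.2 = Nat.find (d.hf.surj y y (self_mem_NN d.h0 y).1) := by
    change Nat.find _ = Nat.find _
    congr!
  rw [this, Nat.find_eq_iff]
  exact ⟨fun h => ⟨h.1, fun j => h.2 j.1 j.2⟩, fun h => ⟨h.1, fun j hj => h.2 ⟨j, hj⟩⟩⟩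

theorem measurable_psi (d : Dat) : Measurable (psi d) := by
  classical
  have h1 : Measurable (fun q : Sh d => ty d (rz d q)) := by
    have : (fun q : Sh d => ty d (rz d q)) = fun q => if q ∈ Set.range (ty d) then q else ty d ⊥ := by
      funext q
      split_ifs with h
      · exact ty_rz d h
      · rw [rz_of_notMem h]
    rw [this]
    exact Measurable.ite measurableSet_range_ty measurable_id measurable_const
  have h2 : Measurable (fun q : Sh d => (cst d (rz d q)).1.2) := by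
    refine measurable_to_countable' fun n => ?_
    have : (fun q : Sh d => (cst d (rz d q)).1.2) ⁻¹' {n} =
        {q : Sh d | d.f n (rz d q) = rz d q} ∩
        ⋂ j : Fin n, {q : Sh d | ¬ d.f j.1 (rz d q) = rz d q} := by
      ext q
      simp only [Set.mem_preimage, Set.mem_singleton_iff, Set.mem_inter_iff, Set.mem_iInter]
      rw [cst_snd_eq_iff]
      rfl
    rw [this]
    exact (Df_eq_self n).measurableSet_all.inter
      (MeasurableSet.iInter fun j => (Df_eq_self j.1).not.measurableSet_all)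
  exact Measurable.subtype_mk (f := fun q : Sh d => (ty d (rz d q), (cst d (rz d q)).1.2))
    (h1.prodMk h2)

end Pool.Agent.MP44611a
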