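import Mathlib

set_option autoImplicit false

namespace Pool.Agent.MP44611a

/-- The set of possible rank-`k` types of intervals in a coloured linear order. -/
def T : ℕ → Type
  | 0 => Unit
  | k + 1 => Set (T k × Prop × T k)

instance instFiniteT : ∀ k, Finite (T k)
  | 0 => inferInstanceAs (Finite Unit)
  | k + 1 => by
    have := instFiniteT k
    exact inferInstanceAs (Finite (Set (T k × Prop × T k)))

/-- Projection from rank `k+1` types to rank `k` types. -/
def pr : (k : ℕ) → T (k + 1) → T k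
  | 0, _ => ()
  | k + 1, s => fun (σ : T k × Prop × T k) =>
      ∃ a d b, (show Set (T (k+1) × Prop × T (k+1)) from s) (a, d, b) ∧ σ = (pr k a, d, pr k b)

theorem mem_pr_succ (k : ℕ) (s : Set (T (k+1) × Prop × T (k+1))) (σ : T k × Prop × T k) :
    σ ∈ (show Set (T k × Prop × T k) from pr (k+1) s) ↔
      ∃ a d b, (a, d, b) ∈ s ∧ σ = (pr k a, d, pr k b) := Iff.rfl

/-- Composition of types: the type of an interval obtained by concatenating an interval of type
`s`, a point of colour `c`, and an interval of type `s'`. -/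
def comp : (k : ℕ) → T k → Prop → T k → T k
  | 0, _, _, _ => ()
  | k + 1, s, c, s' => fun (σ : T k × Prop × T k) =>
      (∃ a d b, (show Set (T k × Prop × T k) from s) (a, d, b) ∧ σ = (a, d, comp k b c (pr k s'))) ∨
      σ = (pr k s, c, pr k s') ∨
      (∃ a d b, (show Set (T k × Prop × T k) from s') (a, d, b) ∧ σ = (comp k (pr k s) c a, d, b))

theorem mem_comp_succ (k : ℕ) (s s' : Set (T k × Prop × T k)) (c : Prop)
    (σ : T k × Prop × T k) :
    σ ∈ (show Set (T k × Prop × T k) from comp (k+1) s c s') ↔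
      (∃ a d b, (a, d, b) ∈ s ∧ σ = (a, d, comp k b c (pr k s'))) ∨
      σ = (pr k s, c, pr k s') ∨
      (∃ a d b, (a, d, b) ∈ s' ∧ σ = (comp k (pr k s) c a, d, b)) := Iff.rfl

theorem T_ext {k : ℕ} {s s' : Set (T k × Prop × T k)}
    (h : ∀ a d b, (a, d, b) ∈ s ↔ (a, d, b) ∈ s') : s = s' := by
  ext ⟨a, d, b⟩
  exact h a d b

theorem pr_comp : ∀ (k : ℕ) (s s' : T (k+1)) (c : Prop),
    pr k (comp (k+1) s c s') = comp k (pr k s) c (pr k s')
  | 0, _, _, _ => rfl
  | k + 1, s, s', c => by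
    change Set (T (k+1) × Prop × T (k+1)) at s s'
    refine T_ext ?_
    intro a d b
    have e1 := mem_pr_succ k (comp (k+2) s c s') (a, d, b)
    have e2 := mem_comp_succ k (pr (k+1) s) (pr (k+1) s') c (a, d, b)
    refine e1.trans (Iff.trans ?_ e2.symm)
    constructor
    · rintro ⟨a', d', b', h, h2⟩
      rcases (mem_comp_succ (k+1) s s' c _).1 h with ⟨a1, d1, b1, h3, h4⟩ | h3 | ⟨a1, d1, b1, h3, h4⟩
      · obtain ⟨rfl, rfl, rfl⟩ : a' = a1 ∧ d' = d1 ∧ b' = comp (k+1) b1 c (pr (k+1) s') := by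
          simpa [Prod.ext_iff] using h4
        left
        refine ⟨pr k a', d', pr k b1, ⟨_, _, _, h3, rfl⟩, ?_⟩
        rw [h2, pr_comp k]
      · obtain ⟨rfl, rfl, rfl⟩ : a' = pr (k+1) s ∧ d' = c ∧ b' = pr (k+1) s' := by
          simpa [Prod.ext_iff] using h3
        right; left
        exact h2
      · obtain ⟨rfl, rfl, rfl⟩ : a' = comp (k+1) (pr (k+1) s) c a1 ∧ d' = d1 ∧ b' = b1 := by
          simpa [Prod.ext_iff] using h4
        right; right
        refine ⟨pr k a1, d', pr k b', ⟨_, _, _, h3, rfl⟩, ?_⟩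
        rw [h2, pr_comp k]
    · rintro (⟨a1, d1, b1, ⟨a2, d2, b2, h3, h4⟩, h5⟩ | h3 | ⟨a1, d1, b1, ⟨a2, d2, b2, h3, h4⟩, h5⟩)
      · obtain ⟨rfl, rfl, rfl⟩ : a1 = pr k a2 ∧ d1 = d2 ∧ b1 = pr k b2 := by
          simpa [Prod.ext_iff] using h4
        refine ⟨a2, d1, comp (k+1) b2 c (pr (k+1) s'), Or.inl ⟨_, _, _, h3, rfl⟩, ?_⟩
        rw [h5, pr_comp k]
      · exact ⟨pr (k+1) s, c, pr (k+1) s', Or.inr (Or.inl rfl), h3⟩
      · obtain ⟨rfl, rfl, rfl⟩ : a1 = pr k a2 ∧ d1 = d2 ∧ b1 = pr k b2 := by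
          simpa [Prod.ext_iff] using h4
        refine ⟨comp (k+1) (pr (k+1) s) c a2, d1, b2, Or.inr (Or.inr ⟨_, _, _, h3, rfl⟩), ?_⟩
        rw [h5, pr_comp k]

theorem comp_assoc : ∀ (k : ℕ) (s s' s'' : T k) (c c' : Prop),
    comp k (comp k s c s') c' s'' = comp k s c (comp k s' c' s'')
  | 0, _, _, _, _, _ => rfl
  | k + 1, s, s', s'', c, c' => by
    change Set (T k × Prop × T k) at s s' s''
    refine T_ext ?_
    intro a d b
    have e1 := mem_comp_succ k (comp (k+1) s c s') s'' c' (a, d, b)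
    have e2 := mem_comp_succ k s (comp (k+1) s' c' s'') c (a, d, b)
    refine e1.trans (Iff.trans ?_ e2.symm)
    have p1 := pr_comp k s s' c
    have p2 := pr_comp k s' s'' c'
    constructor
    · rintro (⟨a1, d1, b1, h, h5⟩ | h3 | ⟨a1, d1, b1, h, h5⟩)
      · rcases (mem_comp_succ k s s' c _).1 h with ⟨a2, d2, b2, h3, h4⟩ | h3 | ⟨a2, d2, b2, h3, h4⟩
        · obtain ⟨rfl, rfl, rfl⟩ : a1 = a2 ∧ d1 = d2 ∧ b1 = comp k b2 c (pr k s') := by
            simpa [Prod.ext_iff] using h4
          left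
          refine ⟨_, _, _, h3, ?_⟩
          rw [h5, p2, comp_assoc k]
        · obtain ⟨rfl, rfl, rfl⟩ : a1 = pr k s ∧ d1 = c ∧ b1 = pr k s' := by
            simpa [Prod.ext_iff] using h3
          right; left
          rw [h5, p2]
        · obtain ⟨rfl, rfl, rfl⟩ : a1 = comp k (pr k s) c a2 ∧ d1 = d2 ∧ b1 = b2 := by
            simpa [Prod.ext_iff] using h4
          right; right
          exact ⟨a2, d1, comp k b1 c' (pr k s''),
            (mem_comp_succ k s' s'' c' _).2 (Or.inl ⟨_, _, _, h3, rfl⟩), h5⟩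
      · right; right
        refine ⟨pr k s', c', pr k s'', (mem_comp_succ k s' s'' c' _).2 (Or.inr (Or.inl rfl)), ?_⟩
        rw [h3, p1]
      · right; right
        refine ⟨comp k (pr k s') c' a1, d1, b1,
          (mem_comp_succ k s' s'' c' _).2 (Or.inr (Or.inr ⟨_, _, _, h, rfl⟩)), ?_⟩
        rw [h5, p1, comp_assoc k]
    · rintro (⟨a1, d1, b1, h, h5⟩ | h3 | ⟨a1, d1, b1, h, h5⟩)
      · left
        refine ⟨a1, d1, comp k b1 c (pr k s'),
          (mem_comp_succ k s s' c _).2 (Or.inl ⟨_, _, _, h, rfl⟩), ?_⟩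
        rw [h5, p2, comp_assoc k]
      · left
        refine ⟨pr k s, c, pr k s',
          (mem_comp_succ k s s' c _).2 (Or.inr (Or.inl rfl)), ?_⟩
        rw [h3, p2]
      · rcases (mem_comp_succ k s' s'' c' _).1 h with
          ⟨a2, d2, b2, h3, h4⟩ | h3 | ⟨a2, d2, b2, h3, h4⟩
        · obtain ⟨rfl, rfl, rfl⟩ : a1 = a2 ∧ d1 = d2 ∧ b1 = comp k b2 c' (pr k s'') := by
            simpa [Prod.ext_iff] using h4
          left
          exact ⟨comp k (pr k s) c a1, d1, b2,
            (mem_comp_succ k s s' c _).2 (Or.inr (Or.inr ⟨_, _, _, h3, rfl⟩)), h5⟩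
        · obtain ⟨rfl, rfl, rfl⟩ : a1 = pr k s' ∧ d1 = c' ∧ b1 = pr k s'' := by
            simpa [Prod.ext_iff] using h3
          right; left
          rw [h5, p1]
        · obtain ⟨rfl, rfl, rfl⟩ : a1 = comp k (pr k s') c' a2 ∧ d1 = d2 ∧ b1 = b2 := by
            simpa [Prod.ext_iff] using h4
          right; right
          refine ⟨a2, d1, b1, h3, ?_⟩
          rw [h5, p1, comp_assoc k]

/-- Right multiplication. -/
def rm (k : ℕ) (c : Prop) (u s : T k) : T k := comp k s c u

theorem rm_iterate_comp (k : ℕ) (c : Prop) (u s s' : T k) (c' : Prop) (n : ℕ) :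
    (rm k c u)^[n] (comp k s c' s') = comp k s c' ((rm k c u)^[n] s') := by
  induction n with
  | zero => rfl
  | succ n ih => rw [Function.iterate_succ_apply', Function.iterate_succ_apply', ih]
                 exact comp_assoc k s _ u c' c

theorem pr_rm_iterate (k : ℕ) (c : Prop) (u s : T (k+1)) (n : ℕ) :
    pr k ((rm (k+1) c u)^[n] s) = (rm k c (pr k u))^[n] (pr k s) := by
  induction n with
  | zero => rfl
  | succ n ih => rw [Function.iterate_succ_apply', Function.iterate_succ_apply', ← ih]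
                 exact pr_comp k _ u c

theorem mem_rm_iterate (k : ℕ) (c : Prop) (u s : Set (T k × Prop × T k)) (n : ℕ)
    (σ : T k × Prop × T k) :
    σ ∈ (show Set (T k × Prop × T k) from (rm (k+1) c u)^[n] s) ↔
      (∃ a d b, (a, d, b) ∈ s ∧ σ = (a, d, (rm k c (pr k u))^[n] b)) ∨
      (∃ i j, i + j + 1 = n ∧ σ = ((rm k c (pr k u))^[i] (pr k s), c,
        (rm k c (pr k u))^[j] (pr k u))) ∨
      (∃ i j, i + j + 1 = n ∧ ∃ a d b, (a, d, b) ∈ u ∧
        σ = (comp k ((rm k c (pr k u))^[i] (pr k s)) c a, d, (rm k c (pr k u))^[j] b)) := by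
  induction n generalizing σ with
  | zero =>
    constructor
    · intro h
      left
      exact ⟨σ.1, σ.2.1, σ.2.2, h, rfl⟩
    · rintro (⟨a, d, b, h, rfl⟩ | ⟨i, j, h, -⟩ | ⟨i, j, h, -⟩)
      · exact h
      · omega
      · omega
  | succ n ih =>
    have e0 : (rm (k+1) c u)^[n+1] s = comp (k+1) ((rm (k+1) c u)^[n] s) c u :=
      Function.iterate_succ_apply' (rm (k+1) c u) n s
    rw [e0]
    refine (mem_comp_succ k _ _ _ _).trans ?_
    have hp := pr_rm_iterate k c u s n
    constructor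
    · rintro (⟨a1, d1, b1, h, h5⟩ | h3 | ⟨a1, d1, b1, h, h5⟩)
      · rcases (ih _).1 h with ⟨a, d, b, h1, h2⟩ | ⟨i, j, h1, h2⟩ | ⟨i, j, h1, a, d, b, h3, h2⟩
        · obtain ⟨rfl, rfl, rfl⟩ : a1 = a ∧ d1 = d ∧ b1 = (rm k c (pr k u))^[n] b := by
            simpa [Prod.ext_iff] using h2
          left
          refine ⟨_, _, _, h1, ?_⟩
          rw [h5, Function.iterate_succ_apply']
          rfl
        · obtain ⟨rfl, rfl, rfl⟩ : a1 = (rm k c (pr k u))^[i] (pr k s) ∧ d1 = c ∧
              b1 = (rm k c (pr k u))^[j] (pr k u) := by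
            simpa [Prod.ext_iff] using h2
          right; left
          refine ⟨i, j + 1, by omega, ?_⟩
          rw [h5, Function.iterate_succ_apply']
          rfl
        · obtain ⟨rfl, rfl, rfl⟩ : a1 = comp k ((rm k c (pr k u))^[i] (pr k s)) c a ∧ d1 = d ∧
              b1 = (rm k c (pr k u))^[j] b := by
            simpa [Prod.ext_iff] using h2
          right; right
          refine ⟨i, j + 1, by omega, _, _, _, h3, ?_⟩
          rw [h5, Function.iterate_succ_apply' _ j]
          rfl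
      · right; left
        refine ⟨n, 0, by omega, ?_⟩
        rw [h3, hp]
        rfl
      · right; right
        refine ⟨n, 0, by omega, _, _, _, h, ?_⟩
        rw [h5, hp]
        rfl
    · rintro (⟨a, d, b, h1, h2⟩ | ⟨i, j, h1, h2⟩ | ⟨i, j, h1, a, d, b, h3, h2⟩)
      · left
        refine ⟨a, d, (rm k c (pr k u))^[n] b, (ih _).2 (Or.inl ⟨_, _, _, h1, rfl⟩), ?_⟩
        rw [h2, Function.iterate_succ_apply']
        rfl
      · rcases j with _ | j
        · right; left
          rw [h2, hp]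
          obtain rfl : i = n := by omega
          rfl
        · left
          refine ⟨_, _, (rm k c (pr k u))^[j] (pr k u),
            (ih _).2 (Or.inr (Or.inl ⟨i, j, by omega, rfl⟩)), ?_⟩
          rw [h2, Function.iterate_succ_apply']
          rfl
      · rcases j with _ | j
        · right; right
          refine ⟨_, _, _, h3, ?_⟩
          rw [h2, hp]
          obtain rfl : i = n := by omega
          rfl
        · left
          refine ⟨_, _, (rm k c (pr k u))^[j] b,
            (ih _).2 (Or.inr (Or.inr ⟨i, j, by omega, _, _, _, h3, rfl⟩)), ?_⟩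
          rw [h2, Function.iterate_succ_apply' _ j]
          rfl

/-- Aperiodicity of the finite monoids of types. -/
theorem rm_aperiodic : ∀ k : ℕ, ∃ N : ℕ, ∀ (c : Prop) (u s : T k) (n : ℕ), N ≤ n →
    (rm k c u)^[n + 1] s = (rm k c u)^[n] s
  | 0 => ⟨0, fun _ _ _ _ _ => rfl⟩
  | k + 1 => by
    obtain ⟨N, hN⟩ := rm_aperiodic k
    refine ⟨2 * N + 1, fun c u s n hn => ?_⟩
    change Set (T k × Prop × T k) at u s
    refine T_ext ?_
    intro a d b
    refine (mem_rm_iterate k c u s (n+1) _).trans (Iff.trans ?_ (mem_rm_iterate k c u s n _).symm)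
    have hN' := hN c (pr k u)
    refine or_congr ?_ (or_congr ?_ ?_)
    · constructor
      · rintro ⟨a1, d1, b1, h, h2⟩
        exact ⟨a1, d1, b1, h, by rw [h2, hN' _ n (by omega)]⟩
      · rintro ⟨a1, d1, b1, h, h2⟩
        exact ⟨a1, d1, b1, h, by rw [h2, hN' _ n (by omega)]⟩
    · constructor
      · rintro ⟨i, j, h, h2⟩
        by_cases hi : N < i
        · obtain ⟨i, rfl⟩ : ∃ i', i = i' + 1 := ⟨i - 1, by omega⟩
          exact ⟨i, j, by omega, by rw [h2, hN' _ i (by omega)]⟩
        · obtain ⟨j, rfl⟩ : ∃ j', j = j' + 1 := ⟨j - 1, by omega⟩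
          exact ⟨i, j, by omega, by rw [h2, hN' _ j (by omega)]⟩
      · rintro ⟨i, j, h, h2⟩
        by_cases hi : N ≤ i
        · exact ⟨i + 1, j, by omega, by rw [h2, hN' _ i (by omega)]⟩
        · exact ⟨i, j + 1, by omega, by rw [h2, hN' _ j (by omega)]⟩
    · constructor
      · rintro ⟨i, j, h, a1, d1, b1, h1, h2⟩
        by_cases hi : N < i
        · obtain ⟨i, rfl⟩ : ∃ i', i = i' + 1 := ⟨i - 1, by omega⟩
          exact ⟨i, j, by omega, a1, d1, b1, h1, by rw [h2, hN' _ i (by omega)]⟩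
        · obtain ⟨j, rfl⟩ : ∃ j', j = j' + 1 := ⟨j - 1, by omega⟩
          exact ⟨i, j, by omega, a1, d1, b1, h1, by rw [h2, hN' _ j (by omega)]⟩
      · rintro ⟨i, j, h, a1, d1, b1, h1, h2⟩
        by_cases hi : N ≤ i
        · exact ⟨i + 1, j, by omega, a1, d1, b1, h1, by rw [h2, hN' _ i (by omega)]⟩
        · exact ⟨i, j + 1, by omega, a1, d1, b1, h1, by rw [h2, hN' _ j (by omega)]⟩

/-- The (reflexive) relation of being below in the sense of right ideals. -/
def LeR (k : ℕ) (p p' : T k) : Prop := p = p' ∨ ∃ c u, p = comp k p' c u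

/-- The (reflexive) relation of being below in the sense of left ideals. -/
def LeL (k : ℕ) (p p' : T k) : Prop := p = p' ∨ ∃ c u, p = comp k u c p'

theorem LeR.refl {k : ℕ} (p : T k) : LeR k p p := Or.inl rfl
theorem LeL.refl {k : ℕ} (p : T k) : LeL k p p := Or.inl rfl

theorem LeR.trans {k : ℕ} {p q r : T k} (h1 : LeR k p q) (h2 : LeR k q r) : LeR k p r := by
  rcases h1 with rfl | ⟨c, u, rfl⟩
  · exact h2
  rcases h2 with rfl | ⟨c', u', rfl⟩
  · exact Or.inr ⟨c, u, rfl⟩
  · exact Or.inr ⟨c', comp k u' c u, comp_assoc k _ _ _ _ _⟩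

theorem LeL.trans {k : ℕ} {p q r : T k} (h1 : LeL k p q) (h2 : LeL k q r) : LeL k p r := by
  rcases h1 with rfl | ⟨c, u, rfl⟩
  · exact h2
  rcases h2 with rfl | ⟨c', u', rfl⟩
  · exact Or.inr ⟨c, u, rfl⟩
  · exact Or.inr ⟨c', comp k u c u', (comp_assoc k _ _ _ _ _).symm⟩

theorem leR_comp {k : ℕ} (p : T k) (c : Prop) (u : T k) : LeR k (comp k p c u) p :=
  Or.inr ⟨c, u, rfl⟩

theorem leL_comp {k : ℕ} (p : T k) (c : Prop) (u : T k) : LeL k (comp k u c p) p :=
  Or.inr ⟨c, u, rfl⟩

/-- Triviality of `H`-classes, in the form we need. -/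
theorem eq_of_leR_of_leL {k : ℕ} {p p' : T k} (h1 : LeR k p p') (h2 : LeL k p' p) : p = p' := by
  rcases h1 with rfl | ⟨c, u, h1⟩
  · rfl
  rcases h2 with rfl | ⟨d, m, h2⟩
  · rfl
  obtain ⟨N, hN⟩ := rm_aperiodic k
  -- `p' = m d p' c u`, so `p' = X^n (Y^n p')`
  let X : T k → T k := fun s => comp k m d s
  have key : ∀ n, p' = X^[n] ((rm k c u)^[n] p') := by
    intro n
    induction n with
    | zero => rfl
    | succ n ih =>
      have e1 : p' = X (rm k c u p') := by
        change p' = comp k m d (comp k p' c u)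
        rw [← h1, ← h2]
      have e2 : ∀ n s, (rm k c u)^[n] (X s) = X ((rm k c u)^[n] s) := by
        intro n s
        exact rm_iterate_comp k c u m s d n
      have e3 : ∀ n s, rm k c u (X^[n] s) = X^[n] (rm k c u s) := by
        intro n
        induction n with
        | zero => intro s; rfl
        | succ n ih2 => intro s
                        rw [Function.iterate_succ_apply, ih2, Function.iterate_succ_apply]
                        have := e2 1 s
                        simp only [Function.iterate_one] at this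
                        rw [this]
      rw [Function.iterate_succ_apply', Function.iterate_succ_apply']
      have e4 : X ((rm k c u) (X^[n] ((rm k c u)^[n] p'))) =
          X (X^[n] (rm k c u ((rm k c u)^[n] p'))) := by rw [e3]
      rw [← e4, ← ih, ← e1]
  have e3 : ∀ n s, rm k c u (X^[n] s) = X^[n] (rm k c u s) := by
    intro n
    induction n with
    | zero => intro s; rfl
    | succ n ih2 =>
      intro s
      rw [Function.iterate_succ_apply, ih2, Function.iterate_succ_apply]
      have := rm_iterate_comp k c u m s d 1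
      simp only [Function.iterate_one] at this
      change X^[n] (rm k c u (comp k m d s)) = _
      rw [this]
  have : rm k c u p' = p' := by
    conv_lhs => rw [key N]
    rw [e3, ← Function.iterate_succ_apply' (rm k c u), hN c u p' N le_rfl, ← key N]
  rw [h1]
  exact this

section tp

variable {A : Type} [LinearOrder A] (c : A → Prop)

/-- The rank `k` type of the open interval `(x, y)` of the coloured linear order `(A, c)`. -/
def tp : (k : ℕ) → A → A → T k
  | 0, _, _ => ()
  | k + 1, x, y => fun (σ : T k × Prop × T k) =>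
      ∃ z, x < z ∧ z < y ∧ σ = (tp k x z, c z, tp k z y)

theorem mem_tp_succ (k : ℕ) (x y : A) (σ : T k × Prop × T k) :
    σ ∈ (show Set (T k × Prop × T k) from tp c (k+1) x y) ↔
      ∃ z, x < z ∧ z < y ∧ σ = (tp c k x z, c z, tp c k z y) := Iff.rfl

theorem pr_tp : ∀ (k : ℕ) (x y : A), pr k (tp c (k+1) x y) = tp c k x y
  | 0, _, _ => rfl
  | k + 1, x, y => by
    refine T_ext ?_
    intro a d b
    refine (mem_pr_succ k (tp c (k+2) x y) (a, d, b)).trans
      (Iff.trans ?_ (mem_tp_succ c k x y _).symm)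
    constructor
    · rintro ⟨a1, d1, b1, ⟨z, h1, h2, h3⟩, h4⟩
      obtain ⟨rfl, rfl, rfl⟩ : a1 = tp c (k+1) x z ∧ d1 = c z ∧ b1 = tp c (k+1) z y := by
        simpa [Prod.ext_iff] using h3
      exact ⟨z, h1, h2, by rw [h4, pr_tp k, pr_tp k]⟩
    · rintro ⟨z, h1, h2, h3⟩
      exact ⟨_, _, _, ⟨z, h1, h2, rfl⟩, by rw [h3, pr_tp k, pr_tp k]⟩

/-- Types of intervals determine types of lower rank. -/
theorem tp_mono {B : Type} [LinearOrder B] (c' : B → Prop) {k l : ℕ} (hkl : k ≤ l) {x y : A}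
    {x' y' : B} (h : tp c l x y = tp c' l x' y') : tp c k x y = tp c' k x' y' := by
  induction hkl with
  | refl => exact h
  | step _ ih =>
    apply ih
    have h2 := congrArg (pr _) h
    exact (pr_tp c _ x y).symm.trans (h2.trans (pr_tp c' _ x' y'))

theorem tp_comp : ∀ (k : ℕ) {x z y : A}, x < z → z < y →
    tp c k x y = comp k (tp c k x z) (c z) (tp c k z y)
  | 0, _, _, _, _, _ => rfl
  | k + 1, x, z, y, hxz, hzy => by
    refine T_ext ?_
    intro a d b
    refine (mem_tp_succ c k x y _).trans (Iff.trans ?_ (mem_comp_succ k _ _ _ _).symm)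
    rw [pr_tp, pr_tp]
    constructor
    · rintro ⟨u, h1, h2, h3⟩
      rcases lt_trichotomy u z with h | h | h
      · left
        exact ⟨_, _, _, ⟨u, h1, h, rfl⟩, by rw [h3, tp_comp k h hzy]⟩
      · subst h
        right; left
        exact h3
      · right; right
        exact ⟨_, _, _, ⟨u, h, h2, rfl⟩, by rw [h3, tp_comp k hxz h]⟩
    · rintro (⟨a1, d1, b1, ⟨u, h1, h2, h3⟩, h4⟩ | h3 | ⟨a1, d1, b1, ⟨u, h1, h2, h3⟩, h4⟩)
      · obtain ⟨rfl, rfl, rfl⟩ : a1 = tp c k x u ∧ d1 = c u ∧ b1 = tp c k u z := by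
          simpa [Prod.ext_iff] using h3
        exact ⟨u, h1, h2.trans hzy, by rw [h4, tp_comp k h2 hzy]⟩
      · exact ⟨z, hxz, hzy, h3⟩
      · obtain ⟨rfl, rfl, rfl⟩ : a1 = tp c k z u ∧ d1 = c u ∧ b1 = tp c k u y := by
          simpa [Prod.ext_iff] using h3
        exact ⟨u, hxz.trans h1, h2, by rw [h4, tp_comp k hxz h1]⟩

/-- The type of the empty interval. -/
def emp : (k : ℕ) → T k
  | 0 => ()
  | k + 1 => (∅ : Set (T k × Prop × T k))

theorem tp_of_le (k : ℕ) {x y : A} (h : y ≤ x) : tp c k x y = emp k := by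
  cases k with
  | zero => rfl
  | succ k =>
    refine T_ext ?_
    intro a d b
    refine (mem_tp_succ c k x y _).trans ?_
    constructor
    · rintro ⟨z, h1, h2, -⟩
      exact absurd (h1.trans h2) (not_lt.2 h)
    · intro h
      exact absurd h (Set.notMem_empty _)

theorem leR_tp {k : ℕ} {x y z : A} (hxy : x < y) (hyz : y ≤ z) :
    LeR k (tp c k x z) (tp c k x y) := by
  rcases hyz.eq_or_lt with rfl | h
  · exact LeR.refl _
  · rw [tp_comp c k hxy h]
    exact leR_comp _ _ _

theorem leL_tp {k : ℕ} {x y z : A} (hxy : x ≤ y) (hyz : y < z) :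
    LeL k (tp c k x z) (tp c k y z) := by
  rcases hxy.eq_or_lt with rfl | h
  · exact LeL.refl _
  · rw [tp_comp c k h hyz]
    exact leL_comp _ _ _

end tp

end Pool.Agent.MP44611a
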