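import Pool.Agent.Work.MP_44611a_h50.Blocks

set_option autoImplicit false
set_option linter.unusedSectionVars false
set_option linter.unusedVariables false

namespace Pool.Agent.MP44611a

variable {W : Type} [LinearOrder W] [BoundedOrder W] (c : W → Prop)

/-- The block of `x`. -/
def NN (W0 : Set W) (x : W) : Set W := {m | m ∈ MM c W0 x ∧ SameCut W0 m x}

/-- The block of `x` is below the block of `y`. -/
def Nlt (W0 : Set W) (x y : W) : Prop := ∀ f ∈ NN c W0 x, ∀ g ∈ NN c W0 y, f < g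

/-- `x` and `x'` have the same type over `W0`. -/
def SameType (W0 : Set W) (x x' : W) : Prop :=
  c x = c x' ∧ ∀ w ∈ W0, ∀ k, Rel c k w x x'

variable {c}

theorem SameType.refl (W0 : Set W) (x : W) : SameType c W0 x x :=
  ⟨rfl, fun _ _ _ => Rel.refl _ _ _⟩

theorem SameType.symm {W0 : Set W} {x y : W} (h : SameType c W0 x y) : SameType c W0 y x :=
  ⟨h.1.symm, fun w hw k => (h.2 w hw k).symm⟩

theorem SameType.trans {W0 : Set W} {x y z : W} (h : SameType c W0 x y)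
    (h' : SameType c W0 y z) : SameType c W0 x z :=
  ⟨h.1.trans h'.1, fun w hw k => (h.2 w hw k).trans (h'.2 w hw k)⟩

theorem SameType.sameCut {W0 : Set W} {x y : W} (h : SameType c W0 x y) : SameCut W0 x y :=
  fun w hw => ⟨(h.2 w hw 0).1, (h.2 w hw 0).2.1⟩

section basic

variable {W0 : Set W} (h0 : Cl c W0)

include h0

theorem self_mem_NN (x : W) : x ∈ NN c W0 x := ⟨self_mem_MM h0 x, SameCut.refl _ _⟩

theorem NN_subset_MM (x : W) : NN c W0 x ⊆ MM c W0 x := fun _ h => h.1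

theorem mem_NN_of_mem_MM {x m : W} (hm : m ∈ MM c W0 x) (hm0 : m ∉ W0) : m ∈ NN c W0 x :=
  ⟨hm, sameCut_of_mem_MM h0 hm hm0⟩

theorem notMem_of_mem_NN {x m : W} (hx : x ∉ W0) (hm : m ∈ NN c W0 x) : m ∉ W0 :=
  hm.2.symm.notMem hx

theorem eq_of_mem_NN {x m : W} (hx : x ∈ W0) (hm : m ∈ NN c W0 x) : m = x :=
  hm.2.symm.eq_of_mem hx

theorem Nlt.lt {x y : W} (h : Nlt c W0 x y) : x < y :=
  h x (self_mem_NN h0 x) y (self_mem_NN h0 y)

theorem Nlt_of_notSameCut {x y : W} (hxy : x < y) (hc : ¬ SameCut W0 x y) : Nlt c W0 x y := by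
  obtain ⟨w, hw, h1, h2⟩ : ∃ w ∈ W0, x ≤ w ∧ w ≤ y := by
    by_contra h
    push Not at h
    exact hc (sameCut_of_between hxy.le fun w hw hh => absurd hh.2 (not_le.2 (h w hw hh.1)))
  intro f hf g hg
  by_contra hgf
  rw [not_lt] at hgf
  have h3 : f ≤ w := not_lt.1 fun h => absurd ((hf.2 w hw).1.1 h) (not_lt.2 h1)
  have h4 : w ≤ g := not_lt.1 fun h => absurd ((hg.2 w hw).2.1 h) (not_lt.2 h2)
  have h5 : f = w := le_antisymm h3 (h4.trans hgf)
  have h6 : g = w := le_antisymm (hgf.trans h3) h4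
  have h7 : x = f := hf.2.eq_of_mem (h5 ▸ hw)
  have h8 : y = g := hg.2.eq_of_mem (h6 ▸ hw)
  rw [h7, h8, h5, h6] at hxy
  exact lt_irrefl _ hxy

theorem Nlt.trans {x y z : W} (h : Nlt c W0 x y) (h' : Nlt c W0 y z) : Nlt c W0 x z :=
  fun f hf g hg => (h f hf y (self_mem_NN h0 y)).trans (h' y (self_mem_NN h0 y) g hg)

end basic

section main

variable (hW : PF c) {W0 : Set W} (h0 : Cl c W0)

include hW h0

theorem Nlt_of_lt_block {x y : W} (hx : x ∉ W0) (hy : y ∉ W0) (hc : SameCut W0 x y)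
    (hlt : ∀ b ∈ MM c W0 y, b ∉ W0 → x < b) : Nlt c W0 x y := by
  intro f hf g hg
  exact blockN hW h0 hx hy hc hlt f hf.1 (notMem_of_mem_NN h0 hx hf) g hg.1
    (notMem_of_mem_NN h0 hy hg)

theorem Nlt.forall {x y : W} (h : Nlt c W0 x y) (hx : x ∉ W0) (hy : y ∉ W0) :
    ∀ f ∈ MM c W0 x, f ∉ W0 → ∀ g ∈ MM c W0 y, g ∉ W0 → f < g :=
  fun f hf hf0 g hg hg0 => h f (mem_NN_of_mem_MM h0 hf hf0) g (mem_NN_of_mem_MM h0 hg hg0)

/-- Uniqueness of the type of a pair of points with separated blocks. -/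
theorem typeU {x y x' y' : W} (hN : Nlt c W0 x y) (hN' : Nlt c W0 x' y')
    (hx : SameType c W0 x x') (hy : SameType c W0 y y') (k : ℕ) :
    tp c k x y = tp c k x' y' := by
  have hxy := hN.lt h0
  have hxy' := hN'.lt h0
  by_cases hw : ∃ w ∈ W0, x ≤ w ∧ w ≤ y
  · obtain ⟨w, hw, h1, h2⟩ := hw
    rcases h1.eq_or_lt with rfl | h1
    · have := (hx.2 x hw k).eq_of_mem
      rw [this]
      exact (hy.2 x hw k).2.2.1
    · rcases h2.eq_or_lt with rfl | h2
      · have := (hy.2 w hw k).eq_of_mem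
        rw [this]
        exact (hx.2 w hw k).2.2.2
      · have e1 := hx.2 w hw k
        have e2 := hy.2 w hw k
        rw [tp_comp c k h1 h2, tp_comp c k (e1.2.1.1 h1) (e2.1.1 h2), e1.2.2.2, e2.2.2.1]
  · push Not at hw
    have hx0 : x ∉ W0 := fun h => absurd (hw x h le_rfl) (not_lt.2 hxy.le)
    have hy0 : y ∉ W0 := fun h => absurd (hw y h hxy.le) (lt_irrefl _)
    have hx0' := hx.sameCut.notMem hx0
    have hy0' := hy.sameCut.notMem hy0
    obtain ⟨v, hv, hyv, hr⟩ := uR hW h0 hx0 hy0 (hN.forall hW h0 hx0 hy0) k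
      (self_mem_MM h0 x) hx0 (self_mem_MM h0 y) hy0
    obtain ⟨w, hw, hwx, hl⟩ := uL hW h0 hx0' hy0' (hN'.forall hW h0 hx0' hy0') k
      (self_mem_MM h0 x') hx0' (self_mem_MM h0 y') hy0'
    apply eq_of_leR_of_leL
    · refine hr.trans ?_
      rw [(hx.2 v hv k).2.2.2]
      exact leR_tp c hxy' ((hy.sameCut v hv).2.1 hyv).le
    · refine hl.trans ?_
      rw [← (hy.2 w hw k).2.2.1]
      exact leL_tp c ((hx.sameCut w hw).1.2 hwx).le hxy

/-- The union of two separated blocks and `W0` is elementary. -/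
theorem between {x y : W} (hN : Nlt c W0 x y) (k : ℕ) {a b z : W}
    (ha : a ∈ MM c W0 x ∪ MM c W0 y) (hb : b ∈ MM c W0 x ∪ MM c W0 y) (haz : a < z)
    (hzb : z < b) : ∃ z' ∈ MM c W0 x ∪ MM c W0 y, a < z' ∧ z' < b ∧
      tp c k a z' = tp c k a z ∧ c z' = c z ∧ tp c k z' b = tp c k z b := by
  have hCx := cl_MM h0 x
  have hCy := cl_MM h0 y
  have key : ∀ M, Cl c M → M ⊆ MM c W0 x ∪ MM c W0 y → a ∈ M → b ∈ M →
      ∃ z' ∈ MM c W0 x ∪ MM c W0 y, a < z' ∧ z' < b ∧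
      tp c k a z' = tp c k a z ∧ c z' = c z ∧ tp c k z' b = tp c k z b := by
    intro M hM hMs ha hb
    obtain ⟨z', hz', h1, h2, -, h3⟩ := hM.between hW k ha hb haz hzb
    rw [QP_iff] at h3
    exact ⟨z', hMs hz', h1, h2, (h3.2 a (by simp)).2.2.1.symm, h3.1.symm,
      (h3.2 b (by simp)).2.2.2.symm⟩
  have hWx := W0_subset_MM (c := c) h0 x
  have hWy := W0_subset_MM (c := c) h0 y
  by_cases hax : a ∈ MM c W0 x
  · by_cases hbx : b ∈ MM c W0 x
    · exact key _ hCx Set.subset_union_left hax hbx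
    by_cases hay : a ∈ MM c W0 y
    · exact key _ hCy Set.subset_union_right hay (hb.resolve_left hbx)
    have hby : b ∈ MM c W0 y := hb.resolve_left hbx
    have ha0 : a ∉ W0 := fun h => hay (hWy h)
    have hb0 : b ∉ W0 := fun h => hbx (hWx h)
    have haN := mem_NN_of_mem_MM h0 hax ha0
    have hbN := mem_NN_of_mem_MM h0 hby hb0
    have hx0 : x ∉ W0 := fun h => ha0 (by rw [MM_of_mem h0 h] at hax; exact hax)
    have hy0 : y ∉ W0 := fun h => hb0 (by rw [MM_of_mem h0 h] at hby; exact hby)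
    -- case (i)
    by_cases h1 : ∃ a' ∈ MM c W0 x, z ≤ a' ∧ a' < b
    · obtain ⟨a', ha', h1, h2⟩ := h1
      rcases h1.eq_or_lt with rfl | h1
      · exact ⟨z, Or.inl ha', haz, hzb, rfl, rfl, rfl⟩
      · obtain ⟨z', hz', h3, h4, -, h5⟩ := hCx.between hW k hax ha' haz h1
        rw [QP_iff] at h5
        refine ⟨z', Or.inl hz', h3, h4.trans h2, (h5.2 a (by simp)).2.2.1.symm, h5.1.symm, ?_⟩
        rw [tp_comp c k h4 h2, tp_comp c k h1 h2, (h5.2 a' (by simp)).2.2.2]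
    by_cases h2 : ∃ b' ∈ MM c W0 y, b' ≤ z ∧ a < b'
    · obtain ⟨b', hb', h2, h1⟩ := h2
      rcases h2.eq_or_lt with rfl | h2
      · exact ⟨b', Or.inr hb', haz, hzb, rfl, rfl, rfl⟩
      · obtain ⟨z', hz', h3, h4, -, h5⟩ := hCy.between hW k hb' hby h2 hzb
        rw [QP_iff] at h5
        refine ⟨z', Or.inr hz', h1.trans h3, h4, ?_, h5.1.symm, (h5.2 b (by simp)).2.2.2.symm⟩
        rw [tp_comp c k h1 h3, tp_comp c k h1 h2, (h5.2 b' (by simp)).2.2.1]
    push Not at h1 h2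
    have h1' : ∀ a' ∈ MM c W0 x, a' < b → a' < z := fun a' ha' h =>
      not_le.1 fun h' => absurd h (not_lt.2 (h1 a' ha' h'))
    have h2' : ∀ b' ∈ MM c W0 y, a < b' → z < b' := fun b' hb' h =>
      not_le.1 fun h' => absurd h (not_lt.2 (h2 b' hb' h'))
    have hnw : ∀ w ∈ W0, ¬ (a ≤ w ∧ w ≤ b) := by
      rintro w hw ⟨h3, h4⟩
      have h3' : a < w := lt_of_le_of_ne h3 fun e => ha0 (e ▸ hw)
      have h4' : w < b := lt_of_le_of_ne h4 fun e => hb0 (e ▸ hw)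
      exact lt_irrefl _ ((h1' w (hWx hw) h4').trans (h2' w (hWy hw) h3'))
    have hz0 : z ∉ W0 := fun h => hnw z h ⟨haz.le, hzb.le⟩
    have hcab : SameCut W0 a b := sameCut_of_between (haz.trans hzb).le hnw
    have hcaz : SameCut W0 a z := hcab.conv haz.le hzb.le
    have hczy : SameCut W0 z y := hcaz.symm.trans (hcab.trans hbN.2)
    have hzN : Nlt c W0 z y := by
      refine Nlt_of_lt_block hW h0 hz0 hy0 hczy ?_
      intro b' hb' hb0'
      exact h2' b' hb' (hN a haN b' (mem_NN_of_mem_MM h0 hb' hb0'))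
    obtain ⟨v, hv, hbv, hr⟩ := uR hW h0 hz0 hy0 (hzN.forall hW h0 hz0 hy0) k
      (self_mem_MM h0 z) hz0 hby hb0
    obtain ⟨z', hz', h3, h4, h5, h6⟩ := hCx.between hW k hax (hWx hv) haz (hzb.trans hbv)
    rw [QP_iff] at h6
    have hz'b : z' < b := h5.trans_lt hzb
    have hz'0 : z' ∉ W0 := fun h => hnw z' h ⟨h3.le, hz'b.le⟩
    obtain ⟨w, hw, hwz, hl⟩ := uL hW h0 hx0 hy0 (hN.forall hW h0 hx0 hy0) k
      hz' hz'0 hby hb0
    refine ⟨z', Or.inl hz', h3, hz'b, (h6.2 a (by simp)).2.2.1.symm, h6.1.symm, ?_⟩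
    symm
    apply eq_of_leR_of_leL
    · refine hr.trans ?_
      rw [(h6.2 v (by simp)).2.2.2]
      exact leR_tp c hz'b hbv.le
    · exact hl.trans (leL_tp c (hwz.trans_le h5).le hzb)
  · have hay : a ∈ MM c W0 y := ha.resolve_left hax
    by_cases hby : b ∈ MM c W0 y
    · exact key _ hCy Set.subset_union_right hay hby
    have hbx : b ∈ MM c W0 x := hb.resolve_right hby
    have ha0 : a ∉ W0 := fun h => hax (hWx h)
    have hb0 : b ∉ W0 := fun h => hby (hWy h)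
    exact absurd (haz.trans hzb) (not_lt.2 (hN b (mem_NN_of_mem_MM h0 hbx hb0) a
      (mem_NN_of_mem_MM h0 hay ha0)).le)

/-- Existence of a realization of a given type with block below a given block. -/
theorem exists_below (hcW : W0.Countable) {x0 y : W} (hx0 : x0 ∉ W0) (hy : y ∉ W0)
    (hc : SameCut W0 x0 y) : ∃ x, SameType c W0 x0 x ∧ Nlt c W0 x y := by
  have hcM : (MM c W0 y).Countable := countable_dcl (hcW.insert y)
  let 𝒟 : Set (Set W) := (fun p : W × ℕ => {z | QP c p.2 {p.1} x0 z}) '' (W0 ×ˢ Set.univ) ∪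
    (fun b => Set.Iio b) '' (MM c W0 y \ W0)
  have h𝒟 : 𝒟.Countable :=
    ((hcW.prod Set.countable_univ).image _).union ((hcM.mono Set.sdiff_subset).image _)
  have hne : 𝒟.Nonempty := ⟨_, Or.inl ⟨(⊥, 0), ⟨h0.bot, trivial⟩, rfl⟩⟩
  obtain ⟨D, hD⟩ := h𝒟.exists_eq_range hne
  have hDm : ∀ n, D n ∈ 𝒟 := fun n => hD ▸ ⟨n, rfl⟩
  have hfip : ∀ n, ∃ P ⊆ W0, P.Finite ∧ ∃ K, ∀ i ≤ n, ∀ z ∈ W0, z < x0 → QP c K P x0 z →
      z ∈ D i := by
    have step : ∀ n, ∃ P ⊆ W0, P.Finite ∧ ∃ K, ∀ z ∈ W0, z < x0 → QP c K P x0 z → z ∈ D n := by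
      intro n
      rcases hDm n with ⟨⟨w, k⟩, ⟨hw, -⟩, e⟩ | ⟨b, ⟨hb, hb0⟩, e⟩
      · refine ⟨{w}, by simpa using hw, Set.finite_singleton w, k, fun z _ _ hz => ?_⟩
        rw [← e]
        exact hz
      · refine ⟨∅, Set.empty_subset _, Set.finite_empty, 0, fun z hz hz0 _ => ?_⟩
        rw [← e]
        have h1 : SameCut W0 b y := sameCut_of_mem_MM h0 hb hb0
        exact (h1 z hz).1.2 ((hc z hz).1.1 hz0)
    intro n
    induction n with
    | zero =>
      obtain ⟨P, hP, hPf, K, h⟩ := step 0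
      refine ⟨P, hP, hPf, K, fun i hi => ?_⟩
      obtain rfl : i = 0 := by omega
      exact h
    | succ n ih =>
      obtain ⟨P, hP, hPf, K, h⟩ := ih
      obtain ⟨P', hP', hPf', K', h'⟩ := step (n+1)
      refine ⟨P ∪ P', Set.union_subset hP hP', hPf.union hPf', max K K', fun i hi z hz hz0 hq => ?_⟩
      rcases Nat.le_succ_iff.1 hi with hi | hi
      · exact h i hi z hz hz0 (hq.mono (le_max_left _ _) Set.subset_union_left)
      · subst hi
        exact h' z hz hz0 (hq.mono (le_max_right _ _) Set.subset_union_right)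
  obtain ⟨x, hx⟩ := hW.sat D (by
      intro n
      rcases hDm n with ⟨⟨w, k⟩, ⟨hw, -⟩, e⟩ | ⟨b, ⟨hb, hb0⟩, e⟩
      · exact ⟨{w}, Set.finite_singleton w, k, e ▸ inv_QP k _ x0⟩
      · refine ⟨{b}, Set.finite_singleton b, 0, e ▸ ?_⟩
        intro z z' hz hz'
        exact ((QP_iff.1 hz).2 b (Set.mem_singleton b)).2.1.1 hz') (by
      intro n
      obtain ⟨P, hP, hPf, K, h⟩ := hfip n
      obtain ⟨m, hm⟩ := hW.least P hPf K {z' | QP c K P x0 z'} (inv_QP K _ x0)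
        ⟨x0, QP.refl _ _ _⟩
      have hmW := h0.mem_least hPf hP (inv_QP K _ x0) hm
      refine ⟨m, fun i hi => h i hi m hmW ?_ hm.1⟩
      exact lt_of_le_of_ne (hm.2 (QP.refl _ _ _)) fun e => hx0 (e ▸ hmW))
  have hxT : SameType c W0 x0 x := by
    have key : ∀ w ∈ W0, ∀ k, QP c k {w} x0 x := by
      intro w hw k
      have : {z | QP c k {w} x0 z} ∈ 𝒟 := Or.inl ⟨(w, k), ⟨hw, trivial⟩, rfl⟩
      rw [hD] at this
      obtain ⟨n, hn⟩ := this
      have := hx n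
      rw [hn] at this
      exact this
    refine ⟨(QP_iff.1 (key ⊥ h0.bot 0)).1, fun w hw k => ?_⟩
    exact (QP_iff.1 (key w hw k)).2 w (Set.mem_singleton w)
  refine ⟨x, hxT, ?_⟩
  refine Nlt_of_lt_block hW h0 (hxT.sameCut.notMem hx0) hy (hxT.sameCut.symm.trans hc) ?_
  intro b hb hb0
  have : Set.Iio b ∈ 𝒟 := Or.inr ⟨b, ⟨hb, hb0⟩, rfl⟩
  rw [hD] at this
  obtain ⟨n, hn⟩ := this
  have := hx n
  rw [hn] at this
  exact this

end main

end Pool.Agent.MP44611a
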