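import Pool.Agent.Work.MP_44611a_h50.Borel2

set_option autoImplicit false
set_option linter.unusedSectionVars false
set_option linter.unusedVariables false

namespace Pool.Agent.MP44611a

open Filter

variable (U : Ultrafilter ℕ) (A : ℕ → Type)

/-- Equality almost everywhere. -/
def uSetoid : Setoid (∀ n, A n) where
  r x y := ∀ᶠ n in (U : Filter ℕ), x n = y n
  iseqv :=
    { refl := fun x => Eventually.of_forall fun _ => rfl
      symm := fun h => h.mono fun _ h => h.symm
      trans := fun h h' => h.mp (h'.mono fun _ h1 h2 => h2.trans h1) }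

/-- The ultraproduct. -/
def UP : Type := Quotient (uSetoid U A)

variable {A}

/-- The class of a sequence. -/
def UP.mk (x : ∀ n, A n) : UP U A := Quotient.mk (uSetoid U A) x

variable {U}

theorem UP.ind {P : UP U A → Prop} (h : ∀ x : ∀ n, A n, P (UP.mk U x)) (z : UP U A) : P z :=
  Quotient.inductionOn z h

theorem UP.mk_eq {x y : ∀ n, A n} : UP.mk U x = UP.mk U y ↔ ∀ᶠ n in (U : Filter ℕ), x n = y n := by
  constructor
  · intro h
    exact Quotient.exact h
  · intro h
    exact Quotient.sound h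

/-- A representative. -/
noncomputable def UP.rep (z : UP U A) : ∀ n, A n := Quotient.out z

theorem UP.mk_rep (z : UP U A) : UP.mk U z.rep = z := Quotient.out_eq z

theorem UP.exists_mk (z : UP U A) : ∃ x, UP.mk U x = z := ⟨z.rep, UP.mk_rep z⟩

variable [∀ n, LinearOrder (A n)]

/-- Strict order of the ultraproduct. -/
def UP.ltU (x y : UP U A) : Prop :=
  Quotient.liftOn₂ x y (fun x y => ∀ᶠ n in (U : Filter ℕ), x n < y n) (by
    intro a b a' b' h1 h2
    apply propext
    constructor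
    · intro h
      filter_upwards [h, h1, h2] with n h h1 h2
      rw [← h1, ← h2]
      exact h
    · intro h
      filter_upwards [h, h1, h2] with n h h1 h2
      rw [h1, h2]
      exact h)

theorem UP.ltU_mk {x y : ∀ n, A n} :
    UP.ltU (UP.mk U x) (UP.mk U y) ↔ ∀ᶠ n in (U : Filter ℕ), x n < y n := Iff.rfl

instance UP.instSTO : IsStrictTotalOrder (UP U A) UP.ltU where
  trichotomous a b := by
    obtain ⟨x, rfl⟩ := UP.exists_mk a
    obtain ⟨y, rfl⟩ := UP.exists_mk b
    intro h1 h2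
    rw [UP.ltU_mk] at h1 h2
    rw [← Ultrafilter.eventually_not] at h1 h2
    rw [UP.mk_eq]
    filter_upwards [h1, h2] with n h1 h2
    exact le_antisymm (not_lt.1 h2) (not_lt.1 h1)
  irrefl a := by
    obtain ⟨x, rfl⟩ := UP.exists_mk a
    rw [UP.ltU_mk, ← Ultrafilter.eventually_not]
    exact Eventually.of_forall fun n => lt_irrefl _
  trans a b e := by
    obtain ⟨x, rfl⟩ := UP.exists_mk a
    obtain ⟨y, rfl⟩ := UP.exists_mk b
    obtain ⟨z, rfl⟩ := UP.exists_mk e
    rw [UP.ltU_mk, UP.ltU_mk, UP.ltU_mk]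
    intro h1 h2
    filter_upwards [h1, h2] with n h1 h2
    exact h1.trans h2

open Classical in
noncomputable instance UP.instLinearOrder : LinearOrder (UP U A) := linearOrderOfSTO UP.ltU

theorem UP.lt_mk {x y : ∀ n, A n} :
    UP.mk U x < UP.mk U y ↔ ∀ᶠ n in (U : Filter ℕ), x n < y n := Iff.rfl

theorem UP.le_mk {x y : ∀ n, A n} :
    UP.mk U x ≤ UP.mk U y ↔ ∀ᶠ n in (U : Filter ℕ), x n ≤ y n := by
  rw [← not_lt, UP.lt_mk, ← Ultrafilter.eventually_not]
  exact eventually_congr (Eventually.of_forall fun n => not_lt)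

variable [∀ n, BoundedOrder (A n)]

noncomputable instance UP.instBoundedOrder : BoundedOrder (UP U A) where
  top := UP.mk U (fun n => ⊤)
  bot := UP.mk U (fun n => ⊥)
  le_top a := by
    obtain ⟨x, rfl⟩ := UP.exists_mk a
    rw [UP.le_mk]
    exact Eventually.of_forall fun n => le_top
  bot_le a := by
    obtain ⟨x, rfl⟩ := UP.exists_mk a
    rw [UP.le_mk]
    exact Eventually.of_forall fun n => bot_le

theorem UP.bot_eq : (⊥ : UP U A) = UP.mk U (fun n => ⊥) := rfl
theorem UP.top_eq : (⊤ : UP U A) = UP.mk U (fun n => ⊤) := rfl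

variable (cA : ∀ n, A n → Prop)

/-- Colour of the ultraproduct. -/
def UP.col (z : UP U A) : Prop :=
  Quotient.liftOn z (fun x => ∀ᶠ n in (U : Filter ℕ), cA n (x n)) (by
    intro a b h1
    apply propext
    constructor
    · intro h
      filter_upwards [h, h1] with n h h1
      rw [← h1]
      exact h
    · intro h
      filter_upwards [h, h1] with n h h1
      rw [h1]
      exact h)

theorem UP.col_mk {x : ∀ n, A n} :
    UP.col cA (UP.mk U x) ↔ ∀ᶠ n in (U : Filter ℕ), cA n (x n) := Iff.rfl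

theorem eventually_eq_prop {R : ℕ → Prop} {S : Prop} (h : S ↔ ∀ᶠ n in (U : Filter ℕ), R n) :
    ∀ᶠ n in (U : Filter ℕ), R n = S := by
  by_cases hS : S
  · filter_upwards [h.1 hS] with n hn
    exact propext ⟨fun _ => hS, fun _ => hn⟩
  · have h2 : ¬ ∀ᶠ n in (U : Filter ℕ), R n := fun h' => hS (h.2 h')
    rw [← Ultrafilter.eventually_not] at h2
    filter_upwards [h2] with n hn
    exact propext ⟨fun h => absurd h hn, fun h => absurd h hS⟩

theorem UP.col_los (x : ∀ n, A n) :
    ∀ᶠ n in (U : Filter ℕ), cA n (x n) = UP.col cA (UP.mk U x) :=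
  eventually_eq_prop (UP.col_mk cA)

theorem UP.lt_los (x y : ∀ n, A n) :
    ∀ᶠ n in (U : Filter ℕ), (x n < y n) = (UP.mk U x < UP.mk U y) :=
  eventually_eq_prop UP.lt_mk

/-- Łoś's theorem for types of intervals. -/
theorem UP.tp_los : ∀ (k : ℕ) (x y : ∀ n, A n),
    ∀ᶠ n in (U : Filter ℕ), tp (cA n) k (x n) (y n) = tp (UP.col cA) k (UP.mk U x) (UP.mk U y)
  | 0, _, _ => Eventually.of_forall fun _ => rfl
  | k + 1, x, y => by
    have key : ∀ σ : T k × Prop × T k, ∀ᶠ n in (U : Filter ℕ),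
        ((σ ∈ (show Set (T k × Prop × T k) from tp (cA n) (k+1) (x n) (y n))) =
        (σ ∈ (show Set (T k × Prop × T k) from
          tp (UP.col cA) (k+1) (UP.mk U x) (UP.mk U y)))) := by
      rintro ⟨s, e, s'⟩
      apply eventually_eq_prop
      constructor
      · intro h
        obtain ⟨z, h1, h2, h3⟩ := (mem_tp_succ (UP.col cA) k _ _ _).1 h
        obtain ⟨z, rfl⟩ := UP.exists_mk z
        simp only [Prod.mk.injEq] at h3
        filter_upwards [UP.lt_mk.1 h1, UP.lt_mk.1 h2, UP.tp_los k x z, UP.tp_los k z y,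
          UP.col_los cA z] with n g1 g2 g3 g4 g5
        refine (mem_tp_succ (cA n) k _ _ _).2 ⟨z n, g1, g2, ?_⟩
        rw [g3, g4, g5, h3.1, h3.2.1, h3.2.2]
      · intro h
        classical
        let z : ∀ n, A n := fun n =>
          if hn : ∃ z, x n < z ∧ z < y n ∧ (s, e, s') = (tp (cA n) k (x n) z, cA n z,
            tp (cA n) k z (y n)) then hn.choose else x n
        have hz : ∀ᶠ n in (U : Filter ℕ), x n < z n ∧ z n < y n ∧
            (s, e, s') = (tp (cA n) k (x n) (z n), cA n (z n), tp (cA n) k (z n) (y n)) := by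
          filter_upwards [h] with n hn
          have hn' := (mem_tp_succ (cA n) k _ _ _).1 hn
          simp only [z]
          rw [dif_pos hn']
          exact hn'.choose_spec
        refine (mem_tp_succ (UP.col cA) k _ _ _).2 ⟨UP.mk U z, ?_, ?_, ?_⟩
        · exact UP.lt_mk.2 (hz.mono fun n h => h.1)
        · exact UP.lt_mk.2 (hz.mono fun n h => h.2.1)
        · obtain ⟨n, h1, h2, h3, h4⟩ := (hz.and ((UP.tp_los k x z).and ((UP.tp_los k z y).and
            (UP.col_los cA z)))).exists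
          rw [← h2, ← h3, ← h4]
          exact h1.2.2
    have key2 := (eventually_all (l := (U : Filter ℕ))).2 key
    filter_upwards [key2] with n hn
    refine T_ext ?_
    intro a e b
    exact iff_of_eq (hn (a, e, b))

theorem UP.rel_los (k : ℕ) (p z : UP U A) (x : ∀ n, A n) (hx : UP.mk U x = z) :
    ∀ᶠ n in (U : Filter ℕ), (p.rep n < x n) = (p < z) ∧ (x n < p.rep n) = (z < p) ∧
      tp (cA n) k (p.rep n) (x n) = tp (UP.col cA) k p z ∧
      tp (cA n) k (x n) (p.rep n) = tp (UP.col cA) k z p := by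
  have h1 := UP.lt_los (U := U) p.rep x
  have h2 := UP.lt_los (U := U) x p.rep
  have h3 := UP.tp_los (U := U) cA k p.rep x
  have h4 := UP.tp_los (U := U) cA k x p.rep
  rw [UP.mk_rep, hx] at h1 h2 h3 h4
  filter_upwards [h1, h2, h3, h4] with n h1 h2 h3 h4
  exact ⟨h1, h2, h3, h4⟩

/-- Invariant sets are internal. -/
theorem UP.internal {k : ℕ} {P : Set (UP U A)} (hP : P.Finite) {D : Set (UP U A)}
    (hD : Inv (UP.col cA) k P D) : ∃ Dn : ∀ n, Set (A n), ∀ x : ∀ n, A n,
      UP.mk U x ∈ D ↔ ∀ᶠ n in (U : Filter ℕ), x n ∈ Dn n := by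
  have : Finite P := hP
  let dat : UP U A → Prop × (P → Prop × Prop × T k × T k) := fun z =>
    (UP.col cA z, fun p => (p.1 < z, z < p.1, tp (UP.col cA) k p.1 z, tp (UP.col cA) k z p.1))
  let datn : ∀ n, A n → Prop × (P → Prop × Prop × T k × T k) := fun n a =>
    (cA n a, fun p => (p.1.rep n < a, a < p.1.rep n, tp (cA n) k (p.1.rep n) a,
      tp (cA n) k a (p.1.rep n)))
  have hdat : ∀ x : ∀ n, A n, ∀ᶠ n in (U : Filter ℕ), datn n (x n) = dat (UP.mk U x) := by
    intro x
    have h1 : ∀ᶠ n in (U : Filter ℕ), ∀ p : P, (p.1.rep n < x n) = (p.1 < UP.mk U x) ∧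
      (x n < p.1.rep n) = (UP.mk U x < p.1) ∧
      tp (cA n) k (p.1.rep n) (x n) = tp (UP.col cA) k p.1 (UP.mk U x) ∧
      tp (cA n) k (x n) (p.1.rep n) = tp (UP.col cA) k (UP.mk U x) p.1 :=
      eventually_all.2 fun p => UP.rel_los cA k p.1 _ x rfl
    filter_upwards [h1, UP.col_los cA x] with n h1 h2
    refine Prod.ext h2 (funext fun p => ?_)
    obtain ⟨a1, a2, a3, a4⟩ := h1 p
    exact Prod.ext a1 (Prod.ext a2 (Prod.ext a3 a4))
  refine ⟨fun n => {a | ∃ z ∈ D, datn n a = dat z}, fun x => ⟨fun h => ?_, fun h => ?_⟩⟩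
  · filter_upwards [hdat x] with n hn
    exact ⟨_, h, hn⟩
  · obtain ⟨n, ⟨z, hz, h1⟩, h2⟩ := (h.and (hdat x)).exists
    rw [h1] at h2
    refine hD z _ ?_ hz
    rw [QP_iff]
    simp only [dat, Prod.mk.injEq] at h2
    refine ⟨h2.1, fun p hp => ?_⟩
    have := congrFun h2.2 ⟨p, hp⟩
    simp only [Prod.mk.injEq] at this
    exact ⟨iff_of_eq this.1, iff_of_eq this.2.1, this.2.2.1, this.2.2.2⟩

/-- Ultraproducts of finite coloured orders have the properties we need. -/
theorem UP.PF [∀ n, Finite (A n)] (hU : ∀ i : ℕ, ∀ᶠ n in (U : Filter ℕ), i ≤ n) :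
    PF (UP.col (U := U) cA) where
  least := by
    classical
    intro P hP k D hD ⟨z, hz⟩
    obtain ⟨Dn, h⟩ := UP.internal cA hP hD
    have hex : ∀ n, ∃ m : A n, (Dn n).Nonempty → IsLeast (Dn n) m := by
      intro n
      by_cases hn : (Dn n).Nonempty
      · obtain ⟨m, hm, hm'⟩ := Set.exists_min_image (Dn n) id (Set.toFinite _) hn
        exact ⟨m, fun _ => ⟨hm, fun x hx => hm' x hx⟩⟩
      · exact ⟨⊥, fun h => absurd h hn⟩
    choose m hm using hex
    have hne : ∀ᶠ n in (U : Filter ℕ), (Dn n).Nonempty := by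
      rw [← UP.mk_rep z, h] at hz
      exact hz.mono fun n hn => ⟨_, hn⟩
    refine ⟨UP.mk U m, (h m).2 (hne.mono fun n hn => (hm n hn).1), fun z' hz' => ?_⟩
    obtain ⟨x, rfl⟩ := UP.exists_mk z'
    have hx := hz'
    rw [h] at hx
    rw [UP.le_mk]
    filter_upwards [hx, hne] with n h1 h2
    exact (hm n h2).2 h1
  greatest := by
    classical
    intro P hP k D hD ⟨z, hz⟩
    obtain ⟨Dn, h⟩ := UP.internal cA hP hD
    have hex : ∀ n, ∃ m : A n, (Dn n).Nonempty → IsGreatest (Dn n) m := by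
      intro n
      by_cases hn : (Dn n).Nonempty
      · obtain ⟨m, hm, hm'⟩ := Set.exists_max_image (Dn n) id (Set.toFinite _) hn
        exact ⟨m, fun _ => ⟨hm, fun x hx => hm' x hx⟩⟩
      · exact ⟨⊥, fun h => absurd h hn⟩
    choose m hm using hex
    have hne : ∀ᶠ n in (U : Filter ℕ), (Dn n).Nonempty := by
      rw [← UP.mk_rep z, h] at hz
      exact hz.mono fun n hn => ⟨_, hn⟩
    refine ⟨UP.mk U m, (h m).2 (hne.mono fun n hn => (hm n hn).1), fun z' hz' => ?_⟩
    obtain ⟨x, rfl⟩ := UP.exists_mk z'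
    have hx := hz'
    rw [h] at hx
    rw [UP.le_mk]
    filter_upwards [hx, hne] with n h1 h2
    exact (hm n h2).2 h1
  sat := by
    classical
    intro D hD hfip
    have hint : ∀ i, ∃ Dn : ∀ n, Set (A n), ∀ x : ∀ n, A n,
        UP.mk U x ∈ D i ↔ ∀ᶠ n in (U : Filter ℕ), x n ∈ Dn n := by
      intro i
      obtain ⟨P, hP, k, h⟩ := hD i
      exact UP.internal cA hP h
    choose Dn hDn using hint
    let E : ℕ → ℕ → Prop := fun N n => ∃ a : A n, ∀ i ≤ N, a ∈ Dn i n
    have hE : ∀ N, ∀ᶠ n in (U : Filter ℕ), E N n := by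
      intro N
      obtain ⟨z, hz⟩ := hfip N
      have h1 : ∀ i : Fin (N+1), ∀ᶠ n in (U : Filter ℕ), z.rep n ∈ Dn i n := by
        intro i
        rw [← hDn, UP.mk_rep]
        exact hz i.1 (by omega)
      filter_upwards [eventually_all.2 h1] with n hn
      exact ⟨z.rep n, fun i hi => hn ⟨i, by omega⟩⟩
    let x : ∀ n, A n := fun n =>
      if h : ∃ N ≤ n, E N n then (Nat.findGreatest_spec (P := fun N => E N n) h.choose_spec.1
        h.choose_spec.2).choose else ⊥
    refine ⟨UP.mk U x, fun i => (hDn i x).2 ?_⟩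
    filter_upwards [hU i, hE i] with n h1 h2
    have hh : ∃ N ≤ n, E N n := ⟨i, h1, h2⟩
    have hx : x n = (Nat.findGreatest_spec (P := fun N => E N n) hh.choose_spec.1
        hh.choose_spec.2).choose := by
      simp only [x]
      rw [dif_pos hh]
    rw [hx]
    exact (Nat.findGreatest_spec (P := fun N => E N n) hh.choose_spec.1
        hh.choose_spec.2).choose_spec i (Nat.le_findGreatest h1 h2)

end Pool.Agent.MP44611a
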